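import Pool.Agent.H447.QR.AsmG

set_option autoImplicit false

open WeierstrassCurve

namespace Pool.Agent.H447.QR.AsmH

open Pool.Agent.H447.QR Pool.Agent.H447.QR.AsmA Pool.Agent.H447.QR.AsmE Pool.Agent.H447.QR.AsmG
open Pool.Agent.Helper566.FD.J7

/-- from `y² = x³ - 432 A²` to `u³ + v³ = A w³` -/
def conv (A : ℤ) (p : Tr) : Tr :=
  (36 * A * (p.2.2 * (p.2.2 * p.2.2)) + p.2.1, 36 * A * (p.2.2 * (p.2.2 * p.2.2)) - p.2.1,
    6 * p.1 * p.2.2)

/-- from `u³ + v³ = A w³` to `y² = x³ - 432 A²` -/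
def back (A : ℤ) (p : Tr) : Tr :=
  (12 * A * p.2.2 * (p.1 + p.2.1), 36 * A * (p.1 - p.2.1) * ((p.1 + p.2.1) * (p.1 + p.2.1)),
    p.1 + p.2.1)

/-- the triple is on the cubic and not at infinity -/
def OnCub (A : ℤ) (p : Tr) : Prop := p.2.2 ≠ 0 ∧ p.1 ^ 3 + p.2.1 ^ 3 = A * p.2.2 ^ 3

/-- generating lists in coordinates `[u : v : w]` of `X³ + Y³ = A Z³` -/
def IsGenCub (A : ℤ) (l : List Tr) : Prop :=
  (∀ p ∈ l, OnCub A p) ∧
    AddSubgroup.closure {P : Pt ((0 : ℤ) : ℚ) ((bA A : ℤ) : ℚ) |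
      ∃ p ∈ l, P = pt 0 (bA A) (back A p)} = ⊤

theorem on_back {A : ℤ} (hA : A ≠ 0) {p : Tr} (h : OnCub A p) : OnC 0 (bA A) (back A p) := by
  obtain ⟨h1, h2⟩ := h
  constructor
  · intro h3
    simp only [back] at h3
    have h4 : p.1 = -p.2.1 := by linarith
    rw [h4] at h2
    have h5 : A * p.2.2 ^ 3 = 0 := by rw [← h2]; ring
    rcases mul_eq_zero.1 h5 with h6 | h6
    · exact hA h6
    · exact h1 (pow_eq_zero_iff (by norm_num) |>.1 h6)
  · simp only [back, bA]
    linear_combination (1728 * A ^ 2 * (p.1 + p.2.1) ^ 3) * h2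

theorem on_conv {A : ℤ} (hA : A ≠ 0) {p : Tr} (h : OnC 0 (bA A) p) : OnCub A (conv A p) := by
  obtain ⟨h1, h2⟩ := h
  have hr : p.1 ≠ 0 := by
    intro h3
    rw [h3] at h2
    unfold bA at h2
    have h4 : 0 < A ^ 2 := by positivity
    have h5 : 0 < p.2.2 ^ 6 := by positivity
    have h6 : 0 < A ^ 2 * p.2.2 ^ 6 := mul_pos h4 h5
    nlinarith [sq_nonneg p.2.1]
  constructor
  · simp only [conv]
    exact mul_ne_zero (mul_ne_zero (by norm_num) hr) h1
  · simp only [conv]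
    unfold bA at h2
    linear_combination (216 * A * p.2.2 ^ 3) * h2

theorem pt_back_conv {A : ℤ} (hA : A ≠ 0) {p : Tr} (h : OnC 0 (bA A) p) :
    pt 0 (bA A) (back A (conv A p)) = pt 0 (bA A) p := by
  have hd : 4 * (0 : ℤ) ^ 3 + 27 * (bA A) ^ 2 ≠ 0 := fc_hd (fc_bA hA)
  obtain ⟨h1, e1⟩ := pt_some hd h
  obtain ⟨h2, e2⟩ := pt_some hd (on_back hA (on_conv hA h))
  rw [e1, e2]
  have hA' : (A : ℚ) ≠ 0 := by exact_mod_cast hA
  have ht : (p.2.2 : ℚ) ≠ 0 := by exact_mod_cast h.1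
  simp only [Affine.Point.some.injEq]
  simp only [back, conv]
  push_cast
  constructor
  · have e : (36 * (A : ℚ) * (p.2.2 * (p.2.2 * p.2.2)) + p.2.1) +
        (36 * (A : ℚ) * (p.2.2 * (p.2.2 * p.2.2)) - p.2.1) = 72 * A * p.2.2 ^ 3 := by ring
    rw [e]
    field_simp
    ring
  · have e : (36 * (A : ℚ) * (p.2.2 * (p.2.2 * p.2.2)) + p.2.1) +
        (36 * (A : ℚ) * (p.2.2 * (p.2.2 * p.2.2)) - p.2.1) = 72 * A * p.2.2 ^ 3 := by ring
    rw [e]
    field_simp
    ring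

section prim

variable {α : Type} [Primcodable α]

theorem iadd {f g : α → ℤ} (hf : Primrec f) (hg : Primrec g) : Primrec (fun a => f a + g a) :=
  prim_int_add.comp hf hg

theorem isub {f g : α → ℤ} (hf : Primrec f) (hg : Primrec g) : Primrec (fun a => f a - g a) :=
  prim_int_sub.comp hf hg

theorem imul {f g : α → ℤ} (hf : Primrec f) (hg : Primrec g) : Primrec (fun a => f a * g a) :=
  prim_int_mul.comp hf hg

theorem prim_conv : Primrec₂ conv := by
  have hA : Primrec (fun c : ℤ × Tr => c.1) := Primrec.fst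
  have h1 : Primrec (fun c : ℤ × Tr => c.2.1) := Primrec.fst.comp Primrec.snd
  have h2 : Primrec (fun c : ℤ × Tr => c.2.2.1) := Primrec.fst.comp (Primrec.snd.comp Primrec.snd)
  have h3 : Primrec (fun c : ℤ × Tr => c.2.2.2) := Primrec.snd.comp (Primrec.snd.comp Primrec.snd)
  have e : Primrec (fun c : ℤ × Tr => 36 * c.1 * (c.2.2.2 * (c.2.2.2 * c.2.2.2))) :=
    imul (imul (Primrec.const 36) hA) (imul h3 (imul h3 h3))
  exact (iadd e h2).pair ((isub e h2).pair (imul (imul (Primrec.const 6) h1) h3))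

theorem prim_back : Primrec₂ back := by
  have hA : Primrec (fun c : ℤ × Tr => c.1) := Primrec.fst
  have h1 : Primrec (fun c : ℤ × Tr => c.2.1) := Primrec.fst.comp Primrec.snd
  have h2 : Primrec (fun c : ℤ × Tr => c.2.2.1) := Primrec.fst.comp (Primrec.snd.comp Primrec.snd)
  have h3 : Primrec (fun c : ℤ × Tr => c.2.2.2) := Primrec.snd.comp (Primrec.snd.comp Primrec.snd)
  have e := iadd h1 h2
  exact (imul (imul (imul (Primrec.const 12) hA) h3) e).pair
    ((imul (imul (imul (Primrec.const 36) hA) (isub h1 h2)) (imul e e)).pair e)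

end prim

/-- generators of `X³ + Y³ = A` are computable -/
def GenCub : Prop :=
  ∃ f : ℤ → List Tr, Computable f ∧ ∀ A : ℤ, A ≠ 0 → IsGenCub A (f A)

theorem comp_map {g : ℤ → Tr → Tr} (hg : Primrec₂ g) {f : ℤ → List Tr} (hf : Computable f) :
    Computable (fun A => (f A).map (g A)) := by
  have h1 : Primrec (fun c : ℤ × List Tr => c.2.map (g c.1)) :=
    Primrec.list_map Primrec.snd
      (hg.comp (Primrec.fst.comp Primrec.fst) Primrec.snd)
  exact h1.to_comp.comp (Computable.id.pair hf)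

theorem genCub_iff : GenCub ↔ GenC := by
  constructor
  · rintro ⟨f, hf, hg⟩
    refine ⟨fun A => (f A).map (back A), comp_map prim_back hf, fun A hA => ?_⟩
    obtain ⟨h1, h2⟩ := hg A hA
    constructor
    · intro p hp
      obtain ⟨q, hq, rfl⟩ := List.mem_map.1 hp
      exact on_back hA (h1 q hq)
    · rw [eq_top_iff, ← h2]
      apply AddSubgroup.closure_mono
      rintro P ⟨p, hp, rfl⟩
      exact ⟨back A p, List.mem_map.2 ⟨p, hp, rfl⟩, rfl⟩
  · rintro ⟨f, hf, hg⟩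
    refine ⟨fun A => (f A).map (conv A), comp_map prim_conv hf, fun A hA => ?_⟩
    obtain ⟨h1, h2⟩ := hg A hA
    constructor
    · intro p hp
      obtain ⟨q, hq, rfl⟩ := List.mem_map.1 hp
      exact on_conv hA (h1 q hq)
    · rw [eq_top_iff, ← h2]
      apply AddSubgroup.closure_mono
      rintro P ⟨p, hp, rfl⟩
      exact ⟨conv A p, List.mem_map.2 ⟨p, hp, rfl⟩, (pt_back_conv hA (h1 p hp)).symm⟩

/-- the linear change of variables -/
theorem bij (A : ℤ) (hA : A ≠ 0) :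
    Set.BijOn (fun p : ℚ × ℚ => (12 * A / (p.1 + p.2), 36 * A * (p.1 - p.2) / (p.1 + p.2)))
      {p : ℚ × ℚ | p.1 ^ 3 + p.2 ^ 3 = A} {q : ℚ × ℚ | q.2 ^ 2 = q.1 ^ 3 - 432 * A ^ 2} := by
  have hA' : (A : ℚ) ≠ 0 := by exact_mod_cast hA
  have hs : ∀ p : ℚ × ℚ, p.1 ^ 3 + p.2 ^ 3 = A → p.1 + p.2 ≠ 0 := by
    intro p hp h0
    apply hA'
    have : p.2 = -p.1 := by linarith
    rw [← hp, this]; ring
  refine ⟨?_, ?_, ?_⟩
  · intro p hp
    have h0 := hs p hp
    have hp' : p.1 ^ 3 + p.2 ^ 3 = A := hp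
    change (36 * A * (p.1 - p.2) / (p.1 + p.2)) ^ 2 = (12 * A / (p.1 + p.2)) ^ 3 - 432 * (A : ℚ) ^ 2
    field_simp
    linear_combination (1728 : ℚ) * hp'
  · intro p hp q hq h
    have h1 := hs p hp
    have h2 := hs q hq
    simp only [Prod.mk.injEq] at h
    obtain ⟨e1, e2⟩ := h
    rw [div_eq_div_iff h1 h2] at e1 e2
    have e3 : p.1 + p.2 = q.1 + q.2 := by
      have : (12 * (A : ℚ)) * ((q.1 + q.2) - (p.1 + p.2)) = 0 := by linear_combination e1
      rcases mul_eq_zero.1 this with h3 | h3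
      · exfalso; apply hA'; linarith
      · linarith
    rw [e3] at e2
    have e4 : p.1 - p.2 = q.1 - q.2 := by
      have : (36 * (A : ℚ) * (q.1 + q.2)) * ((p.1 - p.2) - (q.1 - q.2)) = 0 := by
        linear_combination e2
      rcases mul_eq_zero.1 this with h3 | h3
      · exfalso
        rcases mul_eq_zero.1 h3 with h4 | h4
        · apply hA'; linarith
        · exact h2 h4
      · linarith
    ext
    · linarith
    · linarith
  · intro q hq
    have hq' : q.2 ^ 2 = q.1 ^ 3 - 432 * (A : ℚ) ^ 2 := hq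
    have hx : q.1 ≠ 0 := by
      intro h0
      rw [h0] at hq'
      have : 0 < (A : ℚ) ^ 2 := by positivity
      nlinarith [sq_nonneg q.2]
    refine ⟨((36 * A + q.2) / (6 * q.1), (36 * A - q.2) / (6 * q.1)), ?_, ?_⟩
    · change ((36 * A + q.2) / (6 * q.1)) ^ 3 + ((36 * A - q.2) / (6 * q.1)) ^ 3 = (A : ℚ)
      field_simp
      linear_combination (216 * A : ℚ) * hq'
    · have e1 : (36 * A + q.2) / (6 * q.1) + (36 * A - q.2) / (6 * q.1) = 12 * A / q.1 := by
        field_simp; ring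
      have e2 : (36 * A + q.2) / (6 * q.1) - (36 * A - q.2) / (6 * q.1) = q.2 / (3 * q.1) := by
        field_simp; ring
      simp only [e1, e2]
      ext
      · simp only; field_simp
      · simp only; field_simp; ring

end Pool.Agent.H447.QR.AsmH
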