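import Pool.Agent.H447.QR.Stm

set_option autoImplicit false

namespace Pool.Agent.H447.QR.COV2

open Pool.Agent.H447.QR

theorem t_COV2 : S_COV2 := by
  intro g p q r s x z _
  constructor
  · simp only [Qf.h4, Qf.comp]
    ring
  · simp only [Qf.h6, Qf.comp]
    ring

end Pool.Agent.H447.QR.COV2
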