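import Pool.Agent.H447.QR.Stm2

set_option autoImplicit false

open WeierstrassCurve

namespace Pool.Agent.H447.QR.HTD

open Pool.Agent.H447.QR

/-- numerator of the first coordinate of the double -/
def FF (a b r s : ℤ) : ℤ := r ^ 4 - 2 * a * r ^ 2 * s ^ 2 - 8 * b * r * s ^ 3 + a ^ 2 * s ^ 4

/-- denominator of the first coordinate of the double -/
def GG (a b r s : ℤ) : ℤ := 4 * s * (r ^ 3 + a * r * s ^ 2 + b * s ^ 3)

theorem id1 (a b r s : ℤ) :
    (12 * r ^ 2 * s + 16 * a * s ^ 3) * FF a b r s -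
      (3 * r ^ 3 - 5 * a * r * s ^ 2 - 27 * b * s ^ 3) * GG a b r s =
      4 * (4 * a ^ 3 + 27 * b ^ 2) * s ^ 7 := by
  unfold FF GG; ring

theorem id2 (a b r s : ℤ) :
    (4 * (4 * a ^ 3 + 27 * b ^ 2) * r ^ 3 - 4 * a ^ 2 * b * r ^ 2 * s +
      4 * a * (3 * a ^ 3 + 22 * b ^ 2) * r * s ^ 2 + 12 * b * (a ^ 3 + 8 * b ^ 2) * s ^ 3) *
        FF a b r s +
      (a ^ 2 * b * r ^ 3 + a * (5 * a ^ 3 + 32 * b ^ 2) * r ^ 2 * s +
        2 * b * (13 * a ^ 3 + 96 * b ^ 2) * r * s ^ 2 - 3 * a ^ 2 * (a ^ 3 + 8 * b ^ 2) * s ^ 3) *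
        GG a b r s =
      4 * (4 * a ^ 3 + 27 * b ^ 2) * r ^ 7 := by
  unfold FF GG; ring

/-- monomial bound -/
theorem mono {a b r s m H : ℤ} (hm : 1 ≤ m) (ha : |a| ≤ m) (hb : |b| ≤ m) (hr : |r| ≤ H)
    (hs : |s| ≤ H) (i j k l : ℕ) (hij : i + j ≤ 5) (hkl : k + l = 3) :
    |a ^ i * b ^ j * r ^ k * s ^ l| ≤ m ^ 5 * H ^ 3 := by
  have hH : 0 ≤ H := (abs_nonneg r).trans hr
  rw [abs_mul, abs_mul, abs_mul, abs_pow, abs_pow, abs_pow, abs_pow]
  have h1 : |a| ^ i * |b| ^ j ≤ m ^ 5 := by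
    calc |a| ^ i * |b| ^ j ≤ m ^ i * m ^ j :=
          mul_le_mul (pow_le_pow_left₀ (abs_nonneg _) ha i) (pow_le_pow_left₀ (abs_nonneg _) hb j)
            (by positivity) (by positivity)
      _ = m ^ (i + j) := (pow_add _ _ _).symm
      _ ≤ m ^ 5 := pow_le_pow_right₀ hm hij
  have h2 : |r| ^ k * |s| ^ l ≤ H ^ 3 := by
    calc |r| ^ k * |s| ^ l ≤ H ^ k * H ^ l :=
          mul_le_mul (pow_le_pow_left₀ (abs_nonneg _) hr k) (pow_le_pow_left₀ (abs_nonneg _) hs l)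
            (by positivity) (by positivity)
      _ = H ^ 3 := by rw [← pow_add, hkl]
  calc |a| ^ i * |b| ^ j * |r| ^ k * |s| ^ l = (|a| ^ i * |b| ^ j) * (|r| ^ k * |s| ^ l) := by ring
    _ ≤ m ^ 5 * H ^ 3 := mul_le_mul h1 h2 (by positivity) (by positivity)

theorem bd {a b r s m H : ℤ} (hm : 1 ≤ m) (ha : |a| ≤ m) (hb : |b| ≤ m) (hr : |r| ≤ H)
    (hs : |s| ≤ H) {F G N : ℤ} (hF : |F| ≤ N) (hG : |G| ≤ N) :
    |(12 * r ^ 2 * s + 16 * a * s ^ 3) * F - (3 * r ^ 3 - 5 * a * r * s ^ 2 - 27 * b * s ^ 3) * G| ≤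
      63 * (m ^ 5 * H ^ 3) * N ∧
    |(4 * (4 * a ^ 3 + 27 * b ^ 2) * r ^ 3 - 4 * a ^ 2 * b * r ^ 2 * s +
      4 * a * (3 * a ^ 3 + 22 * b ^ 2) * r * s ^ 2 + 12 * b * (a ^ 3 + 8 * b ^ 2) * s ^ 3) * F +
      (a ^ 2 * b * r ^ 3 + a * (5 * a ^ 3 + 32 * b ^ 2) * r ^ 2 * s +
        2 * b * (13 * a ^ 3 + 96 * b ^ 2) * r * s ^ 2 - 3 * a ^ 2 * (a ^ 3 + 8 * b ^ 2) * s ^ 3) * G|
      ≤ 619 * (m ^ 5 * H ^ 3) * N := by
  have hN : 0 ≤ N := (abs_nonneg F).trans hF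
  have M := fun i j k l h1 h2 => mono (i := i) (j := j) (k := k) (l := l) hm ha hb hr hs h1 h2
  obtain ⟨B, hB⟩ : ∃ B, B = m ^ 5 * H ^ 3 := ⟨_, rfl⟩
  simp only [← hB] at M ⊢
  have mulb : ∀ (x y c : ℤ), |x| ≤ c → |y| ≤ N → |x * y| ≤ c * N := by
    intro x y c hx hy
    rw [abs_mul]
    exact mul_le_mul hx hy (abs_nonneg _) ((abs_nonneg _).trans hx)
  constructor
  · have e1 := abs_le.1 (M 0 0 2 1 (by norm_num) rfl)
    have e2 := abs_le.1 (M 1 0 0 3 (by norm_num) rfl)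
    have e3 := abs_le.1 (M 0 0 3 0 (by norm_num) rfl)
    have e4 := abs_le.1 (M 1 0 1 2 (by norm_num) rfl)
    have e5 := abs_le.1 (M 0 1 0 3 (by norm_num) rfl)
    simp only [pow_zero, pow_one, one_mul, mul_one] at e1 e2 e3 e4 e5
    have h1 : |12 * r ^ 2 * s + 16 * a * s ^ 3| ≤ 28 * B := by
      rw [abs_le]; constructor <;> linarith
    have h2 : |3 * r ^ 3 - 5 * a * r * s ^ 2 - 27 * b * s ^ 3| ≤ 35 * B := by
      rw [abs_le]; constructor <;> linarith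
    have h3 := mulb _ _ _ h1 hF
    have h4 := mulb _ _ _ h2 hG
    calc _ ≤ |(12 * r ^ 2 * s + 16 * a * s ^ 3) * F| +
          |(3 * r ^ 3 - 5 * a * r * s ^ 2 - 27 * b * s ^ 3) * G| := abs_sub _ _
      _ ≤ 28 * B * N + 35 * B * N := add_le_add h3 h4
      _ = 63 * B * N := by ring
  · have e1 := abs_le.1 (M 3 0 3 0 (by norm_num) rfl)
    have e2 := abs_le.1 (M 0 2 3 0 (by norm_num) rfl)
    have e3 := abs_le.1 (M 2 1 2 1 (by norm_num) rfl)
    have e4 := abs_le.1 (M 4 0 1 2 (by norm_num) rfl)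
    have e5 := abs_le.1 (M 1 2 1 2 (by norm_num) rfl)
    have e6 := abs_le.1 (M 3 1 0 3 (by norm_num) rfl)
    have e7 := abs_le.1 (M 0 3 0 3 (by norm_num) rfl)
    have f1 := abs_le.1 (M 2 1 3 0 (by norm_num) rfl)
    have f2 := abs_le.1 (M 4 0 2 1 (by norm_num) rfl)
    have f3 := abs_le.1 (M 1 2 2 1 (by norm_num) rfl)
    have f4 := abs_le.1 (M 3 1 1 2 (by norm_num) rfl)
    have f5 := abs_le.1 (M 0 3 1 2 (by norm_num) rfl)
    have f6 := abs_le.1 (M 5 0 0 3 (by norm_num) rfl)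
    have f7 := abs_le.1 (M 2 2 0 3 (by norm_num) rfl)
    simp only [pow_zero, pow_one, one_mul, mul_one] at e1 e2 e3 e4 e5 e6 e7 f1 f2 f3 f4 f5 f6 f7
    have h1 : |4 * (4 * a ^ 3 + 27 * b ^ 2) * r ^ 3 - 4 * a ^ 2 * b * r ^ 2 * s +
      4 * a * (3 * a ^ 3 + 22 * b ^ 2) * r * s ^ 2 + 12 * b * (a ^ 3 + 8 * b ^ 2) * s ^ 3| ≤
        336 * B := by
      have e : 4 * (4 * a ^ 3 + 27 * b ^ 2) * r ^ 3 - 4 * a ^ 2 * b * r ^ 2 * s +
        4 * a * (3 * a ^ 3 + 22 * b ^ 2) * r * s ^ 2 + 12 * b * (a ^ 3 + 8 * b ^ 2) * s ^ 3 =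
        16 * (a ^ 3 * r ^ 3) + 108 * (b ^ 2 * r ^ 3) - 4 * (a ^ 2 * b * r ^ 2 * s) +
        12 * (a ^ 4 * r * s ^ 2) + 88 * (a * b ^ 2 * r * s ^ 2) + 12 * (a ^ 3 * b * s ^ 3) +
        96 * (b ^ 3 * s ^ 3) := by ring
      rw [e, abs_le]; constructor <;> linarith
    have h2 : |a ^ 2 * b * r ^ 3 + a * (5 * a ^ 3 + 32 * b ^ 2) * r ^ 2 * s +
        2 * b * (13 * a ^ 3 + 96 * b ^ 2) * r * s ^ 2 - 3 * a ^ 2 * (a ^ 3 + 8 * b ^ 2) * s ^ 3| ≤
        283 * B := by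
      have e : a ^ 2 * b * r ^ 3 + a * (5 * a ^ 3 + 32 * b ^ 2) * r ^ 2 * s +
        2 * b * (13 * a ^ 3 + 96 * b ^ 2) * r * s ^ 2 - 3 * a ^ 2 * (a ^ 3 + 8 * b ^ 2) * s ^ 3 =
        a ^ 2 * b * r ^ 3 + 5 * (a ^ 4 * r ^ 2 * s) + 32 * (a * b ^ 2 * r ^ 2 * s) +
        26 * (a ^ 3 * b * r * s ^ 2) + 192 * (b ^ 3 * r * s ^ 2) - 3 * (a ^ 5 * s ^ 3) -
        24 * (a ^ 2 * b ^ 2 * s ^ 3) := by ring
      rw [e, abs_le]; constructor <;> linarith
    have h3 := mulb _ _ _ h1 hF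
    have h4 := mulb _ _ _ h2 hG
    calc _ ≤ _ := abs_add_le _ _
      _ ≤ 336 * B * N + 283 * B * N := add_le_add h3 h4
      _ = 619 * B * N := by ring

/-- the arithmetic core -/
theorem core {a b r s : ℤ} (hD : 4 * a ^ 3 + 27 * b ^ 2 ≠ 0) (hco : IsCoprime r s) (c K : ℤ)
    (hc0 : c ≠ 0) (hcF : c ∣ FF a b r s) (hcG : c ∣ GG a b r s) (hK : 0 ≤ K)
    (hF : |FF a b r s| ≤ |c| * K) (hG : |GG a b r s| ≤ |c| * K) (H : ℤ) (hr : |r| ≤ H)
    (hs : |s| ≤ H) (hH : H = |r| ∨ H = |s|) (hH0 : 0 < H) :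
    H ^ 4 ≤ 619 * (|a| + |b| + 1) ^ 5 * K := by
  obtain ⟨D, hDe⟩ : ∃ D, D = 4 * (4 * a ^ 3 + 27 * b ^ 2) := ⟨_, rfl⟩
  have hD0 : D ≠ 0 := by rw [hDe]; exact mul_ne_zero (by norm_num) hD
  have hm : 1 ≤ |a| + |b| + 1 := by have := abs_nonneg a; have := abs_nonneg b; linarith
  have ha : |a| ≤ |a| + |b| + 1 := by have := abs_nonneg b; linarith
  have hb : |b| ≤ |a| + |b| + 1 := by have := abs_nonneg a; linarith
  obtain ⟨m, hme⟩ : ∃ m, m = |a| + |b| + 1 := ⟨_, rfl⟩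
  rw [← hme] at hm ha hb ⊢
  have hc1 : c ∣ D * s ^ 7 := by
    rw [hDe, ← id1]
    exact dvd_sub (Dvd.dvd.mul_left hcF _) (Dvd.dvd.mul_left hcG _)
  have hc2 : c ∣ D * r ^ 7 := by
    rw [hDe, ← id2]
    exact dvd_add (Dvd.dvd.mul_left hcF _) (Dvd.dvd.mul_left hcG _)
  have hcD : c ∣ D := by
    obtain ⟨u, v, huv⟩ : IsCoprime (r ^ 7) (s ^ 7) := hco.pow
    have e : D = u * (D * r ^ 7) + v * (D * s ^ 7) := by linear_combination -D * huv
    rw [e]
    exact dvd_add (Dvd.dvd.mul_left hc2 _) (Dvd.dvd.mul_left hc1 _)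
  have hcD' : |c| ≤ |D| := by
    apply Int.le_of_dvd (abs_pos.2 hD0)
    rwa [abs_dvd, dvd_abs]
  obtain ⟨b1, b2⟩ := bd hm ha hb hr hs hF hG
  rw [id1, ← hDe, abs_mul, abs_pow] at b1
  rw [id2, ← hDe, abs_mul, abs_pow] at b2
  have hm0 : 0 ≤ m ^ 5 * H ^ 3 := by positivity
  have key : |D| * H ^ 7 ≤ 619 * (m ^ 5 * H ^ 3) * (|c| * K) := by
    rcases hH with h | h
    · rw [← h] at b2; exact b2
    · rw [← h] at b1
      refine b1.trans ?_
      have : 0 ≤ |c| * K := mul_nonneg (abs_nonneg _) hK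
      nlinarith [mul_nonneg hm0 this]
  have key2 : |D| * H ^ 7 ≤ 619 * (m ^ 5 * H ^ 3) * (|D| * K) := by
    refine key.trans ?_
    apply mul_le_mul_of_nonneg_left _ (by positivity)
    exact mul_le_mul_of_nonneg_right hcD' hK
  have hDp : 0 < |D| := abs_pos.2 hD0
  have hpos : 0 < |D| * H ^ 3 := by positivity
  have key3 : (|D| * H ^ 3) * H ^ 4 ≤ (|D| * H ^ 3) * (619 * m ^ 5 * K) := by
    calc (|D| * H ^ 3) * H ^ 4 = |D| * H ^ 7 := by ring
      _ ≤ 619 * (m ^ 5 * H ^ 3) * (|D| * K) := key2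
      _ = (|D| * H ^ 3) * (619 * m ^ 5 * K) := by ring
  exact le_of_mul_le_mul_left key3 hpos

/-- a fraction of integers -/
theorem frac {F G : ℤ} (hG : G ≠ 0) : ∃ c : ℤ, c ≠ 0 ∧ F = c * ((F : ℚ) / G).num ∧
    G = c * (((F : ℚ) / G).den : ℤ) := by
  obtain ⟨q, hq⟩ : ∃ q : ℚ, q = (F : ℚ) / G := ⟨_, rfl⟩
  rw [← hq]
  have hGq : (G : ℚ) ≠ 0 := by exact_mod_cast hG
  have hd : (q.den : ℚ) ≠ 0 := by exact_mod_cast q.den_nz
  have h1 : q.num * G = F * q.den := by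
    have e1 : q * q.den = q.num := Rat.mul_den_eq_num q
    have e2 : q * G = F := by rw [hq]; field_simp
    have : (q.num : ℚ) * G = F * q.den := by rw [← e1, ← e2]; ring
    exact_mod_cast this
  have hco : IsCoprime q.num (q.den : ℤ) := by
    rw [Int.isCoprime_iff_gcd_eq_one]
    exact q.reduced
  have h2 : (q.den : ℤ) ∣ G := by
    apply hco.symm.dvd_of_dvd_mul_left
    exact ⟨F, by rw [h1]; ring⟩
  obtain ⟨c, hc⟩ := h2
  have hdz : (q.den : ℤ) ≠ 0 := by exact_mod_cast q.den_nz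
  refine ⟨c, ?_, ?_, ?_⟩
  · rintro rfl
    apply hG; rw [hc]; ring
  · rw [hc] at h1
    have : (q.den : ℤ) * (F - c * q.num) = 0 := by linear_combination -h1
    rcases mul_eq_zero.1 this with h | h
    · exact absurd h hdz
    · linarith
  · rw [hc]; ring

theorem ht_some {a b X Y : ℚ} (h : (crv a b).toAffine.Nonsingular X Y) :
    Ht (Affine.Point.some X Y h : Pt a b) = max X.num.natAbs X.den := rfl

theorem t_HTD : S_HTD := by
  intro a b hD Q
  have hC1 : 1 ≤ C1 a b := by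
    unfold C1
    have : 0 < (a.natAbs + b.natAbs + 1) ^ 5 := by positivity
    omega
  rcases Q with _ | ⟨X, Y, h⟩
  · have e : (Affine.Point.zero : Pt (a : ℚ) (b : ℚ)) + Affine.Point.zero = 0 :=
      add_zero (0 : Pt (a : ℚ) (b : ℚ))
    rw [e]
    change 1 ^ 4 ≤ C1 a b * 1
    omega
  · have hc : Y ^ 2 = X ^ 3 + a * X + b := by
      have h1 := (Affine.equation_iff _ _).1 h.1
      simp only [zero_mul, add_zero] at h1
      linarith
    obtain ⟨r, hr⟩ : ∃ r : ℤ, r = X.num := ⟨_, rfl⟩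
    obtain ⟨s, hs⟩ : ∃ s : ℤ, s = (X.den : ℤ) := ⟨_, rfl⟩
    have hs0 : 0 < s := by rw [hs]; exact_mod_cast X.den_pos
    have hsq : (s : ℚ) ≠ 0 := by exact_mod_cast hs0.ne'
    have hX : X * s = r := by
      rw [hs, hr]
      exact_mod_cast Rat.mul_den_eq_num X
    have hXe : X = r / s := by field_simp; exact hX
    have hco : IsCoprime r s := by
      rw [hr, hs, Int.isCoprime_iff_gcd_eq_one]
      exact X.reduced
    have hG : (GG a b r s : ℚ) = 4 * s ^ 4 * Y ^ 2 := by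
      rw [hc]
      unfold GG
      push_cast
      rw [← hX]
      ring
    have hF : (FF a b r s : ℚ) = s ^ 4 * (X ^ 4 - 2 * a * X ^ 2 - 8 * b * X + a ^ 2) := by
      unfold FF
      push_cast
      rw [← hX]
      ring
    obtain ⟨Pd, hPd⟩ : ∃ P : Pt (a : ℚ) (b : ℚ), P = Affine.Point.some X Y h +
      Affine.Point.some X Y h := ⟨_, rfl⟩
    rw [← hPd]
    -- the common factor
    have hcom : ∃ c : ℤ, c ≠ 0 ∧ c ∣ FF a b r s ∧ c ∣ GG a b r s ∧
        |FF a b r s| ≤ |c| * (Ht Pd : ℤ) ∧ |GG a b r s| ≤ |c| * (Ht Pd : ℤ) := by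
      by_cases hY : Y = 0
      · have hP0 : Pd = 0 := by
          rw [hPd]
          subst hY
          exact Affine.Point.add_self_of_Y_eq (by simp [Affine.negY])
        have hG0 : GG a b r s = 0 := by
          have : (GG a b r s : ℚ) = 0 := by rw [hG, hY]; ring
          exact_mod_cast this
        have hH1 : (Ht Pd : ℤ) = 1 := by rw [hP0]; rfl
        refine ⟨FF a b r s, ?_, dvd_refl _, ?_, ?_, ?_⟩
        · intro hF0
          have e1 := id1 a b r s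
          rw [hF0, hG0] at e1
          have : 4 * (4 * a ^ 3 + 27 * b ^ 2) * s ^ 7 = 0 := by rw [← e1]; ring
          have h7 : s ^ 7 ≠ 0 := pow_ne_zero 7 hs0.ne'
          exact mul_ne_zero (mul_ne_zero (by norm_num) hD) h7 this
        · rw [hG0]; exact dvd_zero _
        · rw [hH1, mul_one]
        · rw [hG0, hH1, mul_one, abs_zero]; exact abs_nonneg _
      · have hG0 : GG a b r s ≠ 0 := by
          intro h0
          have : (GG a b r s : ℚ) = 0 := by rw [h0]; norm_num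
          rw [hG] at this
          have h4 : (4 : ℚ) * s ^ 4 * Y ^ 2 ≠ 0 :=
            mul_ne_zero (mul_ne_zero (by norm_num) (pow_ne_zero 4 hsq)) (pow_ne_zero 2 hY)
          exact h4 this
        have hne : Y ≠ (crv (a : ℚ) (b : ℚ)).toAffine.negY X Y := by
          simp only [Affine.negY]
          intro h1
          apply hY
          linarith
        have hsl : (crv (a : ℚ) (b : ℚ)).toAffine.slope X X Y Y = (3 * X ^ 2 + a) / (2 * Y) := by
          rw [Affine.slope_of_Y_ne rfl hne]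
          simp only [Affine.negY, zero_mul, mul_zero, add_zero, sub_zero]
          congr 1
          ring
        rw [Affine.Point.add_self_of_Y_ne hne] at hPd
        have hx2 : (crv (a : ℚ) (b : ℚ)).toAffine.addX X X
            ((crv (a : ℚ) (b : ℚ)).toAffine.slope X X Y Y) = (FF a b r s : ℚ) / GG a b r s := by
          rw [hsl, hG, hF]
          simp only [Affine.addX, zero_mul, add_zero, sub_zero]
          have h2 : (s : ℚ) ^ 4 ≠ 0 := pow_ne_zero 4 hsq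
          field_simp
          rw [hc]
          ring
        have hHt : Ht Pd = max ((FF a b r s : ℚ) / GG a b r s).num.natAbs
            ((FF a b r s : ℚ) / GG a b r s).den := by
          rw [hPd, ht_some, hx2]
        obtain ⟨c, hc0, hcF, hcG⟩ := frac (F := FF a b r s) hG0
        refine ⟨c, hc0, ⟨_, hcF⟩, ⟨_, hcG⟩, ?_, ?_⟩
        · nth_rewrite 1 [hcF]
          rw [abs_mul]
          apply mul_le_mul_of_nonneg_left _ (abs_nonneg _)
          rw [hHt, Int.abs_eq_natAbs]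
          exact_mod_cast le_max_left _ _
        · nth_rewrite 1 [hcG]
          rw [abs_mul]
          apply mul_le_mul_of_nonneg_left _ (abs_nonneg _)
          rw [hHt, Nat.abs_cast]
          exact_mod_cast le_max_right _ _
    obtain ⟨c, hc0, hcF, hcG, hbF, hbG⟩ := hcom
    obtain ⟨H, hH⟩ : ∃ H : ℕ, H = Ht (Affine.Point.some X Y h : Pt (a : ℚ) (b : ℚ)) := ⟨_, rfl⟩
    rw [← hH]
    rw [ht_some] at hH
    have hr1 : |r| = (X.num.natAbs : ℤ) := by rw [hr, Int.abs_eq_natAbs]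
    have hs1 : |s| = (X.den : ℤ) := by rw [hs, Nat.abs_cast]
    have hfin := core hD hco c (Ht Pd) hc0 hcF hcG (by positivity) hbF hbG (H : ℤ)
      (by rw [hr1, hH]; exact_mod_cast le_max_left _ _)
      (by rw [hs1, hH]; exact_mod_cast le_max_right _ _)
      (by
        rw [hr1, hs1, hH]
        rcases max_choice X.num.natAbs X.den with h1 | h1
        · left; rw [h1]
        · right; rw [h1])
      (by
        have : 0 < H := by rw [hH]; exact lt_of_lt_of_le X.den_pos (le_max_right _ _)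
        exact_mod_cast this)
    have hfin2 : ((H ^ 4 : ℕ) : ℤ) ≤ ((C1 a b * Ht Pd : ℕ) : ℤ) := by
      unfold C1
      push_cast
      refine hfin.trans ?_
      apply mul_le_mul_of_nonneg_right _ (by positivity)
      have : 0 ≤ (|a| + |b| + 1) ^ 5 := by positivity
      linarith
    exact_mod_cast hfin2

end Pool.Agent.H447.QR.HTD
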