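import Pool.Agent.H447.QR.Stm

set_option autoImplicit false

open WeierstrassCurve

namespace Pool.Agent.H447.QR.MK

open Pool.Agent.H447.QR

theorem nonsing {a b X Y : ℚ} (hd : 4 * a ^ 3 + 27 * b ^ 2 ≠ 0) (h : Y ^ 2 = X ^ 3 + a * X + b) :
    (crv a b).toAffine.Nonsingular X Y := by
  rw [Affine.nonsingular_iff, Affine.equation_iff]
  simp only
  refine ⟨by linear_combination h, ?_⟩
  by_contra hc
  push Not at hc
  obtain ⟨h1, h2⟩ := hc
  have hY : Y = 0 := by linarith
  have h3 : 3 * X ^ 2 + a = 0 := by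
    rw [hY] at h1
    linear_combination -h1
  apply hd
  rw [hY] at h
  have ha : a = -3 * X ^ 2 := by linarith
  have hb : b = 2 * X ^ 3 := by
    rw [ha] at h
    linarith [h]
  rw [ha, hb]
  ring

theorem eqn_of {a b X Y : ℚ} (h : (crv a b).toAffine.Nonsingular X Y) :
    Y ^ 2 = X ^ 3 + a * X + b := by
  rw [Affine.nonsingular_iff, Affine.equation_iff] at h
  simp only at h
  linear_combination h.1

theorem t_MK (sy : S_SYZ) : S_MK := by
  intro a b g x z y hd hi hy hv
  refine ⟨g.h4 x z / (48 * y ^ 2), g.h6 x z / (64 * y ^ 3), ?_, ?_, ?_⟩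
  · apply nonsing hd
    have h := sy g x z
    rw [hi.1, hi.2, ← hv] at h
    field_simp
    linear_combination 4096 * h
  · field_simp
  · field_simp

end Pool.Agent.H447.QR.MK
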