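import Pool.Agent.H447.QR.Stm

set_option autoImplicit false

open WeierstrassCurve

namespace Pool.Agent.H447.QR.NF

open Pool.Agent.H447.QR

theorem t_NF (c1 : S_COV1) (c2 : S_COV2) : S_NF := by
  intro a b g X Y h hi ⟨x, z, y, X', Y', h', hy, hv, h4, h6, hP⟩
  obtain ⟨rfl, rfl⟩ : X = X' ∧ Y = Y' := by
    simpa [Affine.Point.some.injEq] using hP
  obtain ⟨cv, cI, cJ, cc, cs, csc, css, cid⟩ := c1
  have hxz : ∃ q1 s1 : ℚ, x * s1 - q1 * z = 1 := by
    by_cases hx : x = 0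
    · have hz : z ≠ 0 := by
        rintro rfl
        rw [hx] at hv
        apply hy
        have : y ^ 2 = 0 := by rw [hv]; simp [Qf.v]
        exact pow_eq_zero_iff (two_ne_zero) |>.1 this
      exact ⟨-1 / z, 0, by field_simp; ring⟩
    · exact ⟨0, 1 / x, by field_simp; ring⟩
  obtain ⟨q1, s1, hdet⟩ := hxz
  set G0 : Qf ℚ := (g.comp x (q1 * y) z (s1 * y)).smul ((1 / y) ^ 2) with hG0
  have hA0 : G0.A = 1 := by
    have h1 : G0.A = (1 / y) ^ 2 * g.v x z := by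
      rw [hG0]
      simp only [Qf.smul, Qf.comp, Qf.v]
    rw [h1, ← hv]
    field_simp
  set k : ℚ := -G0.B / 4 with hk
  have hG : (g.comp x (k * x + q1 * y) z (k * z + s1 * y)).smul ((1 / y) ^ 2) =
      G0.comp 1 k 0 1 := by
    rw [hG0, csc, cc]
    congr 1
    · congr 1 <;> ring
  have hdet2 : x * (k * z + s1 * y) - (k * x + q1 * y) * z = y := by
    linear_combination y * hdet
  have hδ : x * (k * z + s1 * y) - (k * x + q1 * y) * z ≠ 0 := by rw [hdet2]; exact hy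
  refine ⟨x, k * x + q1 * y, z, k * z + s1 * y, 1 / y, ?_, ?_⟩
  · rw [hdet2]; field_simp
  set G : Qf ℚ := (g.comp x (k * x + q1 * y) z (k * z + s1 * y)).smul ((1 / y) ^ 2) with hGd
  have hGA : G.A = 1 := by rw [hG]; simp [Qf.comp, hA0]
  have hGB : G.B = 0 := by rw [hG]; simp only [Qf.comp, hA0, hk]; ring
  have e4 : G.h4 1 0 = 48 * X := by
    rw [hGd, (cs _ _ _ _).2.2.2.1, (c2 _ _ _ _ _ _ _ hδ).1, hdet2]
    have : g.h4 (x * 1 + (k * x + q1 * y) * 0) (z * 1 + (k * z + s1 * y) * 0) = g.h4 x z := by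
      congr 1 <;> ring
    rw [this, ← h4]
    field_simp
  have e6 : G.h6 1 0 = 64 * Y := by
    rw [hGd, (cs _ _ _ _).2.2.2.2, (c2 _ _ _ _ _ _ _ hδ).2, hdet2]
    have : g.h6 (x * 1 + (k * x + q1 * y) * 0) (z * 1 + (k * z + s1 * y) * 0) = g.h6 x z := by
      congr 1 <;> ring
    rw [this, ← h6]
    field_simp
  have eI : G.I = -48 * a := by
    rw [hGd, (cs _ _ 0 0).2.1, cI, hdet2, hi.1]
    field_simp
  have hC : G.C = -6 * X := by
    simp only [Qf.h4, hGA, hGB] at e4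
    linarith
  have hD : G.D = 8 * Y := by
    simp only [Qf.h6, hGA, hGB] at e6
    linarith
  have hE : G.E = -3 * X ^ 2 - 4 * a := by
    simp only [Qf.I, hGA, hGB, hC] at eI
    linarith
  ext
  · rw [hGA]; rfl
  · rw [hGB]; rfl
  · rw [hC]; rfl
  · rw [hD]; rfl
  · rw [hE]; rfl

end Pool.Agent.H447.QR.NF
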