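import Pool.Agent.H447.QR.Stm

set_option autoImplicit false

open WeierstrassCurve

namespace Pool.Agent.H447.QR.TR

open Pool.Agent.H447.QR

theorem t_TR (c1 : S_COV1) (c2 : S_COV2) : S_TR := by
  intro a b g p q r s μ P hμ ⟨x, z, y, X, Y, h, hy, hv, h4, h6, hP⟩
  obtain ⟨cv, _, _, _, cs, _, _, _⟩ := c1
  have hd : p * s - q * r ≠ 0 := by
    intro h0
    rw [h0] at hμ
    rcases hμ with h1 | h1 <;> norm_num at h1
  have hμ0 : μ ≠ 0 := by
    rintro rfl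
    rcases hμ with h1 | h1 <;> norm_num at h1
  set δ := p * s - q * r with hδ
  have hx : p * ((s * x - q * z) / δ) + q * ((-r * x + p * z) / δ) = x := by
    field_simp
    rw [hδ]; ring
  have hz : r * ((s * x - q * z) / δ) + s * ((-r * x + p * z) / δ) = z := by
    field_simp
    rw [hδ]; ring
  have hv' : ((g.comp p q r s).smul (μ ^ 2)).v ((s * x - q * z) / δ) ((-r * x + p * z) / δ) =
      μ ^ 2 * g.v x z := by
    rw [(cs _ _ _ _).1, cv, hx, hz]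
  have h4' : ((g.comp p q r s).smul (μ ^ 2)).h4 ((s * x - q * z) / δ) ((-r * x + p * z) / δ) =
      μ ^ 4 * δ ^ 2 * g.h4 x z := by
    rw [(cs _ _ _ _).2.2.2.1, (c2 _ _ _ _ _ _ _ hd).1, hx, hz]
    ring
  have h6' : ((g.comp p q r s).smul (μ ^ 2)).h6 ((s * x - q * z) / δ) ((-r * x + p * z) / δ) =
      μ ^ 6 * δ ^ 3 * g.h6 x z := by
    rw [(cs _ _ _ _).2.2.2.2, (c2 _ _ _ _ _ _ _ hd).2, hx, hz]
    ring
  have hsq : (μ * δ) ^ 2 = 1 := by rcases hμ with h1 | h1 <;> rw [h1] <;> norm_num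
  refine ⟨(s * x - q * z) / δ, (-r * x + p * z) / δ, (μ * δ) * μ * y, X, Y, h, ?_, ?_, ?_, ?_, hP⟩
  · have : μ * δ ≠ 0 := mul_ne_zero hμ0 hd
    exact mul_ne_zero (mul_ne_zero this hμ0) hy
  · rw [hv', ← hv]
    linear_combination (μ ^ 2 * y ^ 2) * hsq
  · rw [h4', ← h4]
    ring
  · rw [h6', ← h6]
    ring

end Pool.Agent.H447.QR.TR
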