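import Pool.Agent.H447.QR.Defs

/-!
# Project QR (helper447), MP_d6ddbd_nt: the statements, with proofs on paper

GOAL: deciding which curves `y² = A x⁴ + B x³ + C x² + D x + E` have infinitely many rational points
(or: at least one rational point) is equivalent to computing the ranks of ALL elliptic curves over `ℚ`;
so a positive answer of Q1 gives an algorithm for the ranks.

Throughout `4 a³ + 27 b² ≠ 0` is the nonsingularity of `y² = x³ + a x + b`; if `Inv a b g`, then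
`4 I³ - J² = - 110592 (4 a³ + 27 b²)`.
-/

set_option autoImplicit false

open WeierstrassCurve

namespace Pool.Agent.H447.QR

/-- SYZ (task COV1). Pure `ring` identities. -/
def S_SYZ : Prop := ∀ (g : Qf ℚ) (x z : ℚ),
  27 * g.h6 x z ^ 2 = g.h4 x z ^ 3 - 48 * g.I * g.v x z ^ 2 * g.h4 x z - 64 * g.J * g.v x z ^ 3

/-- COV1. `ring` identities (value, `I`, `J` of `g.comp`, composition of substitutions, constants). -/
def S_COV1 : Prop :=
  (∀ (g : Qf ℚ) (p q r s x z : ℚ), (g.comp p q r s).v x z = g.v (p * x + q * z) (r * x + s * z)) ∧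
  (∀ (g : Qf ℚ) (p q r s : ℚ), (g.comp p q r s).I = (p * s - q * r) ^ 4 * g.I) ∧
  (∀ (g : Qf ℚ) (p q r s : ℚ), (g.comp p q r s).J = (p * s - q * r) ^ 6 * g.J) ∧
  (∀ (g : Qf ℚ) (p q r s p' q' r' s' : ℚ), (g.comp p q r s).comp p' q' r' s' =
    g.comp (p * p' + q * r') (p * q' + q * s') (r * p' + s * r') (r * q' + s * s')) ∧
  (∀ (g : Qf ℚ) (c x z : ℚ), (g.smul c).v x z = c * g.v x z ∧ (g.smul c).I = c ^ 2 * g.I ∧
    (g.smul c).J = c ^ 3 * g.J ∧ (g.smul c).h4 x z = c ^ 2 * g.h4 x z ∧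
    (g.smul c).h6 x z = c ^ 3 * g.h6 x z) ∧
  (∀ (g : Qf ℚ) (c p q r s : ℚ), (g.smul c).comp p q r s = (g.comp p q r s).smul c) ∧
  (∀ (g : Qf ℚ) (c d : ℚ), (g.smul c).smul d = g.smul (d * c)) ∧
  (∀ g : Qf ℚ, g.comp 1 0 0 1 = g ∧ g.smul 1 = g)

/-- COV2. The covariants of `g.comp p q r s`, `δ = p s - q r`. If `ring` is too slow for `h6`: prove it
for `(p,q,r,s) = (1,k,0,1)`, `(u,0,0,v)`, `(0,1,1,0)` and use the composition law `S_COV1` (every
matrix over `ℚ` with `δ ≠ 0` is a product of such matrices; for `δ = 0` both sides are polynomials,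
or treat it separately: only `δ ≠ 0` is stated). -/
def S_COV2 : Prop := ∀ (g : Qf ℚ) (p q r s x z : ℚ), p * s - q * r ≠ 0 →
  (g.comp p q r s).h4 x z = (p * s - q * r) ^ 2 * g.h4 (p * x + q * z) (r * x + s * z) ∧
  (g.comp p q r s).h6 x z = (p * s - q * r) ^ 3 * g.h6 (p * x + q * z) (r * x + s * z)

/-- MK. The covering map goes to the curve: `X = h4 / (48 y²)`, `Y = h6 / (64 y³)` satisfy
`Y² = X³ + a X + b` by `S_SYZ` (`I = -48 a`, `J = -1728 b`, `48³ = 27 · 64²`), and every point of the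
nonsingular curve is nonsingular. -/
def S_MK : Prop := ∀ (a b : ℚ) (g : Qf ℚ) (x z y : ℚ), 4 * a ^ 3 + 27 * b ^ 2 ≠ 0 → Inv a b g →
  y ≠ 0 → y ^ 2 = g.v x z → ∃ (X Y : ℚ) (_ : (crv a b).toAffine.Nonsingular X Y),
    48 * y ^ 2 * X = g.h4 x z ∧ 64 * y ^ 3 * Y = g.h6 x z

/-- TR. Equivalent forms represent the same points. With `δ = p s - q r`, `ε = μ δ = ±1`: take
`(x', z') = δ⁻¹ (s x - q z, - r x + p z)` (the inverse image of `(x, z)`), `y' = ε μ y`, and the same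
`X`, `Y`. Then `v' = μ² v`, `h4' = μ⁴ δ² h4 = μ² h4`, `h6' = μ⁶ δ³ h6 = ε μ³ h6 = (ε μ)³ h6`. -/
def S_TR : Prop := ∀ (a b : ℚ) (g : Qf ℚ) (p q r s μ : ℚ) (P : Pt a b),
  (μ * (p * s - q * r) = 1 ∨ μ * (p * s - q * r) = -1) → Rep a b g P →
    Rep a b ((g.comp p q r s).smul (μ ^ 2)) P

/-- NF. Normal form. Let `P = (X, Y)` be represented by `(x, z, y)`. `(x, z) ≠ 0` since `y ≠ 0`. Take a
matrix of determinant `1` with first column `(x, z)` (`x ≠ 0`: second column `(0, 1/x)`; `x = 0`: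
second column `(-1/z, 0)`), `g₁ = g.comp ..`, `A₁ = y²`; then `diag (1, y)` with `μ = 1 / y` gives
leading coefficient `1`, then `x ↦ x - (B₂ / 4) z` gives `B = 0`. By the covariance of `h4`, `h6`
(values at `(1, 0)`) the coefficients of `x² z²`, `x z³` are `-6 X`, `8 Y`; the last one follows from
`I = -48 a`. -/
def S_NF : Prop := ∀ (a b : ℚ) (g : Qf ℚ) (X Y : ℚ) (h : (crv a b).toAffine.Nonsingular X Y),
  Inv a b g → Rep a b g (Affine.Point.some X Y h) →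
    ∃ p q r s μ : ℚ, μ * (p * s - q * r) = 1 ∧ (g.comp p q r s).smul (μ ^ 2) = nf a X Y

/-- SC. The points represented by the normal form of `P₀ = (X₀, Y₀)` are congruent to `P₀` modulo
doubles. Let `y² = nf (x, z)`, `y ≠ 0`. If `z = 0`: `y = ± x²` and the represented point is `± P₀`, and
`-P₀ = P₀ + (-P₀) + (-P₀)`. Let `z ≠ 0`, `t = x / z`, `w = y / z²`, so
`w² = t⁴ - 6 X₀ t² + 8 Y₀ t - 3 X₀² - 4 a`, `w ≠ 0`; `u₁ = (t² - X₀ + w) / 2`, `u₂ = (t² - X₀ - w) / 2`,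
`vᵢ = Y₀ + t (uᵢ - X₀)`. Then `Qᵢ = (uᵢ, vᵢ)` are on the curve (`(x³ + a x + b) - (Y₀ + t (x - X₀))²` is
`(x - X₀)(x - u₁)(x - u₂)`), `u₁ ≠ u₂`, `(v₁ - v₂)/(u₁ - u₂) = t`, so `Q₁ + Q₂ = -P₀` in the group, and
the represented point is `± (Q₁ - Q₂)`: with `σ = (v₁ + v₂)/(u₁ - u₂)` one has `X = σ² - u₁ - u₂` and
`Y = ± (v₁ + σ (X - u₁))` (`field_simp; ring` after eliminating `a`, `b`:
`a = (v₁² - v₂² - u₁³ + u₂³)/(u₁ - u₂)` or similar; express everything by `u₁, u₂, t, X₀, Y₀`). Finally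
`Q₁ - Q₂ = P₀ + 2 Q₁` up to sign conventions: `Q₁ - Q₂ = 2 Q₁ + P₀`, and `-(Q₁ - Q₂) = P₀ + 2 Q₂`. -/
def S_SC : Prop := ∀ (a b X₀ Y₀ : ℚ) (h : (crv a b).toAffine.Nonsingular X₀ Y₀) (P : Pt a b),
  4 * a ^ 3 + 27 * b ^ 2 ≠ 0 → Rep a b (nf a X₀ Y₀) P →
    ∃ Q : Pt a b, P = Affine.Point.some X₀ Y₀ h + (Q + Q)

/-- SD. Conversely all points `P₀ + 2 Q ≠ 0` are represented by the normal form of `P₀`. If `Q = 0` use
`(x, z, y) = (1, 0, 1)`; if `Q = -P₀` use `(1, 0, -1)`. Otherwise put `Q₁ = Q`, `Q₂ = - P₀ - Q` (both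
`≠ 0`), so `Q₁ + Q₂ = - P₀`, `P₀ + 2 Q = Q₁ - Q₂`. Their first coordinates `u₁ ≠ u₂` are different,
since `Q₁ ≠ Q₂` (else `P₀ + 2 Q = 0`) and `Q₁ ≠ - Q₂` (`P₀ ≠ 0`). Take `t = (v₁ - v₂)/(u₁ - u₂)`,
`x = t`, `z = 1`, `y = ± (u₁ - u₂)`; by the addition formula `X₀ = t² - u₁ - u₂`,
`-Y₀ = -(v₁ + t (X₀ - u₁))`; same identities as in SC. -/
def S_SD : Prop := ∀ (a b X₀ Y₀ : ℚ) (h : (crv a b).toAffine.Nonsingular X₀ Y₀) (Q : Pt a b),
  4 * a ^ 3 + 27 * b ^ 2 ≠ 0 → Affine.Point.some X₀ Y₀ h + (Q + Q) ≠ 0 →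
    Rep a b (nf a X₀ Y₀) (Affine.Point.some X₀ Y₀ h + (Q + Q))

/-- SE. The normal form of `P₀` has a rational root iff `P₀` is a double. A root is `(t : 1)` (leading
coefficient `1`). `→`: with `w = 0` in SC the line through `P₀` of slope `t` meets the curve twice at
`Q = (u, v)`, `u = (t² - X₀)/2`, `v = Y₀ + t (u - X₀)`; the derivative gives `3 u² + a = 2 t v`; `v ≠ 0`
(else `3 u² + a = 0 = v`, singular), so `t` is the slope of the tangent at `Q` and `Q + Q = - P₀`;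
hence `P₀ = (-Q) + (-Q)`. `←`: let `P₀ = Q + Q`, `Q' = -Q = (u, v)`, `Q' + Q' = -P₀`, `v ≠ 0`; the slope
`t = (3 u² + a)/(2 v)` is a root: `X₀ = t² - 2 u`, `Y₀ = v + t (X₀ - u)`. -/
def S_SE : Prop := ∀ (a b X₀ Y₀ : ℚ) (h : (crv a b).toAffine.Nonsingular X₀ Y₀),
  4 * a ^ 3 + 27 * b ^ 2 ≠ 0 →
    (Root (nf a X₀ Y₀) ↔ ∃ Q : Pt a b, Affine.Point.some X₀ Y₀ h = Q + Q)

/-- G1. `y² = nf (x, 1)` has infinitely many rational points iff the group is infinite. `→`: the map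
`(t, w) ↦ Q₁ = (u₁, v₁)`, `u₁ = (t² - X₀ + w)/2`, `v₁ = Y₀ + t (u₁ - X₀)` goes to the curve (also for
`w = 0`), and is injective on the points with `u₁ ≠ X₀` (`t = (v₁ - Y₀)/(u₁ - X₀)`, `w = 2 u₁ + X₀ - t²`);
on the points with `u₁ = X₀` one has `w = 3 X₀ - t²`, so `t` satisfies the equation
`(3 X₀ - t²)² = t⁴ - 6 X₀ t² + 8 Y₀ t - 3 X₀² - 4 a`, that is `8 Y₀ t = 12 X₀² + 4 a`: at most one `t` if
`Y₀ ≠ 0`, none if `Y₀ = 0` (nonsingular), so only finitely many points. `←`: for the points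
`Q = (u, v)`, `u ≠ X₀`, of the curve take `t = (v - Y₀)/(u - X₀)`, `w = 2 u + X₀ - t²`: this is a point
of `w² = nf (t, 1)`, and `Q` is determined by `(t, w)`; only finitely many points have `u = X₀`. -/
def S_G1 : Prop := ∀ (a b X₀ Y₀ : ℚ) (_ : (crv a b).toAffine.Nonsingular X₀ Y₀),
  4 * a ^ 3 + 27 * b ^ 2 ≠ 0 → (InfC (nf a X₀ Y₀) ↔ Infinite (Pt a b))

/-- G2. `InfC` is invariant under equivalence. Let `g' = μ² g ∘ M`. If `(x, y)` is a point of
`y² = g (x, 1)`, let `(x', z') = M⁻¹ (x, 1)`; if `z' ≠ 0` then `(x' / z', μ y / z'²)` is a point of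
`y² = g' (x, 1)`, and `(x, y)` is determined by it. `z' = 0` happens for at most one `x`, so for at most
two points (`y² = g (x, 1)`). The other direction by symmetry (inverse matrix, `S_COV1`). -/
def S_G2 : Prop := ∀ (g : Qf ℚ) (p q r s μ : ℚ), μ * (p * s - q * r) = 1 →
  (InfC g ↔ InfC ((g.comp p q r s).smul (μ ^ 2)))

/-- SH. A form with a rational root represents all nonzero doubles. By TR we may assume that the root is
`(1 : 0)`, that is `A = 0` (matrix of determinant `1` with first column the root, `μ = 1`; and TR for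
the inverse to come back, using `S_COV1`). Then `I = C² - 3 B D = -48 a`,
`J = 9 B C D - 27 E B² - 2 C³ = -1728 b`, and `B ≠ 0` (otherwise `4 I³ = J²`). Let `Q = (u, v)`, `v ≠ 0`
as `2 Q ≠ 0`; put `x = (4 u - C/3)/B`, `z = 1`, `y = ± 8 v / B`: then `y² = B x³ + C x² + D x + E` (the
curve is `(B y)² = w³ + 16 a w + 64 b`, `w = B x + C / 3`), and `h4 / (48 y²)`, `h6 / (64 y³)` are the
coordinates of `2 Q` (duplication formula: slope `(3 u² + a)/(2 v)`); choose the sign of `y`. -/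
def S_SH : Prop := ∀ (a b : ℚ) (g : Qf ℚ), 4 * a ^ 3 + 27 * b ^ 2 ≠ 0 → Inv a b g → Root g →
  ∀ Q : Pt a b, Q + Q ≠ 0 → Rep a b g (Q + Q)

/-- SA. Every point is represented by an INTEGRAL form with the right invariants. Let `X = r / s²`,
`Y = q / s³` with integers `s > 0`, `gcd (r, s) = 1` (standard; `q² = r³ + a r s⁴ + b s⁶`). Let `k` be an
integer with `r k ≡ q mod s⁶`. Then modulo `s⁶`:
`r² k² ≡ q² ≡ r³ + a r s⁴`, so `r k² ≡ r² + a s⁴` (cancel `r`, prime to `s`). Hence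
`r (k² - r) ≡ a s⁴`, `r (k³ - 3 r k + 2 q) ≡ k (r² + a s⁴) - 3 r² k + 2 r q ≡ a k s⁴` (as `r q ≡ r² k`),
`r² (k⁴ - 6 r k² + 8 q k - 3 r² - 4 a s⁴) ≡ (r² + a s⁴)² - 6 r² (r² + a s⁴) + 8 r² (r² + a s⁴) - 3 r⁴
- 4 a r² s⁴ ≡ 0` (use `r² q k ≡ r · r k · r k ... = r (r k²) r`), so
`s² ∣ k² - r`, `s⁴ ∣ k³ - 3 r k + 2 q`, `s⁶ ∣ k⁴ - 6 r k² + 8 q k - 3 r² - 4 a s⁴`. The form with
`A = s²`, `B = 4 k`, `C = 6 (k² - r)/s²`, `D = 4 (k³ - 3 r k + 2 q)/s⁴`,
`E = (k⁴ - 6 r k² + 8 q k - 3 r² - 4 a s⁴)/s⁶` is integral, `I = -48 a`, `J = -1728 b`, and the point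
`(x, z, y) = (1, 0, s)` has image `h4 / (48 y²) = (3 B² - 8 A C)/(48 s²) = r / s²`,
`h6 / (64 y³) = (B³ + 8 A² D - 4 A B C)/(64 s³) = q / s³`. -/
def S_SA : Prop := ∀ (a b : ℤ) (X Y : ℚ) (h : (crv (a : ℚ) (b : ℚ)).toAffine.Nonsingular X Y),
  ∃ g : Qf ℤ, Inv a b g ∧ Rep (a : ℚ) (b : ℚ) g.q (Affine.Point.some X Y h)

/-- F1 (Gauss reduction, real). For a positive definite real binary quadratic form
`Q(x, z) = α x² + β x z + γ z²` (`α > 0`, `4 α γ - β² > 0`) there is an integral matrix of determinant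
`±1` with columns `v₁ = (p, r)`, `v₂ = (q, s)` such that `Q (v₁) > 0` and
`3 Q (v₁) Q (v₂) ≤ 4 α γ - β²`. Proof: choose `v₁` with minimal value among the nonzero integral vectors
(there are only finitely many integral vectors of bounded value); it is primitive, so `v₂` exists with
determinant `1`; replace `v₂` by `v₂ + k v₁` with `|B(v₁, v₂)| ≤ Q (v₁)`, `B` the polar form, where
`Q(x v₁ + y v₂) = A x² + B x y + C y²`; `A ≤ C` by minimality, `|B| ≤ A`, so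
`4 α γ - β² = 4 A C - B² ≥ 3 A C`. (Mathlib: `ModularGroup.exists_smul_mem_fd` may also be used.) -/
def S_F1 : Prop := ∀ α β γ : ℝ, 0 < α → 0 < 4 * α * γ - β ^ 2 → ∃ p q r s : ℤ,
  (p * s - q * r = 1 ∨ p * s - q * r = -1) ∧ 0 < α * p ^ 2 + β * p * r + γ * r ^ 2 ∧
  3 * (α * p ^ 2 + β * p * r + γ * r ^ 2) * (α * q ^ 2 + β * q * s + γ * s ^ 2) ≤
    4 * α * γ - β ^ 2

/-- F2 (the covariant quadratic form). Let `g` be an integral quartic form with `A ≠ 0`,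
`4 I³ ≠ J²`. There is a real quadratic form `Q = α x² + β x z + γ z²` with `α > 0`,
`0 < 4 α γ - β² ≤ M` and real `w₁..w₄ > 0`, complex `θ₁..θ₄` with
`g (x, z) = A ∏ (x - θᵢ z)`, `Q (x, z) = ∑ wᵢ |x - θᵢ z|²` for real `x`, `z`, and
`A² = N² ∏ wᵢ`, `0 < N`, where `N ≤ M₁`; `M`, `M₁` are bounded by a power of `|I| + |J| + 2`.
Proof: `θᵢ` the four different complex roots of `g (x, 1)`, `wᵢ = 1 / |g'(θᵢ)|`,
`g'(θᵢ) = A ∏_{j ≠ i} (θᵢ - θⱼ)`. Let `U = A (θ₁-θ₂)(θ₃-θ₄)`, `V = A (θ₁-θ₃)(θ₄-θ₂)`,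
`W = A (θ₁-θ₄)(θ₂-θ₃)`: `U + V + W = 0`, `U V + V W + W U = - I`, and `27 (U V W)² = 4 I³ - J²`
(identities in the `θᵢ`: Vieta and `ring`). So `N := |U V W| = √(|4 I³ - J²| / 27)`, which is at least
`1/√27`, and `|U|, |V|, |W| ≤ 1 + |I| + N` (each is a root of `t³ - I t - U V W`). We have
`∏ wᵢ = A² / N²` as `∏ g'(θᵢ) = A⁴ ∏_{i≠j}(θᵢ-θⱼ)` has absolute value `N² / A²`. The form
`Q (x, z) = ∑ wᵢ |x - θᵢ z|²` is `α x² + β x z + γ z²` with `α = ∑ wᵢ`, `β = -2 ∑ wᵢ Re θᵢ`,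
`γ = ∑ wᵢ |θᵢ|²`. Since complex conjugation permutes the roots (`g` is real) and preserves the `w`'s,
`S = ∑ wᵢ θᵢ` is real, so `4 α γ - β² = 4 (∑ wᵢ ∑ wⱼ |θⱼ|² - |S|²) = 4 ∑_{i<j} wᵢ wⱼ |θᵢ - θⱼ|²`, and
`wᵢ wⱼ |θᵢ - θⱼ|² = |U| / N` for `{i,j} = {1,2}` or `{3,4}` (similarly `V`, `W`), so
`0 < 4 α γ - β² = 8 (|U| + |V| + |W|) / N`. (So `N` in the statement is this `N`.) -/
def S_F2 : Prop := ∃ K : ℕ, ∀ g : Qf ℤ, g.A ≠ 0 → 4 * g.I ^ 3 ≠ g.J ^ 2 →
  ∃ (α β γ N : ℝ) (w : Fin 4 → ℝ) (θ : Fin 4 → ℂ),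
    0 < α ∧ 0 < 4 * α * γ - β ^ 2 ∧
    4 * α * γ - β ^ 2 ≤ ((g.I.natAbs + g.J.natAbs + 2 : ℕ) : ℝ) ^ K ∧
    0 < N ∧ N ≤ ((g.I.natAbs + g.J.natAbs + 2 : ℕ) : ℝ) ^ K ∧ (∀ i, 0 < w i) ∧
    ((g.A : ℝ)) ^ 2 = N ^ 2 * ∏ i, w i ∧
    (∀ x z : ℂ, (g.A : ℂ) * x ^ 4 + g.B * x ^ 3 * z + g.C * x ^ 2 * z ^ 2 + g.D * x * z ^ 3 +
      g.E * z ^ 4 = g.A * ∏ i, (x - θ i * z)) ∧
    (∀ x z : ℝ, α * x ^ 2 + β * x * z + γ * z ^ 2 = ∑ i, w i * ‖(x : ℂ) - θ i * z‖ ^ 2)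

/-- F3 (reduction theory), from F1 and F2. If `A = 0` take the identity. Otherwise take `Q`, `w`, `θ`
from F2 and `v₁ = (p, r)`, `v₂ = (q, s)` from F1 for `Q`. Let `ℓᵢ (x, z) = x - θᵢ z`. For real vectors
`|ℓᵢ (v)|² ≤ Q (v) / wᵢ`. The coefficient of `x^(4-k) z^k` of `g.comp p q r s` is the sum over the
`k`-element subsets `T` of `A ∏_{i ∉ T} ℓᵢ (v₁) ∏_{i ∈ T} ℓᵢ (v₂)` (`g (x v₁ + z v₂) =
A ∏ (x ℓᵢ(v₁) + z ℓᵢ(v₂))`), so its absolute value is at most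
`6 |A| ∏ wᵢ^(-1/2) Q(v₁)^((4-k)/2) Q(v₂)^(k/2) = 6 N Q(v₁)^((4-k)/2) Q(v₂)^(k/2)`. If the leading
coefficient `g (v₁)` is `0` we are done (first alternative). If `g (v₂) = 0`, swap the two columns
(determinant `∓1`) and get leading coefficient `0`. Otherwise both are nonzero integers, so
`1 ≤ |g (vᵢ)| ≤ N Q(vᵢ)²` and `Q (vᵢ) ≥ N^(-1/2)` for `i = 1, 2`; with `Q (v₁) Q (v₂) ≤ M / 3`
(`M = 4 α γ - β²`) both `Q (vᵢ) ≤ M N^(1/2) / 3`, so all coefficients are at most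
`6 N (M N^(1/2) / 3)²`, which is bounded by a power of `|I| + |J| + 2`. -/
def S_F3 : Prop := ∃ K : ℕ, ∀ g : Qf ℤ, 4 * g.I ^ 3 ≠ g.J ^ 2 → ∃ p q r s : ℤ,
  (p * s - q * r = 1 ∨ p * s - q * r = -1) ∧
    ((g.comp p q r s).A = 0 ∨ InBox ((g.I.natAbs + g.J.natAbs + 2) ^ K) (g.comp p q r s))

/-- LR. Rational roots of a nonzero integral form are small. Scale the root to coprime integers
`(x, z)`; `z ∣ A x⁴` gives `z ∣ A`, `x ∣ E`. If `A ≠ 0 ≠ E` both are bounded by `g.n` (`z ≠ 0` if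
`A ≠ 0`). If `A = 0` the root `(1, 0)` works (`g.n ≥ 1`), if `E = 0` the root `(0, 1)`. -/
def S_LR : Prop := ∀ g : Qf ℤ, g.n ≠ 0 → (Root g.q ↔ RootB g)

/-- EQ. The bounded test for representing a point with first coordinate `r / s`. `←`: by MK and
`X = h4 / (48 y²) = r / s`. `→`: let `(x, z, y)` represent `P = (r / s, Y)`; scale `(x, z)` to coprime
integers (then `y` is an integer, as `y²` is one). `(x : z)` is a root of the integral form
`F = s h4 - 48 r g`, the sum of the absolute values of whose coefficients is at most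
`136 n² |s| + 48 |r| n ≤ eqvBd`. `F ≠ 0`: by NF and COV2 otherwise `h4 (nf) = 48 X₀ nf` as forms for the
normal form `nf a X₀ Y₀` of the point `(X₀, Y₀)` represented (`X₀ = r/s`); the coefficients are
`48 X₀, -192 Y₀, 288 X₀² + 192 a, ..` and `48 X₀, 0, -288 X₀², ..`, so `Y₀ = 0`, `3 X₀² + a = 0`, which
is impossible on a nonsingular curve. So some root of `F`, but we need OUR root to be small: it is, by
the divisibility argument `z ∣ F_A`, `x ∣ F_E` if `F_A ≠ 0 ≠ F_E`; if `F_A = 0` or `F_E = 0` factor: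
if `F_A = 0` and `z ≠ 0` then `(x : z)` is a root of the cubic form `F / z`, whose leading coefficient
may again be `0`, and so on (`z` divides the first nonzero coefficient, `x` divides the last nonzero
coefficient, for coprime `x`, `z` both different from `0`; and if `x = 0` or `z = 0` then
`|x|, |z| ≤ 1`). -/
def S_EQ : Prop := ∀ (a b : ℤ) (g : Qf ℤ) (r s : ℤ), 4 * a ^ 3 + 27 * b ^ 2 ≠ 0 → Inv a b g →
  s ≠ 0 → ((∃ (X Y : ℚ) (h : (crv (a : ℚ) (b : ℚ)).toAffine.Nonsingular X Y), X = r / s ∧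
    Rep (a : ℚ) (b : ℚ) g.q (Affine.Point.some X Y h)) ↔ EqvB g r s)

/-- MW. The Mordell-Weil theorem is `mordell_weil` in the library module
`Pool/Graph/R_pool_sql_team_seeded_3997aac3/Q286/EQ/MW.lean`. For a finitely generated abelian group
`|G / 2G| = 2^rank · |G[2]|` (library: `card_quot_two` used in
`Pool/Graph/R_pool_sql_team_seeded_ab47071d/TH352/RC/RC7.lean`); and `G[2]` consists of `0` and the
points `(x, 0)`, `x` a rational, hence integral root of `x³ + a x + b`, and `|x| ≤ |a| + |b|`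
(`|x| ≤ 1` or `|x|² ≤ |a| + |b|`). -/
def S_MW : Prop := ∀ a b : ℤ, 4 * a ^ 3 + 27 * b ^ 2 ≠ 0 →
  Module.Finite ℤ (Pt (a : ℚ) (b : ℚ)) ∧
    cls a b = 2 ^ Module.finrank ℤ (Pt (a : ℚ) (b : ℚ)) * (1 + nrt a b)

/-- PG. Primitive recursiveness of the basic predicates. `prim_int_add`, `prim_int_mul`, `prim_int_neg`,
`prim_int_sub`, `prim_int_le`, `prim_toNat`, `prim_natCast` are in the library module
`Pool/Graph/R_seed8/Helper566/FD/J7.lean`; bounded quantifiers: `PrimrecRel.exists_lt`,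
`PrimrecRel.exists_mem_list` of Mathlib. (Bounded existence over integers `|x| ≤ m`: `x = i - m`,
`i < 2 m + 1`; for `y² = N`: `y.natAbs ≤ N.natAbs`.) -/
def S_PG : Prop :=
  PrimrecPred (fun c : (ℤ × ℤ) × Ent => Good c.1.1 c.1.2 c.2) ∧
  PrimrecPred (fun c : T5 × (ℤ × ℤ) => EqvB (ofT c.1) c.2.1 c.2.2) ∧
  PrimrecPred (fun c : T5 => RootB (ofT c)) ∧
  PrimrecPred (fun c : (ℤ × ℤ) × T5 => Inv c.1.1 c.1.2 (ofT c.2)) ∧
  Primrec (fun c : ℤ × ℤ => nrt c.1 c.2)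

/-- the condition on a list that the forms in the box with the property `P` are represented -/
def BoxC (K : ℕ) (P : T5 → Prop) (a b : ℤ) (L : List Ent) : Prop :=
  ∀ t : T5, InBox (bdK K a b) (ofT t) → Inv a b (ofT t) → ¬ RootB (ofT t) → P t →
    ∃ e ∈ L, EqvB (ofT t) (eR e) (eS e)

/-- PV (from PG). The predicate `VL` is primitive recursive, and `BoxC` is computable if `P` is.
`VL`: `∀ e ∈ L` by Mathlib's `PrimrecRel.forall_mem_list`, `Pairwise` = for all `i < j < length`.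
`BoxC`: the tuples in the box are the `t` with all coordinates `d - m`, `d < 2 m + 1`; write
for all `k < (2 m + 1)^5` with the digits of `k`, and use `Computable.nat_rec` (or `Computable.find`,
`ComputablePred` lemmas) for the bounded quantifier over a merely computable predicate. -/
def S_PV : Prop :=
  PrimrecPred (fun c : (ℤ × ℤ) × List Ent => VL c.1.1 c.1.2 c.2) ∧
  ∀ (K : ℕ) (P : T5 → Prop), ComputablePred P →
    ComputablePred (fun c : (ℤ × ℤ) × List Ent => BoxC K P c.1.1 c.1.2 c.2)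

/-- FW (from PG, PV). If `F`, `P` are computable predicates, `rk = 0` outside `F`, and for `c ∈ F` there
is a valid list with the box condition, and each such list has length `2^rk (1 + nrt) - 1`, then `rk` is
computable: search the list (`Nat.rfind` over the codes of lists; it exists) and compute
`log₂ ((length + 1) / (1 + nrt))`. -/
def S_FW : Prop := ∀ (K : ℕ) (P : T5 → Prop) (F : ℤ × ℤ → Prop), ComputablePred P →
  ComputablePred F → (∀ c, ¬ F c → rk c = 0) →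
  (∀ c, F c → ∃ L, VL c.1 c.2 L ∧ BoxC K P c.1 c.2 L) →
  (∀ c L, F c → VL c.1 c.2 L → BoxC K P c.1 c.2 L →
    L.length + 1 = 2 ^ rk c * (1 + nrt c.1 c.2)) → Computable rk

/-- the coefficients of `144 g` -/
def t144 (t : T5) : T5 :=
  (144 * t.1, 144 * t.2.1, 144 * t.2.2.1, 144 * t.2.2.2.1, 144 * t.2.2.2.2)

/-- the pair `(a, b)` with `Inv a b (144 g)` -/
def ab (t : T5) : ℤ × ℤ := (-432 * (ofT t).I, -1728 * (ofT t).J)

/-- RV (from PG, PV). The converse algorithm. Given a computable `rk` and for each nonsingular `t` a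
valid list `L` for `ab t` of length `2^rk (1 + nrt) - 1`, such that for every such list `P t` holds iff
(`w = false` or `rk (ab t) ≠ 0`) and (`144 t` has a root or `144 t` represents a point with the first
coordinate of some `e ∈ L`): then `P` is computable (search the list, then decide). -/
def S_RV : Prop := Computable rk → ∀ (w : Bool) (P : T5 → Prop),
  (∀ t, P t → 4 * (ofT t).I ^ 3 ≠ (ofT t).J ^ 2) →
  (∀ t, 4 * (ofT t).I ^ 3 ≠ (ofT t).J ^ 2 → ∃ L, VL (ab t).1 (ab t).2 L ∧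
    L.length + 1 = 2 ^ rk (ab t) * (1 + nrt (ab t).1 (ab t).2)) →
  (∀ t L, 4 * (ofT t).I ^ 3 ≠ (ofT t).J ^ 2 → VL (ab t).1 (ab t).2 L →
    L.length + 1 = 2 ^ rk (ab t) * (1 + nrt (ab t).1 (ab t).2) →
    (P t ↔ (w = false ∨ rk (ab t) ≠ 0) ∧
      (RootB (ofT (t144 t)) ∨ ∃ e ∈ L, EqvB (ofT (t144 t)) (eR e) (eS e)))) →
  ComputablePred P

/-- `f = 0` has infinitely many rational solutions, `f` given as a list of coefficient lists. -/
def InfZ (L : List (List ℤ)) : Prop :=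
  Set.Infinite {p : ℚ × ℚ | ∑ i ∈ Finset.range L.length,
    ∑ j ∈ Finset.range (L.getD i []).length,
      (((L.getD i []).getD j 0 : ℤ) : ℚ) * p.1 ^ i * p.2 ^ j = 0}

/-- IZ. Reduction of `QInf` to `InfZ`: the coefficient list of `y² - g (x, 1)` is
`[[-E, 0, 1], [-D], [-C], [-B], [-A]]`; the map `t ↦ list` is primitive recursive, and the condition
`4 I³ ≠ J²` is decidable (primitive recursive). -/
def S_IZ : Prop := ComputablePred InfZ → ComputablePred QInf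

/-- EF (same task as IZ). The curve itself as a quartic form `(0, 1, 0, a, b)`. -/
def S_EF : Prop := ∀ a b : ℤ, 4 * a ^ 3 + 27 * b ^ 2 ≠ 0 →
  (QInf (0, 1, 0, a, b) ↔ Infinite (Pt (a : ℚ) (b : ℚ)))

/-! ### Arithmetic core, assembled by helper447 from the above -/

/-- CA: valid lists are not longer than the number of nonzero classes, and a longest one is complete. -/
def S_CA : Prop := ∀ a b : ℤ, 4 * a ^ 3 + 27 * b ^ 2 ≠ 0 →
  (∀ L, VL a b L → L.length + 1 ≤ cls a b) ∧ (∃ L, VL a b L ∧ L.length + 1 = cls a b) ∧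
  (∀ L, VL a b L → L.length + 1 = cls a b → ∀ g : Qf ℤ, Inv a b g →
    (Sol g.q ↔ RootB g ∨ ∃ e ∈ L, EqvB g (eR e) (eS e)))

/-- CB: the box condition forces completeness. -/
def S_CB : Prop := ∃ K : ℕ, ∀ a b : ℤ, 4 * a ^ 3 + 27 * b ^ 2 ≠ 0 → ∀ L, VL a b L →
  (∀ g : Qf ℤ, InBox (bdK K a b) g → Inv a b g → ¬ RootB g → Sol g.q →
    ∃ e ∈ L, EqvB g (eR e) (eS e)) → L.length + 1 = cls a b

/-- CI: infinitude. -/
def S_CI : Prop := ∀ (a b : ℚ) (g : Qf ℚ), 4 * a ^ 3 + 27 * b ^ 2 ≠ 0 → Inv a b g →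
  (InfC g ↔ Infinite (Pt a b) ∧ Sol g)

end Pool.Agent.H447.QR
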