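import Pool.Agent.H447.QR.COV1
import Pool.Agent.H447.QR.COV2
import Pool.Agent.H447.QR.MK
import Pool.Agent.H447.QR.TR
import Pool.Agent.H447.QR.NF
import Pool.Agent.H447.QX.H116_MW
import Pool.Agent.H447.QX.H196_SC
import Pool.Agent.H447.QX.H234_SD
import Pool.Agent.H447.QX.H241_IZ
import Pool.Agent.H447.QX.H249_SH
import Pool.Agent.H447.QX.H278_SA
import Pool.Agent.H447.QX.H282_RV
import Pool.Agent.H447.QX.H286_EQ
import Pool.Agent.H447.QX.H355_F2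
import Pool.Agent.H447.QX.H388_PG
import Pool.Agent.H447.QX.H399_FW
import Pool.Agent.H447.QX.H597_F1
import Pool.Agent.H447.QX.H658_G2
import Pool.Agent.H447.QX.H668_PV
import Pool.Agent.H447.QX.H671_F3
import Pool.Agent.H447.QX.H77_CI
import Pool.Agent.H447.QX.H828_G1
import Pool.Agent.H447.QX.H860_SE
import Pool.Agent.H447.QX.H874_LR
import Pool.Agent.H447.QX.H725_EN
import Pool.Agent.H447.QX.H671_RG
import Pool.Agent.H447.QX.H94_FWG
import Pool.Agent.H447.QX.H382_RVG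
import Pool.Agent.H447.QX.H585_GR
import Pool.Agent.H447.QX.H618_GB
import Pool.Agent.H447.QX.H772_GRP
import Pool.Agent.H447.QX.H120_CF
import Pool.Agent.H447.QX.H909_PA
import Pool.Agent.H447.QX.H407_HTA
import Pool.Agent.H447.QR.HTD
import Pool.Agent.H447.QX.H721_ADD
import Pool.Agent.H447.QR.AsmH

/-! Project QR: all statements without hypotheses. -/

set_option autoImplicit false

namespace Pool.Agent.H447.QR.All

open Pool.Agent.H447.QR Pool.Agent.H447.QR.AsmA Pool.Agent.H447.QR.AsmD Pool.Agent.H447.QR.AsmF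

theorem c1 : S_COV1 := COV1.t_COV1
theorem c2 : S_COV2 := COV2.t_COV2
theorem mkr : S_MK := MK.t_MK COV1.t_SYZ
theorem tr : S_TR := TR.t_TR c1 c2
theorem nf' : S_NF := NF.t_NF c1 c2
theorem sh : S_SH := Pool.Agent.H249.QR.SH.t_SH c1 c2 tr
theorem f3 : S_F3 := Pool.Agent.H671.QR.F3.t_F3 Pool.Agent.H597.QR.F1.t_F1 Pool.Agent.H355.QR.F2.t_F2 c1
theorem eq' : S_EQ := Pool.Agent.H286.QR.EQ.t_EQ mkr nf' c1 c2
theorem g2 : S_G2 := Pool.Agent.H658.QR.G2.t_G2 c1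
theorem ci : S_CI := Pool.Agent.H77.QR.CI.t_CI mkr nf' Pool.Agent.H828.QR.G1.t_G1 g2 sh c1
theorem pg : S_PG := Pool.Agent.H388.QR.PG.t_PG
theorem pv : S_PV := Pool.Agent.H668.QR.PV.t_PV pg

theorem h0 : H0 where
  cov1 := c1
  mkr := mkr
  tr := tr
  nf := nf'
  sc := Pool.Agent.H196.QR.SC.t_SC
  sd := Pool.Agent.H234.QR.SD.t_SD
  se := Pool.Agent.H860.QR.SE.t_SE
  sa := Pool.Agent.H278.QR.SA.t_SA
  f3 := f3
  lr := Pool.Agent.H874.QR.LR.t_LR
  eq := eq'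
  mw := Pool.Agent.H116.QR.MW.t_MW

theorem h1 : H1 where
  toH0 := h0
  ci := ci
  fw := Pool.Agent.H399.QR.FW.t_FW pg pv
  rv := Pool.Agent.H282.QR.RV.t_RV pg pv
  iz := Pool.Agent.H241.QR.IZ.t_IZ
  ef := Pool.Agent.H241.QR.IZ.t_EF

theorem h2 : H2 where
  toH0 := h0
  gb := Pool.Agent.H618.QR.GB.t_GB HTD.t_HTD Pool.Agent.H407.QR.HTA.t_HTA
  en := Pool.Agent.H725.QR.EN.t_EN
  rg := Pool.Agent.H671.QR.RG.t_RG pg pv
  add := Pool.Agent.H721.QR.ADD.t_ADD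
  gr := Pool.Agent.H585.QR.GR.t_GR pg pv (Pool.Agent.H909.QR.PA.t_PA pg)

end Pool.Agent.H447.QR.All
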