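import Pool.Agent.H447.QR.All
import Pool.Agent.H447.QX.H189_TOR

/-! Project QR: the family `X³ + Y³ = A`. -/

set_option autoImplicit false

namespace Pool.Agent.H447.QR.All2

open Pool.Agent.H447.QR Pool.Agent.H447.QR.All Pool.Agent.H447.QR.AsmG

theorem h3 : H3 where
  toH2 := h2
  ci := ci
  fwg := Pool.Agent.H94.QR.FWG.t_FWG pg pv
  rvg := Pool.Agent.H382.QR.RVG.t_RVG pg pv
  grp := Pool.Agent.H772.QR.GRP.t_GRP
  tor := Pool.Agent.H189.QR.TOR.t_TOR
  cf := Pool.Agent.H120.QR.CF.t_CF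

end Pool.Agent.H447.QR.All2
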