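import Pool.Agent.H447.QR.Stm

set_option autoImplicit false

open WeierstrassCurve

namespace Pool.Agent.H447.QR.AsmA

open Pool.Agent.H447.QR

/-- the hypotheses used in the assembly -/
structure H0 : Prop where
  cov1 : S_COV1
  mkr : S_MK
  tr : S_TR
  nf : S_NF
  sc : S_SC
  sd : S_SD
  se : S_SE
  sa : S_SA
  f3 : S_F3
  lr : S_LR
  eq : S_EQ
  mw : S_MW

/-! ### casts -/

theorem q_I (g : Qf ℤ) : g.q.I = (g.I : ℚ) := by
  simp only [Qf.I, Qf.q]; push_cast; ring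

theorem q_J (g : Qf ℤ) : g.q.J = (g.J : ℚ) := by
  simp only [Qf.J, Qf.q]; push_cast; ring

theorem q_v (g : Qf ℤ) (x z : ℤ) : g.q.v x z = ((g.v x z : ℤ) : ℚ) := by
  simp only [Qf.v, Qf.q]; push_cast; ring

theorem q_h4 (g : Qf ℤ) (x z : ℤ) : g.q.h4 x z = ((g.h4 x z : ℤ) : ℚ) := by
  simp only [Qf.h4, Qf.q]; push_cast; ring

theorem inv_q {a b : ℤ} {g : Qf ℤ} (h : Inv a b g) : Inv (a : ℚ) (b : ℚ) g.q := by
  refine ⟨?_, ?_⟩
  · rw [q_I, h.1]; push_cast; ring
  · rw [q_J, h.2]; push_cast; ring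

theorem q_comp (g : Qf ℤ) (p q r s : ℤ) :
    (g.comp p q r s).q = (g.q.comp (p : ℚ) q r s).smul (1 ^ 2) := by
  ext <;> (simp only [Qf.q, Qf.comp, Qf.smul]; push_cast; ring)

theorem hdq {a b : ℤ} (hd : 4 * a ^ 3 + 27 * b ^ 2 ≠ 0) :
    4 * (a : ℚ) ^ 3 + 27 * (b : ℚ) ^ 2 ≠ 0 := by
  exact_mod_cast hd

/-! ### representing points -/

theorem rep_ne_zero {a b : ℚ} {g : Qf ℚ} {P : Pt a b} (h : Rep a b g P) : P ≠ 0 := by
  obtain ⟨_, _, _, _, _, _, _, _, _, _, hP⟩ := h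
  rw [hP]
  exact Affine.Point.some_ne_zero _

theorem rep_congr (H : H0) {a b : ℚ} {g : Qf ℚ} {P P' : Pt a b}
    (hd : 4 * a ^ 3 + 27 * b ^ 2 ≠ 0) (hi : Inv a b g)
    (h : Rep a b g P) (h' : Rep a b g P') : ∃ Q : Pt a b, P' = P + (Q + Q) := by
  obtain ⟨x, z, y, X, Y, hn, hy, hv, h4, h6, hP⟩ := h
  have hr : Rep a b g (Affine.Point.some X Y hn) := ⟨x, z, y, X, Y, hn, hy, hv, h4, h6, rfl⟩
  obtain ⟨p, q, r, s, μ, hμ, hnf⟩ := H.nf a b g X Y hn hi hr
  have h1 : Rep a b (nf a X Y) P' := by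
    rw [← hnf]
    exact H.tr a b g p q r s μ P' (Or.inl hμ) h'
  rw [hP]
  exact H.sc a b X Y hn P' hd h1

theorem inv_mat (H : H0) (g : Qf ℚ) (p q r s μ : ℚ) (hμ : μ * (p * s - q * r) = 1) :
    ∃ p' q' r' s' μ' : ℚ, μ' * (p' * s' - q' * r') = 1 ∧
      (((g.comp p q r s).smul (μ ^ 2)).comp p' q' r' s').smul (μ' ^ 2) = g := by
  obtain ⟨cv, cI, cJ, cc, cs, csc, css, cid⟩ := H.cov1
  have hd : p * s - q * r ≠ 0 := by
    intro h0; rw [h0] at hμ; norm_num at hμ
  have hμ0 : μ ≠ 0 := by rintro rfl; norm_num at hμ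
  refine ⟨s / (p * s - q * r), -q / (p * s - q * r), -r / (p * s - q * r), p / (p * s - q * r),
    (p * s - q * r), ?_, ?_⟩
  · field_simp
    try ring
  · rw [csc, cc, css]
    have e1 : p * (s / (p * s - q * r)) + q * (-r / (p * s - q * r)) = 1 := by
      field_simp; try ring
    have e2 : p * (-q / (p * s - q * r)) + q * (p / (p * s - q * r)) = 0 := by
      field_simp; try ring
    have e3 : r * (s / (p * s - q * r)) + s * (-r / (p * s - q * r)) = 0 := by
      field_simp; try ring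
    have e4 : r * (-q / (p * s - q * r)) + s * (p / (p * s - q * r)) = 1 := by
      have e : r * (-q) + s * p = p * s - q * r := by ring
      rw [← mul_div_assoc, ← mul_div_assoc, ← add_div, e, div_self hd]
    rw [e1, e2, e3, e4, (cid g).1]
    have e5 : (p * s - q * r) ^ 2 * μ ^ 2 = 1 := by
      rw [← mul_pow, mul_comm, hμ, one_pow]
    rw [e5, (cid g).2]

theorem rep_shift (H : H0) {a b : ℚ} {g : Qf ℚ} {P : Pt a b}
    (hd : 4 * a ^ 3 + 27 * b ^ 2 ≠ 0) (hi : Inv a b g)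
    (h : Rep a b g P) (Q : Pt a b) (hne : P + (Q + Q) ≠ 0) : Rep a b g (P + (Q + Q)) := by
  obtain ⟨x, z, y, X, Y, hn, hy, hv, h4, h6, hP⟩ := h
  have hr : Rep a b g (Affine.Point.some X Y hn) := ⟨x, z, y, X, Y, hn, hy, hv, h4, h6, rfl⟩
  obtain ⟨p, q, r, s, μ, hμ, hnf⟩ := H.nf a b g X Y hn hi hr
  rw [hP] at hne ⊢
  have h1 := H.sd a b X Y hn Q hd hne
  obtain ⟨p', q', r', s', μ', hμ', hg⟩ := inv_mat H g p q r s μ hμ
  rw [hnf] at hg
  have h2 := H.tr a b (nf a X Y) p' q' r' s' μ' _ (Or.inl hμ') h1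
  rw [hg] at h2
  exact h2

theorem root_tr (H : H0) {g : Qf ℚ} {p q r s μ : ℚ} (hμ : μ * (p * s - q * r) = 1)
    (h : Root g) : Root ((g.comp p q r s).smul (μ ^ 2)) := by
  obtain ⟨cv, cI, cJ, cc, cs, csc, css, cid⟩ := H.cov1
  obtain ⟨x, z, hxz, hv⟩ := h
  have hd : p * s - q * r ≠ 0 := by
    intro h0; rw [h0] at hμ; norm_num at hμ
  refine ⟨s * x - q * z, -r * x + p * z, ?_, ?_⟩
  · by_contra hc
    push Not at hc
    obtain ⟨e1, e2⟩ := hc
    have hx : (p * s - q * r) * x = 0 := by linear_combination p * e1 + q * e2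
    have hz : (p * s - q * r) * z = 0 := by linear_combination r * e1 + s * e2
    rcases hxz with h1 | h1
    · exact h1 ((mul_eq_zero.1 hx).resolve_left hd)
    · exact h1 ((mul_eq_zero.1 hz).resolve_left hd)
  · rw [(cs _ _ _ _).1, cv]
    have e : g.v (p * (s * x - q * z) + q * (-r * x + p * z))
        (r * (s * x - q * z) + s * (-r * x + p * z)) = (p * s - q * r) ^ 4 * g.v x z := by
      have e1 : p * (s * x - q * z) + q * (-r * x + p * z) = (p * s - q * r) * x := by ring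
      have e2 : r * (s * x - q * z) + s * (-r * x + p * z) = (p * s - q * r) * z := by ring
      rw [e1, e2]
      simp only [Qf.v]
      ring
    rw [e, hv]
    ring

theorem root_iff (H : H0) {a b : ℚ} {g : Qf ℚ} {P : Pt a b}
    (hd : 4 * a ^ 3 + 27 * b ^ 2 ≠ 0) (hi : Inv a b g)
    (h : Rep a b g P) : Root g ↔ ∃ Q : Pt a b, P = Q + Q := by
  obtain ⟨x, z, y, X, Y, hn, hy, hv, h4, h6, hP⟩ := h
  have hr : Rep a b g (Affine.Point.some X Y hn) := ⟨x, z, y, X, Y, hn, hy, hv, h4, h6, rfl⟩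
  obtain ⟨p, q, r, s, μ, hμ, hnf⟩ := H.nf a b g X Y hn hi hr
  rw [hP, ← H.se a b X Y hn hd]
  obtain ⟨p', q', r', s', μ', hμ', hg⟩ := inv_mat H g p q r s μ hμ
  rw [hnf] at hg
  constructor
  · intro h0
    rw [← hnf]
    exact root_tr H hμ h0
  · intro h0
    rw [← hg]
    exact root_tr H hμ' h0

/-- two points with the same first coordinate -/
theorem same_x {a b : ℚ} {X Y X' Y' : ℚ} (h : (crv a b).toAffine.Nonsingular X Y)
    (h' : (crv a b).toAffine.Nonsingular X' Y') (hX : X = X') :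
    (Affine.Point.some X Y h : Pt a b) = Affine.Point.some X' Y' h' ∨
      (Affine.Point.some X Y h : Pt a b) = -Affine.Point.some X' Y' h' := by
  subst hX
  have e1 := h.1
  have e2 := h'.1
  rw [Affine.equation_iff] at e1 e2
  simp only at e1 e2
  have e3 : (Y - Y') * (Y + Y') = 0 := by linear_combination e1 - e2
  rcases mul_eq_zero.1 e3 with h0 | h0
  · left
    have : Y = Y' := by linarith
    subst this
    rfl
  · right
    rw [Affine.Point.neg_some]
    have : Y = (crv a b).toAffine.negY X Y' := by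
      simp only [Affine.negY]
      linarith
    simp only [Affine.Point.some.injEq]
    exact ⟨trivial, this⟩

end Pool.Agent.H447.QR.AsmA
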