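import Pool.Agent.H447.QR.AsmA

set_option autoImplicit false

open WeierstrassCurve

namespace Pool.Agent.H447.QR.AsmB

open Pool.Agent.H447.QR Pool.Agent.H447.QR.AsmA

/-- the quotient by the doubles -/
abbrev Cq (a b : ℤ) : Type := Pt (a : ℚ) (b : ℚ) ⧸ (zsmulAddGroupHom (α := Pt (a : ℚ) (b : ℚ)) 2).range

/-- class of a point -/
abbrev cl {a b : ℤ} (P : Pt (a : ℚ) (b : ℚ)) : Cq a b := QuotientAddGroup.mk P

theorem cl_eq_iff {a b : ℤ} (P P' : Pt (a : ℚ) (b : ℚ)) :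
    cl P = cl P' ↔ ∃ Q : Pt (a : ℚ) (b : ℚ), P' = P + (Q + Q) := by
  rw [QuotientAddGroup.eq, AddMonoidHom.mem_range]
  constructor
  · rintro ⟨Q, hQ⟩
    refine ⟨Q, ?_⟩
    rw [zsmulAddGroupHom_apply, two_zsmul] at hQ
    rw [hQ]
    abel
  · rintro ⟨Q, hQ⟩
    refine ⟨Q, ?_⟩
    rw [zsmulAddGroupHom_apply, two_zsmul, hQ]
    abel

theorem cl_eq_zero_iff {a b : ℤ} (P : Pt (a : ℚ) (b : ℚ)) :
    cl P = 0 ↔ ∃ Q : Pt (a : ℚ) (b : ℚ), P = Q + Q := by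
  have h := cl_eq_iff (a := a) (b := b) 0 P
  have h0 : (cl (0 : Pt (a : ℚ) (b : ℚ)) : Cq a b) = 0 := rfl
  rw [h0] at h
  rw [eq_comm, h]
  simp only [zero_add]

theorem cl_neg {a b : ℤ} (P : Pt (a : ℚ) (b : ℚ)) : cl (-P) = cl P := by
  rw [cl_eq_iff]
  exact ⟨P, by abel⟩

/-- `P` is the point of the entry `e` -/
def IsPt (a b : ℤ) (e : Ent) (P : Pt (a : ℚ) (b : ℚ)) : Prop :=
  Rep (a : ℚ) (b : ℚ) (ofT e.1).q P ∧
    ∃ (X Y : ℚ) (h : (crv (a : ℚ) (b : ℚ)).toAffine.Nonsingular X Y),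
      P = Affine.Point.some X Y h ∧ X = (eR e : ℚ) / (eS e : ℚ)

theorem isPt_ne_zero {a b : ℤ} {e : Ent} {P : Pt (a : ℚ) (b : ℚ)} (h : IsPt a b e P) : P ≠ 0 :=
  rep_ne_zero h.1

theorem eS_ne {a b : ℤ} {e : Ent} (h : Good a b e) : eS e ≠ 0 := by
  unfold eS
  have := h.2.1
  positivity

theorem exists_isPt (H : H0) {a b : ℤ} (hd : 4 * a ^ 3 + 27 * b ^ 2 ≠ 0) {e : Ent}
    (h : Good a b e) : ∃ P, IsPt a b e P := by
  obtain ⟨hi, hy, hv, -⟩ := h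
  have hyq : (e.2.2.2 : ℚ) ≠ 0 := by exact_mod_cast hy
  have hvq : (e.2.2.2 : ℚ) ^ 2 = (ofT e.1).q.v e.2.1 e.2.2.1 := by
    rw [q_v, ← hv]; push_cast; ring
  obtain ⟨X, Y, hn, h4, h6⟩ := H.mkr a b (ofT e.1).q e.2.1 e.2.2.1 e.2.2.2 (hdq hd) (inv_q hi)
    hyq hvq
  refine ⟨Affine.Point.some X Y hn, ⟨e.2.1, e.2.2.1, e.2.2.2, X, Y, hn, hyq, hvq, h4, h6, rfl⟩,
    X, Y, hn, rfl, ?_⟩
  rw [q_h4] at h4
  unfold eR eS
  push_cast
  rw [eq_div_iff (by positivity)]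
  linear_combination h4

theorem not_double (H : H0) {a b : ℤ} (hd : 4 * a ^ 3 + 27 * b ^ 2 ≠ 0) {e : Ent}
    (h : Good a b e) {P : Pt (a : ℚ) (b : ℚ)} (hP : IsPt a b e P) : cl P ≠ 0 := by
  intro h0
  rw [cl_eq_zero_iff] at h0
  rw [← root_iff H (hdq hd) (inv_q h.1) hP.1] at h0
  apply h.2.2.2
  rw [← H.lr _ ?_]
  · exact h0
  · intro hn
    have hv := h.2.2.1
    have hy := h.2.1
    unfold Qf.n at hn
    have h1 : (ofT e.1).A = 0 := by omega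
    have h2 : (ofT e.1).B = 0 := by omega
    have h3 : (ofT e.1).C = 0 := by omega
    have h4 : (ofT e.1).D = 0 := by omega
    have h5 : (ofT e.1).E = 0 := by omega
    simp only [Qf.v, h1, h2, h3, h4, h5] at hv
    apply hy
    have : e.2.2.2 ^ 2 = 0 := by rw [hv]; ring
    exact pow_eq_zero_iff (two_ne_zero) |>.1 this

/-- the bounded test, in terms of classes: `→` -/
theorem eqvB_cl (H : H0) {a b : ℤ} (hd : 4 * a ^ 3 + 27 * b ^ 2 ≠ 0) {g : Qf ℤ} (hi : Inv a b g)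
    {f : Ent} (hf : Good a b f) {P Pf : Pt (a : ℚ) (b : ℚ)} (hP : Rep (a : ℚ) (b : ℚ) g.q P)
    (hPf : IsPt a b f Pf) (h : EqvB g (eR f) (eS f)) : cl P = cl Pf := by
  rw [← H.eq a b g (eR f) (eS f) hd hi (eS_ne hf)] at h
  obtain ⟨X, Y, hn, hX, hr⟩ := h
  have h1 := rep_congr H (hdq hd) (inv_q hi) hP hr
  rw [← cl_eq_iff] at h1
  rw [h1]
  obtain ⟨-, X', Y', hn', hP', hX'⟩ := hPf
  rw [hP']
  rcases same_x hn hn' (by rw [hX, hX']) with h2 | h2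
  · rw [h2]
  · rw [h2, cl_neg]

/-- the bounded test, in terms of classes: `←` -/
theorem cl_eqvB (H : H0) {a b : ℤ} (hd : 4 * a ^ 3 + 27 * b ^ 2 ≠ 0) {g : Qf ℤ} (hi : Inv a b g)
    {f : Ent} (hf : Good a b f) {P Pf : Pt (a : ℚ) (b : ℚ)} (hP : Rep (a : ℚ) (b : ℚ) g.q P)
    (hPf : IsPt a b f Pf) (h : cl P = cl Pf) : EqvB g (eR f) (eS f) := by
  rw [← H.eq a b g (eR f) (eS f) hd hi (eS_ne hf)]
  obtain ⟨Q, hQ⟩ := (cl_eq_iff _ _).1 h
  have h1 : Rep (a : ℚ) (b : ℚ) g.q (P + (Q + Q)) := by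
    apply rep_shift H (hdq hd) (inv_q hi) hP
    rw [← hQ]
    exact isPt_ne_zero hPf
  rw [← hQ] at h1
  obtain ⟨-, X', Y', hn', hP', hX'⟩ := hPf
  exact ⟨X', Y', hn', hX', by rw [← hP']; exact h1⟩

/-- the class `c` is the class of an entry of `L` -/
def Hit {a b : ℤ} (L : List Ent) (c : Cq a b) : Prop := ∃ e ∈ L, ∃ P, IsPt a b e P ∧ cl P = c

theorem good_of_sol (H : H0) {a b : ℤ} (hd : 4 * a ^ 3 + 27 * b ^ 2 ≠ 0) {g : Qf ℤ}
    (hi : Inv a b g) {P : Pt (a : ℚ) (b : ℚ)} (hP : Rep (a : ℚ) (b : ℚ) g.q P)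
    (hc : cl P ≠ 0) : ∃ e : Ent, Good a b e ∧ ∃ P', IsPt a b e P' ∧ cl P' = cl P := by
  obtain ⟨x, z, y, X, Y, hn, hy, hv, h4, h6, hPe⟩ := id hP
  have hnr : ¬ RootB g := by
    intro h0
    rw [← H.lr _ ?_, root_iff H (hdq hd) (inv_q hi) hP, ← cl_eq_zero_iff] at h0
    · exact hc h0
    · intro hn
      unfold Qf.n at hn
      have h1 : g.A = 0 := by omega
      have h2 : g.B = 0 := by omega
      have h3 : g.C = 0 := by omega
      have h4 : g.D = 0 := by omega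
      have h5 : g.E = 0 := by omega
      simp only [Qf.v, Qf.q, h1, h2, h3, h4, h5] at hv
      apply hy
      have : y ^ 2 = 0 := by rw [hv]; push_cast; ring
      exact pow_eq_zero_iff (two_ne_zero) |>.1 this
  -- scale to an integral point
  set m : ℤ := ((x.den * z.den * y.den : ℕ) : ℤ) with hm
  have hm0 : (m : ℚ) ≠ 0 := by
    rw [hm]
    have h1 := x.den_nz
    have h2 := z.den_nz
    have h3 := y.den_nz
    push_cast
    positivity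
  obtain ⟨x', hx'⟩ : ∃ x' : ℤ, (x' : ℚ) = m * x := by
    refine ⟨x.num * (z.den * y.den), ?_⟩
    rw [hm]
    push_cast
    have : (x.num : ℚ) = x * x.den := (Rat.mul_den_eq_num x).symm
    rw [this]; ring
  obtain ⟨z', hz'⟩ : ∃ z' : ℤ, (z' : ℚ) = m * z := by
    refine ⟨z.num * (x.den * y.den), ?_⟩
    rw [hm]
    push_cast
    have : (z.num : ℚ) = z * z.den := (Rat.mul_den_eq_num z).symm
    rw [this]; ring
  obtain ⟨y', hy'⟩ : ∃ y' : ℤ, (y' : ℚ) = m ^ 2 * y := by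
    refine ⟨m * (y.num * (x.den * z.den)), ?_⟩
    rw [sq]
    have h0 : (m : ℚ) = x.den * z.den * y.den := by rw [hm]; push_cast; ring
    push_cast
    have : (y.num : ℚ) = y * y.den := (Rat.mul_den_eq_num y).symm
    rw [this]
    nth_rewrite 3 [h0]
    ring
  have hy'0 : y' ≠ 0 := by
    intro h0
    rw [h0] at hy'
    push_cast at hy'
    have := hy'.symm
    rcases mul_eq_zero.1 this with h1 | h1
    · exact hm0 (pow_eq_zero_iff (two_ne_zero) |>.1 h1)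
    · exact hy h1
  have hv' : y' ^ 2 = g.v x' z' := by
    have : ((y' ^ 2 : ℤ) : ℚ) = ((g.v x' z' : ℤ) : ℚ) := by
      rw [← q_v, hx', hz']
      push_cast
      rw [hy']
      have : g.q.v (m * x) (m * z) = m ^ 4 * g.q.v x z := by
        simp only [Qf.v]; ring
      rw [this, ← hv]
      ring
    exact_mod_cast this
  refine ⟨((g.A, g.B, g.C, g.D, g.E), (x', z', y')), ⟨hi, hy'0, hv', hnr⟩, ?_⟩
  have hgood : Good a b ((g.A, g.B, g.C, g.D, g.E), (x', z', y')) := ⟨hi, hy'0, hv', hnr⟩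
  obtain ⟨P', hP'⟩ := exists_isPt H hd hgood
  refine ⟨P', hP', ?_⟩
  have h1 := rep_congr H (hdq hd) (inv_q hi) hP'.1 hP
  rw [← cl_eq_iff] at h1
  exact h1

/-- every nonzero class comes from a good entry -/
theorem exists_ent (H : H0) {a b : ℤ} (hd : 4 * a ^ 3 + 27 * b ^ 2 ≠ 0) (c : Cq a b) (hc : c ≠ 0) :
    ∃ e : Ent, Good a b e ∧ ∃ P', IsPt a b e P' ∧ cl P' = c := by
  obtain ⟨P, rfl⟩ : ∃ P : Pt (a : ℚ) (b : ℚ), cl P = c := QuotientAddGroup.mk_surjective c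
  rcases P with _ | ⟨X, Y, hn⟩
  · exact absurd rfl hc
  · obtain ⟨g, hi, hr⟩ := H.sa a b X Y hn
    exact good_of_sol H hd hi hr hc

end Pool.Agent.H447.QR.AsmB
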