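import Pool.Agent.H447.QR.AsmB

set_option autoImplicit false

open WeierstrassCurve

namespace Pool.Agent.H447.QR.AsmC

open Pool.Agent.H447.QR Pool.Agent.H447.QR.AsmA Pool.Agent.H447.QR.AsmB

open Classical in
/-- a chosen point of the entry -/
noncomputable def ptOf (a b : ℤ) (e : Ent) : Pt (a : ℚ) (b : ℚ) :=
  if h : ∃ P, IsPt a b e P then h.choose else 0

/-- its class -/
noncomputable def clOf (a b : ℤ) (e : Ent) : Cq a b := cl (ptOf a b e)

theorem ptOf_spec (H : H0) {a b : ℤ} (hd : 4 * a ^ 3 + 27 * b ^ 2 ≠ 0) {e : Ent}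
    (h : Good a b e) : IsPt a b e (ptOf a b e) := by
  unfold ptOf
  have hex := exists_isPt H hd h
  rw [dif_pos hex]
  exact hex.choose_spec

theorem clOf_eq (H : H0) {a b : ℤ} (hd : 4 * a ^ 3 + 27 * b ^ 2 ≠ 0) {e : Ent}
    (h : Good a b e) {P : Pt (a : ℚ) (b : ℚ)} (hP : IsPt a b e P) : clOf a b e = cl P := by
  unfold clOf
  rw [cl_eq_iff]
  exact rep_congr H (hdq hd) (inv_q h.1) (ptOf_spec H hd h).1 hP.1

theorem clOf_ne (H : H0) {a b : ℤ} (hd : 4 * a ^ 3 + 27 * b ^ 2 ≠ 0) {e : Ent}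
    (h : Good a b e) : clOf a b e ≠ 0 := not_double H hd h (ptOf_spec H hd h)

theorem neq_iff (H : H0) {a b : ℤ} (hd : 4 * a ^ 3 + 27 * b ^ 2 ≠ 0) {e f : Ent}
    (he : Good a b e) (hf : Good a b f) : NEq e f ↔ clOf a b e ≠ clOf a b f := by
  unfold NEq
  rw [not_iff_not]
  constructor
  · intro h
    exact eqvB_cl H hd he.1 hf (ptOf_spec H hd he).1 (ptOf_spec H hd hf) h
  · intro h
    exact cl_eqvB H hd he.1 hf (ptOf_spec H hd he).1 (ptOf_spec H hd hf) h

theorem nodup (H : H0) {a b : ℤ} (hd : 4 * a ^ 3 + 27 * b ^ 2 ≠ 0) {L : List Ent}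
    (h : VL a b L) : ((0 : Cq a b) :: L.map (clOf a b)).Nodup := by
  rw [List.nodup_cons]
  constructor
  · rw [List.mem_map]
    rintro ⟨e, he, h0⟩
    exact clOf_ne H hd (h.1 e he) h0
  · rw [List.Nodup, List.pairwise_map]
    have h2 := h.2
    apply List.Pairwise.imp_of_mem _ h2
    intro e f he hf hne
    exact (neq_iff H hd (h.1 e he) (h.1 f hf)).1 hne

theorem fin_Cq (H : H0) {a b : ℤ} (hd : 4 * a ^ 3 + 27 * b ^ 2 ≠ 0) : Finite (Cq a b) := by
  have h := (H.mw a b hd).2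
  apply Nat.finite_of_card_ne_zero
  have h2 : Nat.card (Cq a b) = cls a b := rfl
  rw [h2, h]
  positivity

theorem len_le (H : H0) {a b : ℤ} (hd : 4 * a ^ 3 + 27 * b ^ 2 ≠ 0) {L : List Ent}
    (h : VL a b L) : L.length + 1 ≤ cls a b := by
  haveI := fin_Cq H hd
  haveI := Fintype.ofFinite (Cq a b)
  have h1 := List.Nodup.length_le_card (nodup H hd h)
  have h2 : Nat.card (Cq a b) = cls a b := rfl
  rw [← h2, Nat.card_eq_fintype_card]
  simpa using h1

theorem complete (H : H0) {a b : ℤ} (hd : 4 * a ^ 3 + 27 * b ^ 2 ≠ 0) {L : List Ent}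
    (h : VL a b L) : L.length + 1 = cls a b ↔ ∀ c : Cq a b, c ≠ 0 → ∃ e ∈ L, clOf a b e = c := by
  classical
  haveI := fin_Cq H hd
  haveI := Fintype.ofFinite (Cq a b)
  have h2 : cls a b = Fintype.card (Cq a b) := by
    rw [← Nat.card_eq_fintype_card]; rfl
  have h3 : ((0 : Cq a b) :: L.map (clOf a b)).toFinset.card = L.length + 1 := by
    rw [List.toFinset_card_of_nodup (nodup H hd h)]
    simp
  rw [h2, ← h3, Finset.card_eq_iff_eq_univ, Finset.eq_univ_iff_forall]
  constructor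
  · intro h4 c hc
    have h5 := h4 c
    rw [List.mem_toFinset, List.mem_cons, List.mem_map] at h5
    rcases h5 with h5 | h5
    · exact absurd h5 hc
    · exact h5
  · intro h4 c
    rw [List.mem_toFinset, List.mem_cons, List.mem_map]
    by_cases hc : c = 0
    · exact Or.inl hc
    · exact Or.inr (h4 c hc)

theorem extend (H : H0) {a b : ℤ} (hd : 4 * a ^ 3 + 27 * b ^ 2 ≠ 0) {L : List Ent}
    (h : VL a b L) (hne : L.length + 1 ≠ cls a b) : ∃ e, VL a b (e :: L) := by
  rw [Ne, complete H hd h] at hne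
  push Not at hne
  obtain ⟨c, hc, hne⟩ := hne
  obtain ⟨e, he, P, hP, hPc⟩ := exists_ent H hd c hc
  refine ⟨e, ?_, ?_⟩
  · intro f hf
    rcases List.mem_cons.1 hf with h1 | h1
    · rw [h1]; exact he
    · exact h.1 f h1
  · rw [List.pairwise_cons]
    refine ⟨?_, h.2⟩
    intro f hf
    rw [neq_iff H hd he (h.1 f hf), clOf_eq H hd he hP, hPc]
    exact fun h1 => hne f hf h1.symm

theorem exists_full (H : H0) {a b : ℤ} (hd : 4 * a ^ 3 + 27 * b ^ 2 ≠ 0) :
    ∃ L, VL a b L ∧ L.length + 1 = cls a b := by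
  have key : ∀ n : ℕ, n + 1 ≤ cls a b → ∃ L, VL a b L ∧ L.length = n := by
    intro n
    induction n with
    | zero => intro _; exact ⟨[], ⟨by simp, List.Pairwise.nil⟩, rfl⟩
    | succ n ih =>
      intro hn
      obtain ⟨L, hL, hl⟩ := ih (by omega)
      obtain ⟨e, he⟩ := extend H hd hL (by omega)
      exact ⟨e :: L, he, by simp [hl]⟩
  have h1 : 1 ≤ cls a b := by
    have := len_le H hd (L := []) ⟨by simp, List.Pairwise.nil⟩
    simpa using this
  obtain ⟨L, hL, hl⟩ := key (cls a b - 1) (by omega)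
  exact ⟨L, hL, by omega⟩

theorem n_ne {a b : ℤ} (hd : 4 * a ^ 3 + 27 * b ^ 2 ≠ 0) {g : Qf ℤ} (hi : Inv a b g) :
    g.n ≠ 0 := by
  intro hn
  unfold Qf.n at hn
  have h1 : g.A = 0 := by omega
  have h2 : g.B = 0 := by omega
  have h3 : g.C = 0 := by omega
  have h4 : g.D = 0 := by omega
  have h5 : g.E = 0 := by omega
  have e1 := hi.1
  have e2 := hi.2
  simp only [Qf.I, Qf.J, h1, h2, h3, h4, h5] at e1 e2
  have ha : a = 0 := by linarith
  have hb : b = 0 := by linarith
  apply hd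
  rw [ha, hb]; norm_num

theorem sol_iff (H : H0) {a b : ℤ} (hd : 4 * a ^ 3 + 27 * b ^ 2 ≠ 0) {L : List Ent}
    (h : VL a b L) (hl : L.length + 1 = cls a b) {g : Qf ℤ} (hi : Inv a b g) :
    Sol g.q ↔ RootB g ∨ ∃ e ∈ L, EqvB g (eR e) (eS e) := by
  constructor
  · rintro ⟨x, z, y, hxz, hv⟩
    by_cases hy : y = 0
    · left
      rw [← H.lr g (n_ne hd hi)]
      exact ⟨x, z, hxz, by rw [← hv, hy]; norm_num⟩
    · obtain ⟨X, Y, hn, h4, h6⟩ := H.mkr a b g.q x z y (hdq hd) (inv_q hi) hy hv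
      set P : Pt (a : ℚ) (b : ℚ) := Affine.Point.some X Y hn with hP
      have hrep : Rep (a : ℚ) (b : ℚ) g.q P := ⟨x, z, y, X, Y, hn, hy, hv, h4, h6, rfl⟩
      by_cases hc : cl P = 0
      · left
        rw [← H.lr g (n_ne hd hi), root_iff H (hdq hd) (inv_q hi) hrep, ← cl_eq_zero_iff]
        exact hc
      · right
        obtain ⟨e, he, hec⟩ := (complete H hd h).1 hl _ hc
        exact ⟨e, he, cl_eqvB H hd hi (h.1 e he) hrep (ptOf_spec H hd (h.1 e he)) hec.symm⟩
  · rintro (h1 | ⟨e, he, h1⟩)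
    · rw [← H.lr g (n_ne hd hi)] at h1
      obtain ⟨x, z, hxz, hv⟩ := h1
      exact ⟨x, z, 0, hxz, by rw [hv]; norm_num⟩
    · obtain ⟨x, z, -, -, hne, ⟨y, hy⟩, -⟩ := h1
      refine ⟨x, z, y, ?_, ?_⟩
      · by_contra hc
        push Not at hc
        apply hne
        have h2 : x = 0 := by exact_mod_cast hc.1
        have h3 : z = 0 := by exact_mod_cast hc.2
        rw [h2, h3]
        simp [Qf.v]
      · rw [q_v, ← hy]; push_cast; ring

theorem t_CA (H : H0) : S_CA := by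
  intro a b hd
  exact ⟨fun L h => len_le H hd h, exists_full H hd, fun L h hl g hi => sol_iff H hd h hl hi⟩

theorem t_CB (H : H0) : S_CB := by
  obtain ⟨K, hK⟩ := H.f3
  refine ⟨K, fun a b hd L h hbox => ?_⟩
  rw [complete H hd h]
  intro c hc
  obtain ⟨P, rfl⟩ : ∃ P : Pt (a : ℚ) (b : ℚ), cl P = c := QuotientAddGroup.mk_surjective c
  rcases hP : P with _ | ⟨X, Y, hn⟩
  · rw [hP] at hc
    exact absurd rfl hc
  · rw [← hP]
    obtain ⟨g, hi, hr⟩ := H.sa a b X Y hn
    rw [← hP] at hr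
    have hdisc : 4 * g.I ^ 3 ≠ g.J ^ 2 := by
      intro h0
      apply hd
      rw [hi.1, hi.2] at h0
      have : -110592 * (4 * a ^ 3 + 27 * b ^ 2) = 0 := by linear_combination h0
      simpa using this
    obtain ⟨p, q, r, s, hdet, hor⟩ := hK g hdisc
    set g' := g.comp p q r s with hg'
    have hdet2 : (p * s - q * r) ^ 2 = 1 := by rcases hdet with h1 | h1 <;> rw [h1] <;> norm_num
    have hi' : Inv a b g' := by
      have hIq := H.cov1.2.1 g.q p q r s
      have hJq := H.cov1.2.2.1 g.q p q r s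
      constructor
      · have e : g'.I = (p * s - q * r) ^ 4 * g.I := by
          rw [hg']; simp only [Qf.I, Qf.comp]; ring
        rw [e, ← hi.1]
        linear_combination (g.I * ((p * s - q * r) ^ 2 + 1)) * hdet2
      · have e : g'.J = (p * s - q * r) ^ 6 * g.J := by
          rw [hg']; simp only [Qf.J, Qf.comp]; ring
        rw [e, ← hi.2]
        linear_combination (g.J * ((p * s - q * r) ^ 4 + (p * s - q * r) ^ 2 + 1)) * hdet2
    have hr' : Rep (a : ℚ) (b : ℚ) g'.q P := by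
      rw [hg', q_comp]
      apply H.tr
      · rcases hdet with h1 | h1
        · left; rw [one_mul]; exact_mod_cast h1
        · right; rw [one_mul]; exact_mod_cast h1
      · exact hr
    have hnr : ¬ RootB g' := by
      intro h0
      rw [← H.lr _ (n_ne hd hi'), root_iff H (hdq hd) (inv_q hi') hr', ← cl_eq_zero_iff] at h0
      exact hc h0
    have hbx : InBox (bdK K a b) g' := by
      rcases hor with h1 | h1
      · exfalso
        apply hnr
        rw [← H.lr _ (n_ne hd hi')]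
        refine ⟨1, 0, Or.inl one_ne_zero, ?_⟩
        have h2 : g'.q.A = 0 := by simp only [Qf.q, h1]; norm_num
        simp only [Qf.v, h2]
        ring
      · have h2 : g.I.natAbs + g.J.natAbs + 2 = 48 * a.natAbs + 1728 * b.natAbs + 2 := by
          rw [hi.1, hi.2, Int.natAbs_mul, Int.natAbs_mul]
          norm_num
        rw [h2] at h1
        exact h1
    have hsol : Sol g'.q := by
      obtain ⟨x, z, y, X', Y', hn', hy, hv, -⟩ := hr'
      refine ⟨x, z, y, ?_, hv⟩
      by_contra hcc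
      push Not at hcc
      rw [hcc.1, hcc.2] at hv
      apply hy
      have : y ^ 2 = 0 := by rw [hv]; simp [Qf.v]
      exact pow_eq_zero_iff (two_ne_zero) |>.1 this
    obtain ⟨e, he, heq⟩ := hbox g' hbx hi' hnr hsol
    refine ⟨e, he, ?_⟩
    exact (eqvB_cl H hd hi' (h.1 e he) hr' (ptOf_spec H hd (h.1 e he)) heq).symm

end Pool.Agent.H447.QR.AsmC
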