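import Pool.Agent.H447.QR.AsmC
import Pool.Graph.R_seed8.Helper566.FD.J7

set_option autoImplicit false

open WeierstrassCurve

namespace Pool.Agent.H447.QR.AsmD

open Pool.Agent.H447.QR Pool.Agent.H447.QR.AsmA Pool.Agent.H447.QR.AsmB Pool.Agent.H447.QR.AsmC
open Pool.Agent.Helper566.FD.J7

/-- all hypotheses -/
structure H1 : Prop extends H0 where
  ci : S_CI
  fw : S_FW
  rv : S_RV
  iz : S_IZ
  ef : S_EF

theorem rk_of {a b : ℤ} (hd : 4 * a ^ 3 + 27 * b ^ 2 ≠ 0) :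
    rk (a, b) = Module.finrank ℤ (Pt (a : ℚ) (b : ℚ)) := by
  unfold rk
  rw [if_pos hd]

theorem cls_eq (H : H0) {a b : ℤ} (hd : 4 * a ^ 3 + 27 * b ^ 2 ≠ 0) :
    cls a b = 2 ^ rk (a, b) * (1 + nrt a b) := by
  rw [rk_of hd]
  exact (H.mw a b hd).2

theorem rk_zero_iff (H : H0) {a b : ℤ} (hd : 4 * a ^ 3 + 27 * b ^ 2 ≠ 0) :
    rk (a, b) = 0 ↔ Finite (Pt (a : ℚ) (b : ℚ)) := by
  rw [rk_of hd]
  have hfin := (H.mw a b hd).1
  constructor
  · intro h
    have h1 : Module.IsTorsion ℤ (Pt (a : ℚ) (b : ℚ)) := by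
      exact Module.finrank_eq_zero_iff_isTorsion.1 h
    exact Module.finite_of_fg_torsion _ h1
  · intro h
    apply Module.finrank_eq_zero_iff_isTorsion.2
    intro P
    have hP := isOfFinAddOrder_of_finite P
    have hpos := hP.addOrderOf_pos
    refine ⟨⟨(addOrderOf P : ℤ), ?_⟩, ?_⟩
    · rw [mem_nonZeroDivisors_iff_ne_zero]
      exact_mod_cast hpos.ne'
    · change (addOrderOf P : ℤ) • P = 0
      rw [natCast_zsmul]
      exact addOrderOf_nsmul_eq_zero P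

theorem disc_of {a b : ℤ} {g : Qf ℤ} (hi : Inv a b g) (hd : 4 * a ^ 3 + 27 * b ^ 2 ≠ 0) :
    4 * g.I ^ 3 ≠ g.J ^ 2 := by
  intro h0
  apply hd
  rw [hi.1, hi.2] at h0
  have : -110592 * (4 * a ^ 3 + 27 * b ^ 2) = 0 := by linear_combination h0
  simpa using this

theorem fwd (H : H1) (P : T5 → Prop) (F : ℤ × ℤ → Prop) (hP : ComputablePred P)
    (hF : ComputablePred F) (h0 : ∀ c, ¬ F c → rk c = 0)
    (hF1 : ∀ c, F c → 4 * c.1 ^ 3 + 27 * c.2 ^ 2 ≠ 0)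
    (hPF : ∀ (c : ℤ × ℤ) (t : T5), F c → Inv c.1 c.2 (ofT t) → (P t ↔ Sol (ofT t).q)) :
    Computable rk := by
  obtain ⟨K, hK⟩ := t_CB H.toH0
  refine H.fw K P F hP hF h0 ?_ ?_
  · intro c hc
    obtain ⟨L, hL, hl⟩ := exists_full H.toH0 (hF1 c hc)
    refine ⟨L, hL, ?_⟩
    intro t _ hi hr hPt
    have h1 := (hPF c t hc hi).1 hPt
    rw [sol_iff H.toH0 (hF1 c hc) hL hl hi] at h1
    exact h1.resolve_left hr
  · intro c L hc hL hbox
    have h1 : L.length + 1 = cls c.1 c.2 := by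
      apply hK c.1 c.2 (hF1 c hc) L hL
      intro g hbx hi hr hs
      have h2 := hbox (g.A, g.B, g.C, g.D, g.E) hbx hi hr
      apply h2
      exact (hPF c (g.A, g.B, g.C, g.D, g.E) hc hi).2 hs
    rw [h1, cls_eq H.toH0 (hF1 c hc)]

theorem prim_disc : PrimrecPred (fun c : ℤ × ℤ => 4 * c.1 ^ 3 + 27 * c.2 ^ 2 ≠ 0) := by
  have h1 : Primrec (fun c : ℤ × ℤ => 4 * (c.1 * (c.1 * c.1)) + 27 * (c.2 * c.2)) :=
    prim_int_add.comp
      (prim_int_mul.comp (Primrec.const 4)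
        (prim_int_mul.comp Primrec.fst (prim_int_mul.comp Primrec.fst Primrec.fst)))
      (prim_int_mul.comp (Primrec.const 27) (prim_int_mul.comp Primrec.snd Primrec.snd))
  have h2 : PrimrecPred (fun c : ℤ × ℤ =>
      ¬ (4 * (c.1 * (c.1 * c.1)) + 27 * (c.2 * c.2)) = 0) :=
    (Primrec.eq.comp h1 (Primrec.const 0)).not
  have h3 : (fun c : ℤ × ℤ => 4 * c.1 ^ 3 + 27 * c.2 ^ 2 ≠ 0) =
      (fun c : ℤ × ℤ => ¬ (4 * (c.1 * (c.1 * c.1)) + 27 * (c.2 * c.2)) = 0) := by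
    funext c
    have : 4 * c.1 ^ 3 + 27 * c.2 ^ 2 = 4 * (c.1 * (c.1 * c.1)) + 27 * (c.2 * c.2) := by ring
    rw [this]
  rw [h3]
  exact h2

theorem fwd_sol (H : H1) (h : ComputablePred QSol) : Computable rk := by
  refine fwd H QSol (fun c => 4 * c.1 ^ 3 + 27 * c.2 ^ 2 ≠ 0) h ?_ ?_ (fun c hc => hc) ?_
  · exact prim_disc.computablePred
  · intro c hc
    unfold rk
    rw [if_neg hc]
  · intro c t hc hi
    unfold QSol
    exact ⟨fun h1 => h1.2, fun h1 => ⟨disc_of hi hc, h1⟩⟩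

theorem ef_disc (a b : ℤ) : 4 * (ofT (0, 1, 0, a, b)).I ^ 3 ≠ (ofT (0, 1, 0, a, b)).J ^ 2 ↔
    4 * a ^ 3 + 27 * b ^ 2 ≠ 0 := by
  rw [not_iff_not]
  simp only [ofT, Qf.I, Qf.J]
  constructor
  · intro h
    have h1 : -27 * (4 * a ^ 3 + 27 * b ^ 2) = 0 := by linear_combination h
    simpa using h1
  · intro h
    linear_combination -27 * h

theorem fwd_inf (H : H1) (h : ComputablePred QInf) : Computable rk := by
  have hd : ∀ c : ℤ × ℤ, QInf (0, 1, 0, c.1, c.2) → 4 * c.1 ^ 3 + 27 * c.2 ^ 2 ≠ 0 :=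
    fun c hc => (ef_disc c.1 c.2).1 hc.1
  refine fwd H QInf (fun c => QInf (0, 1, 0, c.1, c.2)) h ?_ ?_ hd ?_
  · have hc : Computable (fun c : ℤ × ℤ => ((0, 1, 0, c.1, c.2) : T5)) :=
      (Computable.const 0).pair ((Computable.const 1).pair ((Computable.const 0).pair
        (Computable.fst.pair Computable.snd)))
    exact ComputablePred.computable_iff.2 (by
      obtain ⟨f, hf, he⟩ := ComputablePred.computable_iff.1 h
      exact ⟨fun c => f (0, 1, 0, c.1, c.2), hf.comp hc, by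
        funext c
        exact congrFun he (0, 1, 0, c.1, c.2)⟩)
  · intro c hc
    by_cases h1 : 4 * c.1 ^ 3 + 27 * c.2 ^ 2 ≠ 0
    · rw [H.ef c.1 c.2 h1, not_infinite_iff_finite] at hc
      exact (rk_zero_iff H.toH0 h1).2 hc
    · unfold rk
      rw [if_neg h1]
  · intro c t hc hi
    have h1 := hd c hc
    have h2 : Infinite (Pt (c.1 : ℚ) (c.2 : ℚ)) := (H.ef c.1 c.2 h1).1 hc
    have h3 := H.ci c.1 c.2 (ofT t).q (hdq h1) (inv_q hi)
    unfold QInf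
    rw [h3]
    exact ⟨fun h4 => h4.2.2, fun h4 => ⟨disc_of hi h1, h2, h4⟩⟩

/-! ### converse -/

theorem v144 (t : T5) (x z : ℚ) : (ofT (t144 t)).q.v x z = 144 * (ofT t).q.v x z := by
  simp only [ofT, t144, Qf.q, Qf.v]
  push_cast
  ring

theorem sol144 (t : T5) : Sol (ofT (t144 t)).q ↔ Sol (ofT t).q := by
  constructor
  · rintro ⟨x, z, y, h, hv⟩
    refine ⟨x, z, y / 12, h, ?_⟩
    rw [v144] at hv
    linear_combination hv / 144
  · rintro ⟨x, z, y, h, hv⟩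
    refine ⟨x, z, 12 * y, h, ?_⟩
    rw [v144]
    linear_combination 144 * hv

theorem inf144 (t : T5) : InfC (ofT (t144 t)).q ↔ InfC (ofT t).q := by
  unfold InfC
  have h : {p : ℚ × ℚ | p.2 ^ 2 = (ofT (t144 t)).q.v p.1 1} =
      (fun p : ℚ × ℚ => (p.1, 12 * p.2)) '' {p : ℚ × ℚ | p.2 ^ 2 = (ofT t).q.v p.1 1} := by
    ext ⟨x, y⟩
    simp only [Set.mem_ofPred_eq, Set.mem_image, Prod.mk.injEq, Prod.exists]
    constructor
    · intro h1
      rw [v144] at h1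
      exact ⟨x, y / 12, by linear_combination h1 / 144, rfl, by ring⟩
    · rintro ⟨x', y', h1, rfl, rfl⟩
      rw [v144]
      linear_combination 144 * h1
  rw [h, Set.infinite_image_iff]
  intro p _ p' _ hp
  simp only [Prod.mk.injEq] at hp
  ext
  · exact hp.1
  · linarith [hp.2]

theorem inv144 (t : T5) : Inv (ab t).1 (ab t).2 (ofT (t144 t)) := by
  constructor
  · simp only [ofT, t144, ab, Qf.I]
    ring
  · simp only [ofT, t144, ab, Qf.J]
    ring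

theorem hd144 {t : T5} (h : 4 * (ofT t).I ^ 3 ≠ (ofT t).J ^ 2) :
    4 * (ab t).1 ^ 3 + 27 * (ab t).2 ^ 2 ≠ 0 := by
  intro h0
  apply h
  unfold ab at h0
  have : -80621568 * (4 * (ofT t).I ^ 3 - (ofT t).J ^ 2) = 0 := by linear_combination h0
  have h2 : 4 * (ofT t).I ^ 3 - (ofT t).J ^ 2 = 0 := by simpa using this
  linarith

theorem rev (H : H1) (hrk : Computable rk) (w : Bool) (P : T5 → Prop)
    (hP : ∀ t, P t ↔ 4 * (ofT t).I ^ 3 ≠ (ofT t).J ^ 2 ∧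
      ((w = false ∨ rk (ab t) ≠ 0) ∧ Sol (ofT t).q)) : ComputablePred P := by
  refine H.rv hrk w P (fun t ht => ((hP t).1 ht).1) ?_ ?_
  · intro t ht
    obtain ⟨L, hL, hl⟩ := exists_full H.toH0 (hd144 ht)
    exact ⟨L, hL, by rw [hl, cls_eq H.toH0 (hd144 ht)]⟩
  · intro t L ht hL hl
    have hl' : L.length + 1 = cls (ab t).1 (ab t).2 := by
      rw [hl, cls_eq H.toH0 (hd144 ht)]
    rw [hP t, ← sol144 t, sol_iff H.toH0 (hd144 ht) hL hl' (inv144 t)]
    exact ⟨fun h => h.2, fun h => ⟨ht, h⟩⟩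

theorem rev_sol (H : H1) (hrk : Computable rk) : ComputablePred QSol := by
  apply rev H hrk false QSol
  intro t
  unfold QSol
  simp

theorem rev_inf (H : H1) (hrk : Computable rk) : ComputablePred QInf := by
  apply rev H hrk true QInf
  intro t
  unfold QInf
  constructor
  · rintro ⟨h1, h2⟩
    refine ⟨h1, ?_⟩
    rw [← inf144 t, H.ci _ _ _ (hdq (hd144 h1)) (inv_q (inv144 t)), sol144] at h2
    refine ⟨Or.inr ?_, h2.2⟩
    intro h3
    have h4 := (rk_zero_iff H.toH0 (hd144 h1)).1 h3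
    exact not_finite_iff_infinite.2 h2.1 h4
  · rintro ⟨h1, h2, h3⟩
    refine ⟨h1, ?_⟩
    rw [← inf144 t, H.ci _ _ _ (hdq (hd144 h1)) (inv_q (inv144 t)), sol144]
    refine ⟨?_, h3⟩
    rcases h2 with h2 | h2
    · simp at h2
    · rw [← not_finite_iff_infinite]
      intro h4
      exact h2 ((rk_zero_iff H.toH0 (hd144 h1)).2 h4)

theorem main (H : H1) : (ComputablePred QInf ↔ Computable rk) ∧
    (ComputablePred QSol ↔ Computable rk) ∧ (ComputablePred InfZ → Computable rk) :=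
  ⟨⟨fwd_inf H, rev_inf H⟩, ⟨fwd_sol H, rev_sol H⟩, fun h => fwd_inf H (H.iz h)⟩

end Pool.Agent.H447.QR.AsmD
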