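import Pool.Agent.H447.QR.Stm

/-!
# Project QR, part 2 (helper447), MP_d6ddbd_nt and MP_8e0b0b_nt: generators

Computing ranks is equivalent to computing generators of the groups `E (ℚ)`; versions relative to a
family `F` of curves (for MP_8e0b0b: `y² = x³ - 432 A²`, which is isomorphic to `X³ + Y³ = A`).
Integral triples `(r, n, t)` stand for the points `(r / t², n / t³)` (Jacobian coordinates), and for `0`
if `t = 0`.
-/

set_option autoImplicit false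

open WeierstrassCurve

namespace Pool.Agent.H447.QR

/-- Jacobian coordinates -/
abbrev Tr : Type := ℤ × ℤ × ℤ

/-- the triple is on the curve (and not `0`) -/
def OnC (a b : ℤ) (p : Tr) : Prop :=
  p.2.2 ≠ 0 ∧ p.2.1 ^ 2 = p.1 ^ 3 + a * p.1 * p.2.2 ^ 4 + b * p.2.2 ^ 6

open Classical in
/-- the point with Jacobian coordinates `p`; `0` if `p.2.2 = 0` or `p` is not on the curve -/
noncomputable def pt (a b : ℤ) (p : Tr) : Pt (a : ℚ) (b : ℚ) :=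
  if h : p.2.2 ≠ 0 ∧ (crv (a : ℚ) (b : ℚ)).toAffine.Nonsingular ((p.1 : ℚ) / (p.2.2 : ℚ) ^ 2)
      ((p.2.1 : ℚ) / (p.2.2 : ℚ) ^ 3) then Affine.Point.some _ _ h.2 else 0

/-- the triples of `l` are on the curve and generate the group -/
def IsGen (a b : ℤ) (l : List Tr) : Prop :=
  (∀ p ∈ l, OnC a b p) ∧
    AddSubgroup.closure {P : Pt (a : ℚ) (b : ℚ) | ∃ p ∈ l, P = pt a b p} = ⊤

/-- height of a point -/
def Ht {a b : ℚ} (P : Pt a b) : ℕ :=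
  match P with
  | .zero => 1
  | .some X _ _ => max X.num.natAbs X.den

/-- constant of the duplication inequality -/
def C1 (a b : ℤ) : ℕ := 1000 * (a.natAbs + b.natAbs + 1) ^ 5

/-- constant of the addition inequality -/
def C2 (a b : ℤ) : ℕ := 20 * (a.natAbs + b.natAbs + 1) ^ 2

/-- HTD. `Q = 0`: trivial. `Q ≠ 0 = 2 Q`: `Q = (x, 0)`, `x` is an integer with `|x| ≤ |a| + |b| + 1`.
Otherwise let `X = r / s` in lowest terms, `F = r⁴ - 2 a r² s² - 8 b r s³ + a² s⁴`,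
`G = 4 s (r³ + a r s² + b s³)`; the first coordinate of `2 Q` is `F / G`. With `Δ = 4 a³ + 27 b²`:
`(12 r² s + 16 a s³) F - (3 r³ - 5 a r s² - 27 b s³) G = 4 Δ s⁷`,
`(4 Δ r³ - 4 a² b r² s + 4 a (3 a³ + 22 b²) r s² + 12 b (a³ + 8 b²) s³) F
 + (a² b r³ + a (5 a³ + 32 b²) r² s + 2 b (13 a³ + 96 b²) r s² - 3 a² (a³ + 8 b²) s³) G = 4 Δ r⁷`
(Silverman, VIII.4; check with `ring`, adjust signs if necessary). So `gcd (F, G) ∣ 4 Δ` and
`|4 Δ| H⁷ ≤ 619 m⁵ H³ max (|F|, |G|)`, `m = |a| + |b| + 1`, hence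
`H (2 Q) = max (|F|, |G|) / gcd ≥ H⁴ / (619 m⁵)`. -/
def S_HTD : Prop := ∀ (a b : ℤ), 4 * a ^ 3 + 27 * b ^ 2 ≠ 0 → ∀ Q : Pt (a : ℚ) (b : ℚ),
  Ht Q ^ 4 ≤ C1 a b * Ht (Q + Q)

/-- HTA. `P = 0`, `Q = 0`, `P = -Q`: clear. `P = Q`: `F / G` as in HTD, `|F|, |G| ≤ 20 m² H⁴`. Otherwise
`P = (r₁ / t₁², n₁ / t₁³)`, `Q = (r₂ / t₂², n₂ / t₂³)` (lowest terms) and the first coordinate of `P + Q`
is `[(r₁ r₂ + a t₁² t₂²)(r₁ t₂² + r₂ t₁²) + 2 b t₁⁴ t₂⁴ - 2 n₁ n₂ t₁ t₂] / (r₁ t₂² - r₂ t₁²)²`;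
`|rᵢ|, tᵢ² ≤ Hᵢ`, `(nᵢ tᵢ)² ≤ m Hᵢ⁴`; a fraction `u / v` of integers has height at most
`max (|u|, |v|)`. -/
def S_HTA : Prop := ∀ (a b : ℤ), 4 * a ^ 3 + 27 * b ^ 2 ≠ 0 → ∀ P Q : Pt (a : ℚ) (b : ℚ),
  Ht (P + Q) ≤ C2 a b * (Ht P ^ 2 * Ht Q ^ 2)

/-- GB (from HTD, HTA). Strong induction on `Ht P`, `B = C1 C2 M²`. If `Ht P ≤ B` the point is in the
set. Otherwise take `R` with `Ht R ≤ M` in the class of `P`, `P - R = Q + Q`;
`Ht (Q)⁴ ≤ C1 Ht (P - R) ≤ C1 C2 Ht (P)² M² = B Ht (P)² < Ht (P)³`, so `Ht Q < Ht P`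
(`Ht (-R) = Ht R`, all heights are at least `1`). -/
def S_GB : Prop := ∀ (a b : ℤ), 4 * a ^ 3 + 27 * b ^ 2 ≠ 0 → ∀ M : ℕ,
  (∀ P : Pt (a : ℚ) (b : ℚ), ∃ R Q : Pt (a : ℚ) (b : ℚ), P = R + (Q + Q) ∧ Ht R ≤ M) →
    AddSubgroup.closure {P : Pt (a : ℚ) (b : ℚ) | Ht P ≤ C1 a b * C2 a b * M ^ 2} = ⊤

/-- EN. Enumeration of the points of bounded height: all triples `(r, n, t)` with `|r| ≤ B`,
`0 < t ≤ B` and `|n| ≤ (|a| + |b| + 1) (B + 1)^6`, which are on the curve. (Every point of the curve has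
first coordinate `r / t²` and second coordinate `n / t³`: the task SA, file of helper278, has this.) -/
def S_EN : Prop := ∃ en : (ℤ × ℤ) × ℕ → List Tr, Primrec en ∧ ∀ a b : ℤ,
  4 * a ^ 3 + 27 * b ^ 2 ≠ 0 → ∀ B : ℕ, (∀ p ∈ en ((a, b), B), OnC a b p) ∧
    ∀ P : Pt (a : ℚ) (b : ℚ), P ≠ 0 → Ht P ≤ B → ∃ p ∈ en ((a, b), B), P = pt a b p

/-- bound for the heights of the points of the entries -/
def mxL (L : List Ent) : ℕ := (L.map (fun e => (eR e).natAbs + (eS e).natAbs)).sum + 1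

/-- RG (from PV; Mathlib only). Search the list `L`, output `en (c, C1 C2 (mxL L)²)`; `f c = []` if
`¬ F c`. -/
def S_RG : Prop := ∀ (en : (ℤ × ℤ) × ℕ → List Tr), Primrec en → ∀ (ρ : ℤ × ℤ → ℕ)
  (F : ℤ × ℤ → Prop), Computable ρ → ComputablePred F →
  (∀ c, F c → ∃ L, VL c.1 c.2 L ∧ L.length + 1 = 2 ^ ρ c * (1 + nrt c.1 c.2)) →
  ∃ f : ℤ × ℤ → List Tr, Computable f ∧ ∀ c, F c → ∃ L, VL c.1 c.2 L ∧
    L.length + 1 = 2 ^ ρ c * (1 + nrt c.1 c.2) ∧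
    f c = en (c, C1 c.1 c.2 * C2 c.1 c.2 * mxL L ^ 2)

/-- addition in Jacobian coordinates -/
def addT (a : ℤ) (p q : Tr) : Tr :=
  if p.2.2 = 0 then q else if q.2.2 = 0 then p else
    let U1 := p.1 * q.2.2 ^ 2
    let U2 := q.1 * p.2.2 ^ 2
    let S1 := p.2.1 * q.2.2 ^ 3
    let S2 := q.2.1 * p.2.2 ^ 3
    if U1 = U2 then
      (if S1 = S2 ∧ p.2.1 ≠ 0 then
        let M := 3 * p.1 ^ 2 + a * p.2.2 ^ 4
        let S := 4 * p.1 * p.2.1 ^ 2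
        (M ^ 2 - 2 * S, M * (S - (M ^ 2 - 2 * S)) - 8 * p.2.1 ^ 4, 2 * p.2.1 * p.2.2)
      else (1, 1, 0))
    else
      let H := U2 - U1
      let R := S2 - S1
      let X3 := R ^ 2 - H ^ 3 - 2 * U1 * H ^ 2
      (X3, R * (U1 * H ^ 2 - X3) - S1 * H ^ 3, H * p.2.2 * q.2.2)

/-- ADD. Correctness of `addT` (Mathlib: slope, addX, addY of affine points; `field_simp`). -/
def S_ADD : Prop := ∀ a b : ℤ, 4 * a ^ 3 + 27 * b ^ 2 ≠ 0 → ∀ p q : Tr,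
  (p.2.2 = 0 ∨ OnC a b p) → (q.2.2 = 0 ∨ OnC a b q) →
    ((addT a p q).2.2 = 0 ∨ OnC a b (addT a p q)) ∧ pt a b (addT a p q) = pt a b p + pt a b q

/-- all sums of sublists -/
def sums (a : ℤ) (l : List Tr) : List Tr :=
  l.foldr (fun p acc => acc ++ acc.map (addT a p)) [(1, 1, 0)]

/-- the integral form `(1, 0, -6 r, 8 n, -3 r² - 4 a t⁴)` has a root: the point is a double -/
def DB (a : ℤ) (p : Tr) : Prop :=
  RootB ⟨1, 0, -6 * p.1, 8 * p.2.1, -3 * p.1 ^ 2 - 4 * a * p.2.2 ^ 4⟩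

/-- every sum of a sublist of `l` is a double or congruent to the point of an entry of `L` -/
def Cov (a : ℤ) (l : List Tr) (L : List Ent) : Prop :=
  ∀ s ∈ sums a l, s.2.2 = 0 ∨ DB a s ∨ ∃ e ∈ L, EqvB (ofT e.1) s.1 (s.2.2 ^ 2)

/-- PA (from PG; integer primitive recursive lemmas in the library). -/
def S_PA : Prop := PrimrecPred (fun c : ℤ × (List Tr × List Ent) => Cov c.1 c.2.1 c.2.2)

/-- GR (from PG, PV, PA). As FW: search `L` with `VL` and `Cov`, compute `log₂`. -/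
def S_GR : Prop := ∀ (ρ : ℤ × ℤ → ℕ) (F : ℤ × ℤ → Prop) (f : ℤ × ℤ → List Tr), ComputablePred F →
  Computable f → (∀ c, ¬ F c → ρ c = 0) →
  (∀ c, F c → ∃ L, VL c.1 c.2 L ∧ Cov c.1 (f c) L) →
  (∀ c L, F c → VL c.1 c.2 L → Cov c.1 (f c) L →
    L.length + 1 = 2 ^ ρ c * (1 + nrt c.1 c.2)) → Computable ρ

/-- FWG: as `S_FW`, with an arbitrary function `ρ` in place of `rk`. -/
def S_FWG : Prop := ∀ (ρ : ℤ × ℤ → ℕ) (K : ℕ) (P : T5 → Prop) (F : ℤ × ℤ → Prop),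
  ComputablePred P → ComputablePred F → (∀ c, ¬ F c → ρ c = 0) →
  (∀ c, F c → ∃ L, VL c.1 c.2 L ∧ BoxC K P c.1 c.2 L) →
  (∀ c L, F c → VL c.1 c.2 L → BoxC K P c.1 c.2 L →
    L.length + 1 = 2 ^ ρ c * (1 + nrt c.1 c.2)) → Computable ρ

/-- RVG: as `S_RV`, with an arbitrary function `ρ` and an arbitrary computable domain `D`. -/
def S_RVG : Prop := ∀ (ρ : ℤ × ℤ → ℕ), Computable ρ → ∀ (w : Bool) (D P : T5 → Prop),
  ComputablePred D → (∀ t, P t → D t) →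
  (∀ t, D t → ∃ L, VL (ab t).1 (ab t).2 L ∧
    L.length + 1 = 2 ^ ρ (ab t) * (1 + nrt (ab t).1 (ab t).2)) →
  (∀ t L, D t → VL (ab t).1 (ab t).2 L →
    L.length + 1 = 2 ^ ρ (ab t) * (1 + nrt (ab t).1 (ab t).2) →
    (P t ↔ (w = false ∨ ρ (ab t) ≠ 0) ∧
      (RootB (ofT (t144 t)) ∨ ∃ e ∈ L, EqvB (ofT (t144 t)) (eR e) (eS e)))) →
  ComputablePred P

/-- the least size of a generating set -/
noncomputable def gnum (G : Type) [AddCommGroup G] : ℕ :=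
  sInf {n : ℕ | ∃ S : Finset G, S.card = n ∧ AddSubgroup.closure (S : Set G) = ⊤}

/-- GRP. Finitely generated abelian group with cyclic torsion subgroup. `≤`: structure theorem.
`≥`: reduce modulo a prime dividing the order of the torsion subgroup (or `2` if it is trivial):
`G / p G` has dimension `rank + 1` (or `rank`). -/
def S_GRP : Prop := ∀ (G : Type) [AddCommGroup G] [Module.Finite ℤ G],
  IsAddCyclic (AddCommGroup.torsion G) →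
    (AddCommGroup.torsion G = ⊥ → gnum G = Module.finrank ℤ G) ∧
    (AddCommGroup.torsion G ≠ ⊥ → gnum G = Module.finrank ℤ G + 1)

/-- the second coefficient for `X³ + Y³ = A` -/
def bA (A : ℤ) : ℤ := -432 * A ^ 2

/-- TOR. Torsion of `y² = x³ - 432 A²` (that is of `X³ + Y³ = A`): cyclic, nontrivial iff `A` is a cube
(order `3`) or twice a cube (order `2`). (Classical; the reduction modulo primes `p ≡ 2 mod 3` has
`p + 1` points; look in the library `Pool/Graph` for torsion of `y² = x³ + k` / `x³ + y³ = A`, or prove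
directly: points of order `2` and `3`, and there are no points of order `4`, `9`, or `p ≥ 5`.) -/
def S_TOR : Prop := ∀ A : ℤ, A ≠ 0 →
  IsAddCyclic (AddCommGroup.torsion (Pt ((0 : ℤ) : ℚ) ((bA A : ℤ) : ℚ))) ∧
    (AddCommGroup.torsion (Pt ((0 : ℤ) : ℚ) ((bA A : ℤ) : ℚ)) ≠ ⊥ ↔
      ∃ m : ℤ, A = m ^ 3 ∨ A = 2 * m ^ 3)

/-- CF. Computability of the conditions of the family. -/
def S_CF : Prop :=
  PrimrecPred (fun c : ℤ × ℤ => c.1 = 0 ∧ ∃ A : ℤ, A ≠ 0 ∧ c.2 = bA A) ∧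
  PrimrecPred (fun t : T5 => (ofT t).I = 0 ∧ ∃ A : ℤ, A ≠ 0 ∧ (ofT t).J = 746496 * A ^ 2) ∧
  PrimrecPred (fun A : ℤ => ∃ m : ℤ, A = m ^ 3 ∨ A = 2 * m ^ 3) ∧
  Primrec (fun A : ℤ => ((0, bA A) : ℤ × ℤ)) ∧
  ∃ s : ℤ × ℤ → ℤ, Primrec s ∧ ∀ A : ℤ, s (0, bA A) = A ∨ s (0, bA A) = -A

end Pool.Agent.H447.QR
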