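import Pool.Agent.H447.QR.AsmC
import Pool.Agent.H447.QR.Stm2

set_option autoImplicit false

open WeierstrassCurve

namespace Pool.Agent.H447.QR.AsmE

open Pool.Agent.H447.QR Pool.Agent.H447.QR.AsmA Pool.Agent.H447.QR.AsmB Pool.Agent.H447.QR.AsmC

theorem pt_zero {a b : ℤ} {p : Tr} (h : p.2.2 = 0) : pt a b p = 0 := by
  unfold pt
  rw [dif_neg]
  exact fun h' => h'.1 h

theorem nonsing {a b X Y : ℚ} (hd : 4 * a ^ 3 + 27 * b ^ 2 ≠ 0) (h : Y ^ 2 = X ^ 3 + a * X + b) :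
    (crv a b).toAffine.Nonsingular X Y := by
  rw [Affine.nonsingular_iff, Affine.equation_iff]
  simp only
  refine ⟨by linear_combination h, ?_⟩
  by_contra hc
  push Not at hc
  obtain ⟨h1, h2⟩ := hc
  have hY : Y = 0 := by linarith
  have h3 : 3 * X ^ 2 + a = 0 := by
    rw [hY] at h1
    linear_combination -h1
  apply hd
  rw [hY] at h
  have ha : a = -3 * X ^ 2 := by linarith
  have hb : b = 2 * X ^ 3 := by
    rw [ha] at h
    linarith [h]
  rw [ha, hb]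
  ring

theorem onC_eqn {a b : ℤ} {p : Tr} (h : OnC a b p) :
    ((p.2.1 : ℚ) / (p.2.2 : ℚ) ^ 3) ^ 2 = ((p.1 : ℚ) / (p.2.2 : ℚ) ^ 2) ^ 3 +
      a * ((p.1 : ℚ) / (p.2.2 : ℚ) ^ 2) + b := by
  obtain ⟨ht, he⟩ := h
  have ht' : (p.2.2 : ℚ) ≠ 0 := by exact_mod_cast ht
  have he' : (p.2.1 : ℚ) ^ 2 = p.1 ^ 3 + a * p.1 * p.2.2 ^ 4 + b * p.2.2 ^ 6 := by
    exact_mod_cast he
  field_simp
  linear_combination he'

theorem pt_some {a b : ℤ} (hd : 4 * a ^ 3 + 27 * b ^ 2 ≠ 0) {p : Tr} (h : OnC a b p) :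
    ∃ hn : (crv (a : ℚ) (b : ℚ)).toAffine.Nonsingular ((p.1 : ℚ) / (p.2.2 : ℚ) ^ 2)
      ((p.2.1 : ℚ) / (p.2.2 : ℚ) ^ 3), pt a b p = Affine.Point.some _ _ hn := by
  have hn := nonsing (hdq hd) (onC_eqn h)
  refine ⟨hn, ?_⟩
  unfold pt
  rw [dif_pos ⟨h.1, hn⟩]

theorem sums_cons (a : ℤ) (p : Tr) (l : List Tr) :
    sums a (p :: l) = sums a l ++ (sums a l).map (addT a p) := rfl

theorem sums_val (hadd : S_ADD) {a b : ℤ} (hd : 4 * a ^ 3 + 27 * b ^ 2 ≠ 0) (l : List Tr)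
    (hl : ∀ p ∈ l, OnC a b p) : ∀ s ∈ sums a l, s.2.2 = 0 ∨ OnC a b s := by
  induction l with
  | nil =>
    intro s hs
    simp only [sums, List.foldr_nil, List.mem_singleton] at hs
    left; rw [hs]
  | cons p l ih =>
    have ih' := ih (fun q hq => hl q (List.mem_cons_of_mem _ hq))
    intro s hs
    rw [sums_cons, List.mem_append, List.mem_map] at hs
    rcases hs with hs | ⟨s', hs', rfl⟩
    · exact ih' s hs
    · exact (hadd a b hd p s' (Or.inr (hl p (List.mem_cons_self ..))) (ih' s' hs')).1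

theorem cl_add {a b : ℤ} (P Q : Pt (a : ℚ) (b : ℚ)) : cl (P + Q) = cl P + cl Q := rfl

theorem cl_dbl {a b : ℤ} (P : Pt (a : ℚ) (b : ℚ)) : cl P + cl P = 0 := by
  rw [← cl_add, cl_eq_zero_iff]
  exact ⟨P, rfl⟩

theorem cl_zsmul {a b : ℤ} (P : Pt (a : ℚ) (b : ℚ)) (n : ℤ) :
    cl (n • P) = 0 ∨ cl (n • P) = cl P := by
  rcases Int.even_or_odd n with ⟨k, hk⟩ | ⟨k, hk⟩
  · left
    rw [hk, add_zsmul, cl_add, cl_dbl]
  · right
    rw [hk, add_zsmul, cl_add, two_mul, add_zsmul, cl_add, cl_dbl, zero_add, one_zsmul]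

theorem sums_cl (hadd : S_ADD) {a b : ℤ} (hd : 4 * a ^ 3 + 27 * b ^ 2 ≠ 0) (l : List Tr)
    (hl : ∀ p ∈ l, OnC a b p) : ∀ P ∈ AddSubgroup.closure {P : Pt (a : ℚ) (b : ℚ) |
      ∃ p ∈ l, P = pt a b p}, ∃ s ∈ sums a l, cl (pt a b s) = cl P := by
  induction l with
  | nil =>
    intro P hP
    have h0 : {P : Pt (a : ℚ) (b : ℚ) | ∃ p ∈ ([] : List Tr), P = pt a b p} = ∅ := by
      ext; simp
    rw [h0, AddSubgroup.closure_empty, AddSubgroup.mem_bot] at hP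
    refine ⟨(1, 1, 0), by simp [sums], ?_⟩
    rw [hP, pt_zero rfl]
  | cons p l ih =>
    have hl' : ∀ q ∈ l, OnC a b q := fun q hq => hl q (List.mem_cons_of_mem _ hq)
    have ih' := ih hl'
    have hv := sums_val hadd hd l hl'
    intro P hP
    have h0 : {P : Pt (a : ℚ) (b : ℚ) | ∃ q ∈ (p :: l), P = pt a b q} =
        insert (pt a b p) {P : Pt (a : ℚ) (b : ℚ) | ∃ q ∈ l, P = pt a b q} := by
      ext Q
      simp [List.mem_cons]
    rw [h0, Set.insert_eq, AddSubgroup.closure_union, AddSubgroup.mem_sup] at hP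
    obtain ⟨P1, h1, P2, h2, rfl⟩ := hP
    rw [AddSubgroup.mem_closure_singleton] at h1
    obtain ⟨n, rfl⟩ := h1
    obtain ⟨s, hs, hsc⟩ := ih' P2 h2
    rcases cl_zsmul (pt a b p) n with hn | hn
    · refine ⟨s, ?_, ?_⟩
      · rw [sums_cons, List.mem_append]; exact Or.inl hs
      · rw [cl_add, hn, zero_add, hsc]
    · refine ⟨addT a p s, ?_, ?_⟩
      · rw [sums_cons, List.mem_append, List.mem_map]; exact Or.inr ⟨s, hs, rfl⟩
      · rw [(hadd a b hd p s (Or.inr (hl p (List.mem_cons_self ..))) (hv s hs)).2, cl_add, cl_add,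
          hn, hsc]

/-- the integral form of `DB` -/
def dbF (a : ℤ) (p : Tr) : Qf ℤ := ⟨1, 0, -6 * p.1, 8 * p.2.1, -3 * p.1 ^ 2 - 4 * a * p.2.2 ^ 4⟩

theorem db_iff (H : H0) {a b : ℤ} (hd : 4 * a ^ 3 + 27 * b ^ 2 ≠ 0) {p : Tr} (h : OnC a b p) :
    DB a p ↔ cl (pt a b p) = 0 := by
  obtain ⟨hn, hpt⟩ := pt_some hd h
  have ht : (p.2.2 : ℚ) ≠ 0 := by exact_mod_cast h.1
  rw [cl_eq_zero_iff, hpt, ← H.se a b _ _ hn (hdq hd)]
  have h1 : DB a p ↔ RootB (dbF a p) := Iff.rfl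
  rw [h1, ← H.lr (dbF a p) ?_]
  · constructor
    · rintro ⟨x, z, hxz, hv⟩
      refine ⟨x, p.2.2 * z, ?_, ?_⟩
      · rcases hxz with h2 | h2
        · exact Or.inl h2
        · exact Or.inr (mul_ne_zero ht h2)
      · simp only [dbF, Qf.q, Qf.v] at hv
        push_cast at hv
        simp only [nf, Qf.v]
        field_simp
        linear_combination hv
    · rintro ⟨x, z, hxz, hv⟩
      refine ⟨x, z / p.2.2, ?_, ?_⟩
      · rcases hxz with h2 | h2
        · exact Or.inl h2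
        · exact Or.inr (div_ne_zero h2 ht)
      · simp only [nf, Qf.v] at hv
        simp only [dbF, Qf.q, Qf.v]
        push_cast
        field_simp
        field_simp at hv
        linear_combination hv
  · unfold Qf.n dbF
    simp only [Int.natAbs_one]
    omega

/-- test for the class of a triple -/
theorem eqv_tr (H : H0) {a b : ℤ} (hd : 4 * a ^ 3 + 27 * b ^ 2 ≠ 0) {e : Ent} (he : Good a b e)
    {s : Tr} (hs : OnC a b s) :
    EqvB (ofT e.1) s.1 (s.2.2 ^ 2) ↔ clOf a b e = cl (pt a b s) := by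
  obtain ⟨hn, hpt⟩ := pt_some hd hs
  have ht : s.2.2 ≠ 0 := hs.1
  rw [← H.eq a b (ofT e.1) s.1 (s.2.2 ^ 2) hd he.1 (pow_ne_zero 2 ht)]
  have hpe := ptOf_spec H hd he
  constructor
  · rintro ⟨X, Y, hn', hX, hr⟩
    have h1 := rep_congr H (hdq hd) (inv_q he.1) hpe.1 hr
    rw [← cl_eq_iff] at h1
    have h1' : clOf a b e = cl (Affine.Point.some X Y hn' : Pt (a : ℚ) (b : ℚ)) := h1
    rw [h1', hpt]
    rcases same_x hn' hn (by rw [hX]; push_cast; rfl) with h2 | h2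
    · rw [h2]
    · rw [h2, cl_neg]
  · intro h1
    obtain ⟨Q, hQ⟩ := (cl_eq_iff _ _).1 h1
    have h2 : Rep (a : ℚ) (b : ℚ) (ofT e.1).q (ptOf a b e + (Q + Q)) := by
      apply rep_shift H (hdq hd) (inv_q he.1) hpe.1
      rw [← hQ, hpt]
      exact Affine.Point.some_ne_zero _
    rw [← hQ, hpt] at h2
    exact ⟨_, _, hn, by push_cast; rfl, h2⟩

theorem cov_iff (H : H0) (hadd : S_ADD) {a b : ℤ} (hd : 4 * a ^ 3 + 27 * b ^ 2 ≠ 0) {l : List Tr}
    (hl : IsGen a b l) {L : List Ent} (hL : VL a b L) :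
    Cov a l L ↔ L.length + 1 = cls a b := by
  rw [complete H hd hL]
  have hval := sums_val hadd hd l hl.1
  constructor
  · intro hc c hc0
    obtain ⟨P, rfl⟩ : ∃ P : Pt (a : ℚ) (b : ℚ), cl P = c := QuotientAddGroup.mk_surjective c
    obtain ⟨s, hs, hsc⟩ := sums_cl hadd hd l hl.1 P (by rw [hl.2]; exact AddSubgroup.mem_top _)
    rcases hval s hs with h0 | h0
    · exfalso
      rw [pt_zero h0] at hsc
      exact hc0 hsc.symm
    · rcases hc s hs with h1 | h1 | ⟨e, he, h1⟩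
      · exact absurd h1 h0.1
      · rw [db_iff H hd h0] at h1
        rw [h1] at hsc
        exact absurd hsc.symm hc0
      · rw [eqv_tr H hd (hL.1 e he) h0] at h1
        exact ⟨e, he, by rw [h1, hsc]⟩
  · intro hc s hs
    rcases hval s hs with h0 | h0
    · exact Or.inl h0
    · right
      by_cases h1 : cl (pt a b s) = 0
      · left
        rw [db_iff H hd h0]; exact h1
      · right
        obtain ⟨e, he, h2⟩ := hc _ h1
        exact ⟨e, he, (eqv_tr H hd (hL.1 e he) h0).2 h2⟩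

/-! ### heights -/

theorem ht_zero {a b : ℚ} : Ht (0 : Pt a b) = 1 := rfl

theorem ht_ent {a b : ℤ} {e : Ent} {P : Pt (a : ℚ) (b : ℚ)} (he : Good a b e) (h : IsPt a b e P) :
    Ht P ≤ (eR e).natAbs + (eS e).natAbs := by
  obtain ⟨-, X, Y, hn, hP, hX⟩ := h
  rw [hP]
  have hS := eS_ne he
  change max X.num.natAbs X.den ≤ _
  have h1 : X.num.natAbs ≤ (eR e).natAbs := by
    by_cases h0 : eR e = 0
    · rw [hX, h0]; simp
    · apply Nat.le_of_dvd (Int.natAbs_pos.2 h0)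
      rw [hX, ← Rat.divInt_eq_div]
      exact Int.natAbs_dvd_natAbs.2 (Rat.num_dvd _ hS)
  have h2 : X.den ≤ (eS e).natAbs := by
    apply Nat.le_of_dvd (Int.natAbs_pos.2 hS)
    rw [hX, ← Rat.divInt_eq_div]
    have := Rat.den_dvd (eR e) (eS e)
    exact Int.natCast_dvd.1 this
  exact max_le (by omega) (by omega)

theorem ht_le_mx {L : List Ent} {e : Ent} (he : e ∈ L) :
    (eR e).natAbs + (eS e).natAbs ≤ mxL L := by
  unfold mxL
  have h1 : (eR e).natAbs + (eS e).natAbs ∈ L.map (fun e => (eR e).natAbs + (eS e).natAbs) :=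
    List.mem_map.2 ⟨e, he, rfl⟩
  have := List.single_le_sum (fun _ _ => Nat.zero_le _) _ h1
  omega

theorem gen_of (H : H0) (gb : S_GB) {a b : ℤ} (hd : 4 * a ^ 3 + 27 * b ^ 2 ≠ 0) {L : List Ent}
    (hL : VL a b L) (hl : L.length + 1 = cls a b) {en : (ℤ × ℤ) × ℕ → List Tr}
    (hen : ∀ B : ℕ, (∀ p ∈ en ((a, b), B), OnC a b p) ∧
      ∀ P : Pt (a : ℚ) (b : ℚ), P ≠ 0 → Ht P ≤ B → ∃ p ∈ en ((a, b), B), P = pt a b p) :
    IsGen a b (en ((a, b), C1 a b * C2 a b * mxL L ^ 2)) := by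
  refine ⟨(hen _).1, ?_⟩
  have h1 := gb a b hd (mxL L) ?_
  · rw [eq_top_iff, ← h1, AddSubgroup.closure_le]
    intro P hP
    by_cases h0 : P = 0
    · rw [h0]; exact AddSubgroup.zero_mem _
    · exact AddSubgroup.subset_closure ((hen _).2 P h0 hP)
  · intro P
    by_cases h0 : cl P = 0
    · rw [cl_eq_zero_iff] at h0
      obtain ⟨Q, hQ⟩ := h0
      refine ⟨0, Q, by rw [zero_add, hQ], ?_⟩
      rw [ht_zero]
      unfold mxL; omega
    · obtain ⟨e, he, hec⟩ := (complete H hd hL).1 hl _ h0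
      obtain ⟨Q, hQ⟩ := (cl_eq_iff _ _).1 hec
      refine ⟨ptOf a b e, Q, hQ, ?_⟩
      exact (ht_ent (hL.1 e he) (ptOf_spec H hd (hL.1 e he))).trans (ht_le_mx he)

end Pool.Agent.H447.QR.AsmE
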