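import Pool.Agent.H447.QR.AsmD
import Pool.Agent.H447.QR.AsmE

set_option autoImplicit false

open WeierstrassCurve

namespace Pool.Agent.H447.QR.AsmF

open Pool.Agent.H447.QR Pool.Agent.H447.QR.AsmA Pool.Agent.H447.QR.AsmB Pool.Agent.H447.QR.AsmC
open Pool.Agent.H447.QR.AsmD Pool.Agent.H447.QR.AsmE

/-- hypotheses for the part on generators -/
structure H2 : Prop extends H0 where
  gb : S_GB
  en : S_EN
  rg : S_RG
  add : S_ADD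
  gr : S_GR

/-- generators are computable on the family `F` -/
def GenF (F : ℤ × ℤ → Prop) : Prop :=
  ∃ f : ℤ × ℤ → List Tr, Computable f ∧ ∀ c, F c → IsGen c.1 c.2 (f c)

theorem gen_of_rk (H : H2) (ρ : ℤ × ℤ → ℕ) (F : ℤ × ℤ → Prop) (hF : ComputablePred F)
    (hF1 : ∀ c, F c → 4 * c.1 ^ 3 + 27 * c.2 ^ 2 ≠ 0) (hρ : ∀ c, F c → ρ c = rk c)
    (h : Computable ρ) : GenF F := by
  obtain ⟨en, hen, hen2⟩ := H.en
  have hL0 : ∀ c, F c → ∃ L, VL c.1 c.2 L ∧ L.length + 1 = 2 ^ ρ c * (1 + nrt c.1 c.2) := by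
    intro c hc
    obtain ⟨L, hL, hl⟩ := exists_full H.toH0 (hF1 c hc)
    exact ⟨L, hL, by rw [hl, hρ c hc, cls_eq H.toH0 (hF1 c hc)]⟩
  obtain ⟨f, hf, hf2⟩ := H.rg en hen ρ F h hF hL0
  refine ⟨f, hf, fun c hc => ?_⟩
  obtain ⟨L, hL, hl, hfe⟩ := hf2 c hc
  rw [hfe]
  have hl' : L.length + 1 = cls c.1 c.2 := by
    rw [hl, hρ c hc, cls_eq H.toH0 (hF1 c hc)]
  exact gen_of H.toH0 H.gb (hF1 c hc) hL hl' (hen2 c.1 c.2 (hF1 c hc))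

theorem rk_of_gen (H : H2) (ρ : ℤ × ℤ → ℕ) (F : ℤ × ℤ → Prop) (hF : ComputablePred F)
    (hF1 : ∀ c, F c → 4 * c.1 ^ 3 + 27 * c.2 ^ 2 ≠ 0) (hρ : ∀ c, F c → ρ c = rk c)
    (h0 : ∀ c, ¬ F c → ρ c = 0) (h : GenF F) : Computable ρ := by
  obtain ⟨f, hf, hg⟩ := h
  refine H.gr ρ F f hF hf h0 ?_ ?_
  · intro c hc
    obtain ⟨L, hL, hl⟩ := exists_full H.toH0 (hF1 c hc)
    exact ⟨L, hL, (cov_iff H.toH0 H.add (hF1 c hc) (hg c hc) hL).2 hl⟩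
  · intro c L hc hL hcov
    rw [(cov_iff H.toH0 H.add (hF1 c hc) (hg c hc) hL).1 hcov, hρ c hc,
      cls_eq H.toH0 (hF1 c hc)]

theorem gen_iff (H : H2) : GenF (fun c => 4 * c.1 ^ 3 + 27 * c.2 ^ 2 ≠ 0) ↔ Computable rk := by
  have hF : ComputablePred (fun c : ℤ × ℤ => 4 * c.1 ^ 3 + 27 * c.2 ^ 2 ≠ 0) :=
    prim_disc.computablePred
  constructor
  · apply rk_of_gen H rk _ hF (fun c hc => hc) (fun _ _ => rfl)
    intro c hc
    unfold rk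
    rw [if_neg hc]
  · exact gen_of_rk H rk _ hF (fun c hc => hc) (fun _ _ => rfl)

end Pool.Agent.H447.QR.AsmF
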