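import Pool.Agent.H447.QR.AsmF
import Pool.Agent.H447.QX.H282_RV

set_option autoImplicit false

open WeierstrassCurve

namespace Pool.Agent.H447.QR.AsmG

open Pool.Agent.H447.QR Pool.Agent.H447.QR.AsmA Pool.Agent.H447.QR.AsmB Pool.Agent.H447.QR.AsmC
open Pool.Agent.H447.QR.AsmD Pool.Agent.H447.QR.AsmE Pool.Agent.H447.QR.AsmF
open Pool.Agent.H282.QR.RV (cp_and cp_comp)

/-- hypotheses for the family `X³ + Y³ = A` -/
structure H3 : Prop extends H2 where
  ci : S_CI
  fwg : S_FWG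
  rvg : S_RVG
  grp : S_GRP
  tor : S_TOR
  cf : S_CF

/-- the family -/
def FC (c : ℤ × ℤ) : Prop := c.1 = 0 ∧ ∃ A : ℤ, A ≠ 0 ∧ c.2 = bA A

/-- the quartics of the family -/
def DC (t : T5) : Prop := (ofT t).I = 0 ∧ ∃ A : ℤ, A ≠ 0 ∧ (ofT t).J = 746496 * A ^ 2

/-- soluble quartics of the family -/
def SolC (t : T5) : Prop := DC t ∧ Sol (ofT t).q

/-- quartics of the family with infinitely many points -/
def InC (t : T5) : Prop := DC t ∧ InfC (ofT t).q

/-- the ranks of the family -/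
noncomputable def rA (A : ℤ) : ℕ :=
  if A = 0 then 0 else gnum (Pt ((0 : ℤ) : ℚ) ((bA A : ℤ) : ℚ))

/-- generators for the family -/
def GenC : Prop :=
  ∃ f : ℤ → List Tr, Computable f ∧ ∀ A : ℤ, A ≠ 0 → IsGen 0 (bA A) (f A)

open Classical in
/-- the rank on the family -/
noncomputable def rhoC (c : ℤ × ℤ) : ℕ := if FC c then rk c else 0

theorem fc_hd {c : ℤ × ℤ} (h : FC c) : 4 * c.1 ^ 3 + 27 * c.2 ^ 2 ≠ 0 := by
  obtain ⟨h1, A, hA, h2⟩ := h
  rw [h1, h2]
  unfold bA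
  have : 4 * (0 : ℤ) ^ 3 + 27 * (-432 * A ^ 2) ^ 2 = 5038848 * A ^ 4 := by ring
  rw [this]
  exact mul_ne_zero (by norm_num) (pow_ne_zero 4 hA)

theorem fc_bA {A : ℤ} (h : A ≠ 0) : FC (0, bA A) := ⟨rfl, A, h, rfl⟩

theorem rhoC_eq {c : ℤ × ℤ} (h : FC c) : rhoC c = rk c := by
  unfold rhoC; rw [if_pos h]

theorem rhoC_zero {c : ℤ × ℤ} (h : ¬ FC c) : rhoC c = 0 := by
  unfold rhoC; rw [if_neg h]

theorem hF (H : H3) : ComputablePred FC := H.cf.1.computablePred

theorem hD (H : H3) : ComputablePred DC := H.cf.2.1.computablePred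

theorem gen_iff_rho (H : H3) : GenC ↔ Computable rhoC := by
  obtain ⟨-, -, -, hpb, s, hs, hs2⟩ := H.cf
  constructor
  · rintro ⟨f, hf, hg⟩
    apply rk_of_gen H.toH2 rhoC FC (hF H) (fun c hc => fc_hd hc) (fun c hc => rhoC_eq hc)
      (fun c hc => rhoC_zero hc)
    refine ⟨fun c => f (s c), hf.comp hs.to_comp, ?_⟩
    rintro ⟨c1, c2⟩ ⟨h1, A, hA, h2⟩
    simp only at h1 h2
    subst h1 h2
    have h3 : IsGen 0 (bA (s (0, bA A))) (f (s (0, bA A))) := by
      apply hg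
      rcases hs2 A with h4 | h4
      · rw [h4]; exact hA
      · rw [h4]; exact neg_ne_zero.2 hA
    have h5 : bA (s (0, bA A)) = bA A := by
      unfold bA
      rcases hs2 A with h4 | h4
      · unfold bA at h4; rw [h4]
      · unfold bA at h4; rw [h4]; ring
    rw [h5] at h3
    exact h3
  · intro h
    obtain ⟨f, hf, hg⟩ := gen_of_rk H.toH2 rhoC FC (hF H) (fun c hc => fc_hd hc)
      (fun c hc => rhoC_eq hc) h
    refine ⟨fun A => f (0, bA A), hf.comp hpb.to_comp, ?_⟩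
    intro A hA
    exact hg (0, bA A) (fc_bA hA)

/-! ### the number of generators -/

open Classical in
/-- indicator of the cubes and doubled cubes -/
noncomputable def cub (A : ℤ) : ℕ := if ∃ m : ℤ, A = m ^ 3 ∨ A = 2 * m ^ 3 then 1 else 0

theorem rA_eq (H : H3) {A : ℤ} (hA : A ≠ 0) : rA A = rhoC (0, bA A) + cub A := by
  have hfin := (H.mw 0 (bA A) (fc_hd (fc_bA hA))).1
  obtain ⟨hcyc, hne⟩ := H.tor A hA
  have hg := H.grp (Pt ((0 : ℤ) : ℚ) ((bA A : ℤ) : ℚ)) hcyc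
  have hr : rhoC (0, bA A) = Module.finrank ℤ (Pt ((0 : ℤ) : ℚ) ((bA A : ℤ) : ℚ)) := by
    rw [rhoC_eq (fc_bA hA)]
    exact rk_of (fc_hd (fc_bA hA))
  unfold rA cub
  rw [if_neg hA, hr]
  by_cases ht : AddCommGroup.torsion (Pt ((0 : ℤ) : ℚ) ((bA A : ℤ) : ℚ)) = ⊥
  · rw [hg.1 ht, if_neg (fun h => hne.2 h ht), Nat.add_zero]
  · rw [hg.2 ht, if_pos (hne.1 ht)]

theorem comp_cub (H : H3) : Computable cub := by
  classical
  obtain ⟨-, -, hc, -, -⟩ := H.cf
  have h1 : Computable (fun A : ℤ => decide (∃ m : ℤ, A = m ^ 3 ∨ A = 2 * m ^ 3)) :=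
    hc.computablePred.decide
  have h2 : Computable (fun A : ℤ => cond (decide (∃ m : ℤ, A = m ^ 3 ∨ A = 2 * m ^ 3)) 1 0 :
      ℤ → ℕ) := Computable.cond h1 (Computable.const 1) (Computable.const 0)
  refine h2.of_eq fun A => ?_
  unfold cub
  by_cases h : ∃ m : ℤ, A = m ^ 3 ∨ A = 2 * m ^ 3
  · rw [if_pos h]; simp only [h, decide_true, cond_true]
  · rw [if_neg h]; simp only [h, decide_false, cond_false]

theorem rA_iff_rho (H : H3) : Computable rA ↔ Computable rhoC := by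
  classical
  have hcub := comp_cub H
  obtain ⟨-, -, -, hpb, s, hs, hs2⟩ := H.cf
  constructor
  · intro h
    have h1 : Computable (fun c : ℤ × ℤ => decide (FC c)) := (hF H).decide
    have h2 : Computable (fun c : ℤ × ℤ => cond (decide (FC c)) (rA (s c) - cub (s c)) 0) :=
      Computable.cond h1 (Primrec.nat_sub.to_comp.comp (h.comp hs.to_comp)
        (hcub.comp hs.to_comp)) (Computable.const 0)
    refine h2.of_eq ?_
    rintro ⟨c1, c2⟩
    by_cases hc : FC (c1, c2)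
    · simp only [hc, decide_true, cond_true]
      obtain ⟨h3, A, hA, h4⟩ := hc
      simp only at h3 h4
      subst h3 h4
      have hsA : s (0, bA A) ≠ 0 := by
        rcases hs2 A with h5 | h5
        · rw [h5]; exact hA
        · rw [h5]; exact neg_ne_zero.2 hA
      have h5 : bA (s (0, bA A)) = bA A := by
        unfold bA
        rcases hs2 A with h4 | h4
        · unfold bA at h4; rw [h4]
        · unfold bA at h4; rw [h4]; ring
      rw [rA_eq H hsA, h5]
      omega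
    · simp only [hc, decide_false, cond_false]
      exact (rhoC_zero hc).symm
  · intro h
    have h1 : Computable (fun A : ℤ => decide (A = 0)) := by
      have : ComputablePred (fun A : ℤ => A = 0) :=
        (Primrec.eq.comp Primrec.id (Primrec.const 0)).computablePred
      exact this.decide
    have h2 : Computable (fun A : ℤ => cond (decide (A = 0)) 0 (rhoC (0, bA A) + cub A)) :=
      Computable.cond h1 (Computable.const 0)
        (Primrec.nat_add.to_comp.comp (h.comp hpb.to_comp) hcub)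
    refine h2.of_eq fun A => ?_
    by_cases hA : A = 0
    · simp only [hA, decide_true, cond_true]
      unfold rA; rw [if_pos rfl]
    · simp only [hA, decide_false, cond_false]
      exact (rA_eq H hA).symm

/-! ### quartics -/

theorem dc_of {c : ℤ × ℤ} (hc : FC c) {t : T5} (hi : Inv c.1 c.2 (ofT t)) : DC t := by
  obtain ⟨h1, A, hA, h2⟩ := hc
  refine ⟨?_, A, hA, ?_⟩
  · rw [hi.1, h1]; ring
  · rw [hi.2, h2]; unfold bA; ring

theorem fwd_gen (H : H3) (P : T5 → Prop) (F : ℤ × ℤ → Prop) (hP : ComputablePred P)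
    (hFc : ComputablePred F) (hFF : ∀ c, F c → FC c) (h0 : ∀ c, ¬ F c → rhoC c = 0)
    (hPF : ∀ (c : ℤ × ℤ) (t : T5), F c → Inv c.1 c.2 (ofT t) → (P t ↔ Sol (ofT t).q)) :
    Computable rhoC := by
  obtain ⟨K, hK⟩ := t_CB H.toH0
  refine H.fwg rhoC K P F hP hFc h0 ?_ ?_
  · intro c hc
    have hd := fc_hd (hFF c hc)
    obtain ⟨L, hL, hl⟩ := exists_full H.toH0 hd
    refine ⟨L, hL, ?_⟩
    intro t _ hi hr hPt
    have h1 := (hPF c t hc hi).1 hPt
    rw [sol_iff H.toH0 hd hL hl hi] at h1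
    exact h1.resolve_left hr
  · intro c L hc hL hbox
    have hd := fc_hd (hFF c hc)
    have h1 : L.length + 1 = cls c.1 c.2 := by
      apply hK c.1 c.2 hd L hL
      intro g hbx hi hr hs
      have h2 := hbox (g.A, g.B, g.C, g.D, g.E) hbx hi hr
      apply h2
      exact (hPF c (g.A, g.B, g.C, g.D, g.E) hc hi).2 hs
    rw [h1, rhoC_eq (hFF c hc), cls_eq H.toH0 hd]

theorem fwd_solC (H : H3) (h : ComputablePred SolC) : Computable rhoC := by
  refine fwd_gen H SolC FC h (hF H) (fun _ h => h) (fun c hc => rhoC_zero hc) ?_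
  intro c t hc hi
  exact ⟨fun h1 => h1.2, fun h1 => ⟨dc_of hc hi, h1⟩⟩

/-- the curve itself as a quartic -/
def t4 (c : ℤ × ℤ) : T5 := (0, 4, 0, 4 * c.1, 4 * c.2)

theorem inv_t4 (c : ℤ × ℤ) : Inv c.1 c.2 (ofT (t4 c)) := by
  constructor
  · simp only [ofT, t4, Qf.I]; ring
  · simp only [ofT, t4, Qf.J]; ring

theorem sol_t4 (c : ℤ × ℤ) : Sol (ofT (t4 c)).q := by
  refine ⟨1, 0, 0, Or.inl one_ne_zero, ?_⟩
  simp only [ofT, t4, Qf.q, Qf.v]
  push_cast
  ring

theorem comp_t4 : Computable t4 := by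
  have h4 : Primrec (fun c : ℤ => 4 * c) :=
    Pool.Agent.Helper566.FD.J7.prim_int_mul.comp (Primrec.const 4) Primrec.id
  have : Primrec t4 :=
    (Primrec.const 0).pair ((Primrec.const 4).pair ((Primrec.const 0).pair
      ((h4.comp Primrec.fst).pair (h4.comp Primrec.snd))))
  exact this.to_comp

theorem fwd_infC (H : H3) (h : ComputablePred InC) : Computable rhoC := by
  have hinf : ∀ c, FC c → (InC (t4 c) ↔ Infinite (Pt (c.1 : ℚ) (c.2 : ℚ))) := by
    intro c hc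
    have hd := fc_hd hc
    unfold InC
    rw [H.ci _ _ _ (hdq hd) (inv_q (inv_t4 c))]
    exact ⟨fun h1 => h1.2.1, fun h1 => ⟨dc_of hc (inv_t4 c), h1, sol_t4 c⟩⟩
  refine fwd_gen H InC (fun c => FC c ∧ InC (t4 c)) h (cp_and (hF H) (cp_comp h comp_t4))
    (fun _ h => h.1) ?_ ?_
  · intro c hc
    by_cases h1 : FC c
    · have h2 : ¬ InC (t4 c) := fun h3 => hc ⟨h1, h3⟩
      rw [hinf c h1, not_infinite_iff_finite] at h2
      rw [rhoC_eq h1]
      exact (rk_zero_iff H.toH0 (fc_hd h1)).2 h2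
    · exact rhoC_zero h1
  · intro c t hc hi
    have h2 := (hinf c hc.1).1 hc.2
    unfold InC
    rw [H.ci _ _ _ (hdq (fc_hd hc.1)) (inv_q hi)]
    exact ⟨fun h4 => h4.2.2, fun h4 => ⟨dc_of hc.1 hi, h2, h4⟩⟩

theorem ab_fc {t : T5} (h : DC t) : FC (ab t) := by
  obtain ⟨h1, A, hA, h2⟩ := h
  refine ⟨?_, 1728 * A, mul_ne_zero (by norm_num) hA, ?_⟩
  · unfold ab; rw [h1]; rfl
  · unfold ab bA; rw [h2]; ring

theorem rev_gen (H : H3) (hrk : Computable rhoC) (w : Bool) (P : T5 → Prop)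
    (hP : ∀ t, P t ↔ DC t ∧ ((w = false ∨ rhoC (ab t) ≠ 0) ∧ Sol (ofT t).q)) :
    ComputablePred P := by
  have hL0 : ∀ t, DC t → ∃ L, VL (ab t).1 (ab t).2 L ∧
      L.length + 1 = 2 ^ rhoC (ab t) * (1 + nrt (ab t).1 (ab t).2) := by
    intro t ht
    have hd := fc_hd (ab_fc ht)
    obtain ⟨L, hL, hl⟩ := exists_full H.toH0 hd
    exact ⟨L, hL, by rw [hl, rhoC_eq (ab_fc ht), cls_eq H.toH0 hd]⟩
  refine H.rvg rhoC hrk w DC P (hD H) (fun t ht => ((hP t).1 ht).1) hL0 ?_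
  intro t L ht hL hl
  have hd := fc_hd (ab_fc ht)
  have hl' : L.length + 1 = cls (ab t).1 (ab t).2 := by
    rw [hl, rhoC_eq (ab_fc ht), cls_eq H.toH0 hd]
  rw [hP t, ← sol144 t, sol_iff H.toH0 hd hL hl' (inv144 t)]
  exact ⟨fun h => h.2, fun h => ⟨ht, h⟩⟩

theorem rev_solC (H : H3) (hrk : Computable rhoC) : ComputablePred SolC := by
  apply rev_gen H hrk false SolC
  intro t
  unfold SolC
  simp

theorem rev_infC (H : H3) (hrk : Computable rhoC) : ComputablePred InC := by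
  apply rev_gen H hrk true InC
  intro t
  unfold InC
  constructor
  · rintro ⟨h1, h2⟩
    refine ⟨h1, ?_⟩
    have hd := fc_hd (ab_fc h1)
    rw [← inf144 t, H.ci _ _ _ (hdq hd) (inv_q (inv144 t)), sol144] at h2
    refine ⟨Or.inr ?_, h2.2⟩
    intro h3
    rw [rhoC_eq (ab_fc h1)] at h3
    have h4 := (rk_zero_iff H.toH0 hd).1 h3
    exact not_finite_iff_infinite.2 h2.1 h4
  · rintro ⟨h1, h2, h3⟩
    refine ⟨h1, ?_⟩
    have hd := fc_hd (ab_fc h1)
    rw [← inf144 t, H.ci _ _ _ (hdq hd) (inv_q (inv144 t)), sol144]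
    refine ⟨?_, h3⟩
    rcases h2 with h2 | h2
    · simp at h2
    · rw [← not_finite_iff_infinite]
      intro h4
      rw [rhoC_eq (ab_fc h1)] at h2
      exact h2 ((rk_zero_iff H.toH0 hd).2 h4)

theorem main (H : H3) : (GenC ↔ Computable rA) ∧ (ComputablePred SolC ↔ Computable rA) ∧
    (ComputablePred InC ↔ Computable rA) := by
  rw [gen_iff_rho H, rA_iff_rho H]
  exact ⟨Iff.rfl, ⟨fwd_solC H, rev_solC H⟩, ⟨fwd_infC H, rev_infC H⟩⟩

end Pool.Agent.H447.QR.AsmG
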