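import Pool.Agent.H447.QR.Stm

set_option autoImplicit false

namespace Pool.Agent.H447.QR.COV1

open Pool.Agent.H447.QR

theorem t_SYZ : S_SYZ := by
  intro g x z
  unfold Qf.h6 Qf.h4 Qf.I Qf.J Qf.v
  ring

theorem t_COV1 : S_COV1 := by
  refine ⟨?_, ?_, ?_, ?_, ?_, ?_, ?_, ?_⟩
  · intro g p q r s x z
    unfold Qf.v Qf.comp
    ring
  · intro g p q r s
    unfold Qf.I Qf.comp
    ring
  · intro g p q r s
    unfold Qf.J Qf.comp
    ring
  · intro g p q r s p' q' r' s'
    ext <;> (simp only [Qf.comp]; ring)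
  · intro g c x z
    refine ⟨?_, ?_, ?_, ?_, ?_⟩ <;> (simp only [Qf.v, Qf.I, Qf.J, Qf.h4, Qf.h6, Qf.smul]; ring)
  · intro g c p q r s
    ext <;> (simp only [Qf.comp, Qf.smul]; ring)
  · intro g c d
    ext <;> (simp only [Qf.smul]; ring)
  · intro g
    constructor
    · ext <;> (simp only [Qf.comp]; ring)
    · ext <;> (simp only [Qf.smul]; ring)

end Pool.Agent.H447.QR.COV1
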