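import Mathlib

/-!
# Project QR (helper447), MP_d6ddbd_nt: definitions

Binary quartic forms `A x⁴ + B x³ z + C x² z² + D x z³ + E z⁴`, their invariants and covariants, and
the elliptic curves `y² = x³ + a x + b`.
-/

set_option autoImplicit false

open WeierstrassCurve

namespace Pool.Agent.H447.QR

/-- a binary quartic form `A x⁴ + B x³ z + C x² z² + D x z³ + E z⁴` -/
@[ext] structure Qf (R : Type) where
  A : R
  B : R
  C : R
  D : R
  E : R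

namespace Qf

variable {R : Type} [CommRing R]

/-- the value -/
def v (g : Qf R) (x z : R) : R :=
  g.A * x ^ 4 + g.B * x ^ 3 * z + g.C * x ^ 2 * z ^ 2 + g.D * x * z ^ 3 + g.E * z ^ 4

/-- the invariant `I` -/
def I (g : Qf R) : R := 12 * g.A * g.E - 3 * g.B * g.D + g.C ^ 2

/-- the invariant `J` -/
def J (g : Qf R) : R :=
  72 * g.A * g.C * g.E + 9 * g.B * g.C * g.D - 27 * g.A * g.D ^ 2 - 27 * g.E * g.B ^ 2 - 2 * g.C ^ 3

/-- the covariant of degree four -/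
def h4 (g : Qf R) (x z : R) : R :=
  (3 * g.B ^ 2 - 8 * g.A * g.C) * x ^ 4 + 4 * (g.B * g.C - 6 * g.A * g.D) * x ^ 3 * z +
    2 * (2 * g.C ^ 2 - 24 * g.A * g.E - 3 * g.B * g.D) * x ^ 2 * z ^ 2 +
    4 * (g.C * g.D - 6 * g.B * g.E) * x * z ^ 3 + (3 * g.D ^ 2 - 8 * g.C * g.E) * z ^ 4

/-- the covariant of degree six -/
def h6 (g : Qf R) (x z : R) : R :=
  (g.B ^ 3 + 8 * g.A ^ 2 * g.D - 4 * g.A * g.B * g.C) * x ^ 6 +
    2 * (16 * g.A ^ 2 * g.E + 2 * g.A * g.B * g.D - 4 * g.A * g.C ^ 2 + g.B ^ 2 * g.C) * x ^ 5 * z +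
    5 * (8 * g.A * g.B * g.E + g.B ^ 2 * g.D - 4 * g.A * g.C * g.D) * x ^ 4 * z ^ 2 +
    20 * (g.B ^ 2 * g.E - g.A * g.D ^ 2) * x ^ 3 * z ^ 3 -
    5 * (8 * g.A * g.D * g.E + g.B * g.D ^ 2 - 4 * g.B * g.C * g.E) * x ^ 2 * z ^ 4 -
    2 * (16 * g.A * g.E ^ 2 + 2 * g.B * g.D * g.E - 4 * g.C ^ 2 * g.E + g.C * g.D ^ 2) * x * z ^ 5 -
    (g.D ^ 3 + 8 * g.B * g.E ^ 2 - 4 * g.C * g.D * g.E) * z ^ 6

/-- substitution: `(g.comp p q r s) (x, z) = g (p x + q z, r x + s z)` -/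
def comp (g : Qf R) (p q r s : R) : Qf R where
  A := g.A * p ^ 4 + g.B * p ^ 3 * r + g.C * p ^ 2 * r ^ 2 + g.D * p * r ^ 3 + g.E * r ^ 4
  B := 4 * g.A * p ^ 3 * q + g.B * (p ^ 3 * s + 3 * p ^ 2 * q * r) +
    g.C * (2 * p ^ 2 * r * s + 2 * p * q * r ^ 2) + g.D * (q * r ^ 3 + 3 * p * r ^ 2 * s) +
    4 * g.E * r ^ 3 * s
  C := 6 * g.A * p ^ 2 * q ^ 2 + g.B * (3 * p ^ 2 * q * s + 3 * p * q ^ 2 * r) +
    g.C * (p ^ 2 * s ^ 2 + 4 * p * q * r * s + q ^ 2 * r ^ 2) +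
    g.D * (3 * p * r * s ^ 2 + 3 * q * r ^ 2 * s) + 6 * g.E * r ^ 2 * s ^ 2
  D := 4 * g.A * p * q ^ 3 + g.B * (3 * p * q ^ 2 * s + q ^ 3 * r) +
    g.C * (2 * p * q * s ^ 2 + 2 * q ^ 2 * r * s) + g.D * (p * s ^ 3 + 3 * q * r * s ^ 2) +
    4 * g.E * r * s ^ 3
  E := g.A * q ^ 4 + g.B * q ^ 3 * s + g.C * q ^ 2 * s ^ 2 + g.D * q * s ^ 3 + g.E * s ^ 4

/-- multiplication by a constant -/
def smul (c : R) (g : Qf R) : Qf R := ⟨c * g.A, c * g.B, c * g.C, c * g.D, c * g.E⟩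

/-- an integral form as a rational form -/
def q (g : Qf ℤ) : Qf ℚ := ⟨g.A, g.B, g.C, g.D, g.E⟩

/-- the sum of the absolute values of the coefficients -/
def n (g : Qf ℤ) : ℕ :=
  g.A.natAbs + g.B.natAbs + g.C.natAbs + g.D.natAbs + g.E.natAbs

end Qf

/-- the curve `y² = x³ + a x + b` -/
abbrev crv (a b : ℚ) : WeierstrassCurve ℚ := ⟨0, 0, 0, a, b⟩

/-- its group of rational points -/
abbrev Pt (a b : ℚ) : Type := (crv a b).toAffine.Point

/-- the quartic `g` has the right invariants for the curve `y² = x³ + a x + b` -/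
def Inv {R : Type} [CommRing R] (a b : R) (g : Qf R) : Prop := g.I = -48 * a ∧ g.J = -1728 * b

/-- `g` represents the point `P`: `P` is the image of a rational point `(x : z, y)`, `y ≠ 0`, of
`y² = g (x, z)` under the covering map `(h4 / (48 y²), h6 / (64 y³))` -/
def Rep (a b : ℚ) (g : Qf ℚ) (P : Pt a b) : Prop :=
  ∃ (x z y X Y : ℚ) (h : (crv a b).toAffine.Nonsingular X Y),
    y ≠ 0 ∧ y ^ 2 = g.v x z ∧ 48 * y ^ 2 * X = g.h4 x z ∧ 64 * y ^ 3 * Y = g.h6 x z ∧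
      P = Affine.Point.some X Y h

/-- `g` has a rational root (a rational zero of the binary form) -/
def Root (g : Qf ℚ) : Prop := ∃ x z : ℚ, (x ≠ 0 ∨ z ≠ 0) ∧ g.v x z = 0

/-- `y² = g (x, z)` is soluble in rational numbers, `(x, z) ≠ (0, 0)` -/
def Sol (g : Qf ℚ) : Prop := ∃ x z y : ℚ, (x ≠ 0 ∨ z ≠ 0) ∧ y ^ 2 = g.v x z

/-- the affine curve `y² = g (x, 1)` has infinitely many rational points -/
def InfC (g : Qf ℚ) : Prop := Set.Infinite {p : ℚ × ℚ | p.2 ^ 2 = g.v p.1 1}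

/-- the normal form of a quartic with a rational point at infinity -/
def nf (a X Y : ℚ) : Qf ℚ := ⟨1, 0, -6 * X, 8 * Y, -3 * X ^ 2 - 4 * a⟩

/-- bounded test for a rational root of an integral form -/
def RootB (g : Qf ℤ) : Prop :=
  ∃ x z : ℤ, x.natAbs ≤ g.n ∧ z.natAbs ≤ g.n ∧ (x ≠ 0 ∨ z ≠ 0) ∧ g.v x z = 0

/-- bound for `EqvB` -/
def eqvBd (g : Qf ℤ) (r s : ℤ) : ℕ := (s.natAbs + 48 * r.natAbs) * (200 * g.n ^ 2 + g.n + 1)

/-- bounded test: the integral form `g` represents a point with first coordinate `r / s` -/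
def EqvB (g : Qf ℤ) (r s : ℤ) : Prop :=
  ∃ x z : ℤ, x.natAbs ≤ eqvBd g r s ∧ z.natAbs ≤ eqvBd g r s ∧ g.v x z ≠ 0 ∧
    (∃ y : ℤ, y ^ 2 = g.v x z) ∧ s * g.h4 x z = 48 * r * g.v x z

/-- tuples of coefficients -/
abbrev T5 : Type := ℤ × ℤ × ℤ × ℤ × ℤ

/-- the form with the given tuple of coefficients -/
def ofT (t : T5) : Qf ℤ := ⟨t.1, t.2.1, t.2.2.1, t.2.2.2.1, t.2.2.2.2⟩

/-- an entry: a quartic and an integral point of `y² = g (x, z)` -/
abbrev Ent : Type := T5 × (ℤ × ℤ × ℤ)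

/-- numerator of the first coordinate of the represented point -/
def eR (e : Ent) : ℤ := (ofT e.1).h4 e.2.1 e.2.2.1

/-- denominator of the first coordinate of the represented point -/
def eS (e : Ent) : ℤ := 48 * e.2.2.2 ^ 2

/-- the entry is good for the curve `y² = x³ + a x + b` -/
def Good (a b : ℤ) (e : Ent) : Prop :=
  Inv a b (ofT e.1) ∧ e.2.2.2 ≠ 0 ∧ e.2.2.2 ^ 2 = (ofT e.1).v e.2.1 e.2.2.1 ∧ ¬ RootB (ofT e.1)

/-- the points represented by the entries `e`, `f` are different modulo doubles -/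
def NEq (e f : Ent) : Prop := ¬ EqvB (ofT e.1) (eR f) (eS f)

/-- valid lists: good entries, pairwise different modulo doubles -/
def VL (a b : ℤ) (L : List Ent) : Prop := (∀ e ∈ L, Good a b e) ∧ L.Pairwise NEq

/-- the number of classes modulo doubles -/
noncomputable def cls (a b : ℤ) : ℕ :=
  Nat.card (Pt a b ⧸ (zsmulAddGroupHom (α := Pt a b) 2).range)

/-- number of the integral roots of `x³ + a x + b` -/
def nrt (a b : ℤ) : ℕ :=
  ((List.range (2 * (a.natAbs + b.natAbs + 1) + 1)).filter (fun i : ℕ =>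
    let x : ℤ := (i : ℤ) - (a.natAbs + b.natAbs + 1)
    decide (x ^ 3 + a * x + b = 0))).length

/-- `n`-th coefficient bound -/
def bdK (K : ℕ) (a b : ℤ) : ℕ := (48 * a.natAbs + 1728 * b.natAbs + 2) ^ K

/-- all coefficients of `g` are at most `m` in absolute value -/
def InBox (m : ℕ) (g : Qf ℤ) : Prop :=
  g.A.natAbs ≤ m ∧ g.B.natAbs ≤ m ∧ g.C.natAbs ≤ m ∧ g.D.natAbs ≤ m ∧ g.E.natAbs ≤ m

/-- the rank of `y² = x³ + a x + b`; `0` if the curve is singular -/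
noncomputable def rk (c : ℤ × ℤ) : ℕ :=
  if 4 * c.1 ^ 3 + 27 * c.2 ^ 2 ≠ 0 then Module.finrank ℤ (Pt c.1 c.2) else 0

/-- the form is nonsingular and `y² = g (x, z)` is soluble -/
def QSol (t : T5) : Prop := 4 * (ofT t).I ^ 3 ≠ (ofT t).J ^ 2 ∧ Sol (ofT t).q

/-- the form is nonsingular and `y² = g (x, 1)` has infinitely many rational solutions -/
def QInf (t : T5) : Prop := 4 * (ofT t).I ^ 3 ≠ (ofT t).J ^ 2 ∧ InfC (ofT t).q

end Pool.Agent.H447.QR
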